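import Pool.Agent.H24AP.Incr

/-!
# Iteration of the increment

With `α ≤ 𝔼 a`: after `j` steps there is a cube embedding of dimension at least
`(α/2)^(1002 j) n` on which the density is at least `α + j α^15/10^10`, as long as
`(α/2)^(1002 (j-1)) n ≥ (4/α)^1000`.  For `j > 10^10 α^(-15)` this is absurd, so
`log n ≤ 1002 (10^10 α^(-15) + 2) log (2/α) + 1000 log (4/α) ≤ 10^16 α^(-16)`.
-/

namespace H24AP

open Finset
open scoped BigOperators

theorem E_le_one {κ ι : Type} [Fintype κ] [DecidableEq κ] (a : (ι → ZMod 3) → ℝ)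
    (ha : IsFree a) (e : DEmb κ ι) : 𝔼 t, a (e.app t) ≤ 1 := by
  have h1 : 𝔼 t, a (e.app t) ≤ 𝔼 _t : κ → ZMod 3, (1 : ℝ) := by
    apply Finset.expect_le_expect
    intro t _
    rcases ha.zo (e.app t) with h | h <;> rw [h]
    norm_num
  rwa [Fintype.expect_const] at h1

/-- One step: enough room for the increment. -/
theorem room {α N : ℝ} (hα0 : 0 < α) (hα1 : α ≤ 1) (hN0 : 0 < N)
    (hN : 10 ^ 16 * (1 / α) ^ 16 < Real.log N) (j : ℕ)
    (hj : (j : ℝ) ≤ 10 ^ 10 * (1 / α) ^ 15) :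
    (4 / α) ^ 1000 ≤ (α / 2) ^ (1002 * j) * N := by
  obtain ⟨u, hu⟩ : ∃ u : ℝ, u = 1 / α := ⟨_, rfl⟩
  rw [← hu] at hN hj
  have hu1 : 1 ≤ u := by rw [hu]; exact (one_le_div hα0).2 hα1
  have hu0 : 0 < u := by linarith
  have h4u : 4 / α = 4 * u := by rw [hu]; ring
  rw [h4u]
  have hpos : (0 : ℝ) < (α / 2) ^ (1002 * j) * N := by positivity
  have hpos2 : (0 : ℝ) < (4 * u) ^ 1000 := by positivity
  have hlα : Real.log (α / 2) = -(Real.log u + Real.log 2) := by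
    rw [Real.log_div hα0.ne' (by norm_num), hu, Real.log_div one_ne_zero hα0.ne', Real.log_one]
    ring
  rw [← Real.log_le_log_iff hpos2 hpos]
  rw [Real.log_mul (by positivity) hN0.ne', Real.log_pow, Real.log_pow, hlα,
    Real.log_mul (by norm_num) hu0.ne']
  have hl4 : Real.log 4 ≤ 3 := by
    have := Real.log_le_sub_one_of_pos (show (0 : ℝ) < 4 by norm_num)
    linarith
  have hl2 : Real.log 2 ≤ 1 := by
    have := Real.log_le_sub_one_of_pos (show (0 : ℝ) < 2 by norm_num)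
    linarith
  have hlu : Real.log u ≤ u := by
    have := Real.log_le_sub_one_of_pos hu0
    linarith
  have hlu0 : 0 ≤ Real.log u := Real.log_nonneg hu1
  have hj0 : (0 : ℝ) ≤ j := Nat.cast_nonneg j
  have h3 : Real.log u + Real.log 2 ≤ 2 * u := by nlinarith
  have h4 : (j : ℝ) * (Real.log u + Real.log 2) ≤ (10 ^ 10 * u ^ 15) * (2 * u) := by
    apply mul_le_mul hj h3 _ (by positivity)
    have : 0 ≤ Real.log 2 := Real.log_nonneg (by norm_num)
    linarith
  have hu16 : 1 ≤ u ^ 16 := one_le_pow₀ hu1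
  have huu : u ≤ u ^ 16 := by
    calc u = u ^ 1 := (pow_one u).symm
      _ ≤ u ^ 16 := pow_le_pow_right₀ hu1 (by norm_num)
  push_cast
  have h5 : (10 ^ 10 * u ^ 15) * (2 * u) = 2 * 10 ^ 10 * u ^ 16 := by ring
  rw [h5] at h4
  nlinarith [h4, hl4, hlu, hu16, huu, hN]

theorem iter (n : ℕ) (hn : 0 < n) (a : (Fin n → ZMod 3) → ℝ) (ha : IsFree a) (α : ℝ)
    (hα0 : 0 < α) (hα1 : α ≤ 1) (hα : α ≤ 𝔼 x, a x)
    (hN : 10 ^ 16 * (1 / α) ^ 16 < Real.log n) (j : ℕ) :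
    (j : ℝ) ≤ 10 ^ 10 * (1 / α) ^ 15 + 1 →
    ∃ (m : ℕ) (e : DEmb (Fin m) (Fin n)), (α / 2) ^ (1002 * j) * (n : ℝ) ≤ m ∧
      α + j * (α ^ 15 / 10 ^ 10) ≤ 𝔼 t, a (e.app t) := by
  induction j with
  | zero =>
    intro _
    refine ⟨n, DEmb.idE (Fin n), by simp, ?_⟩
    simpa using hα
  | succ j ih =>
    intro hj
    push_cast at hj
    have hj' : (j : ℝ) ≤ 10 ^ 10 * (1 / α) ^ 15 := by linarith
    obtain ⟨m, e, hm, he⟩ := ih (by linarith)
    set β : ℝ := 𝔼 t, a (e.app t) with hβ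
    have hj0 : (0 : ℝ) ≤ j := Nat.cast_nonneg j
    have h15 : 0 ≤ α ^ 15 / 10 ^ 10 := by positivity
    have hαβ : α ≤ β := by nlinarith [mul_nonneg hj0 h15]
    have hβ0 : 0 < β := by linarith
    have hroom := room hα0 hα1 (by exact_mod_cast hn : (0 : ℝ) < n) hN j hj'
    have hcard : (4 / β) ^ 1000 ≤ (Fintype.card (Fin m) : ℝ) := by
      rw [Fintype.card_fin]
      refine le_trans ?_ (le_trans hroom hm)
      have : 4 / β ≤ 4 / α := by gcongr
      have h1 : 0 ≤ 4 / β := by positivity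
      gcongr
    obtain ⟨m', e', hm', he'⟩ := incr (fun t => a (e.app t)) (ha.pull e) β hβ0 rfl hcard
    refine ⟨m', e.comp e', ?_, ?_⟩
    · rw [Fintype.card_fin] at hm'
      refine le_trans ?_ hm'
      have h1 : (α / 2) ^ (1002 * (j + 1)) * (n : ℝ)
          = (α / 2) ^ 1002 * ((α / 2) ^ (1002 * j) * (n : ℝ)) := by
        rw [Nat.mul_add, pow_add]; ring
      rw [h1]
      have h2 : (α / 2) ^ 1002 ≤ (β / 2) ^ 1002 := by
        have : 0 ≤ α / 2 := by positivity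
        gcongr
      exact mul_le_mul h2 hm (by positivity) (by positivity)
    · simp only [DEmb.comp_app]
      refine le_trans ?_ he'
      have h1 : α ^ 15 ≤ β ^ 15 := by
        have := hα0.le
        gcongr
      push_cast
      have h2 : α ^ 15 / 10 ^ 10 ≤ β ^ 15 / 10 ^ 10 := by gcongr
      linarith

theorem main_bound (n : ℕ) (hn : 2 ≤ n) (a : (Fin n → ZMod 3) → ℝ) (ha : IsFree a) :
    𝔼 x, a x ≤ 10 * Real.log n ^ (-(1 / 16) : ℝ) := by
  have hn1 : (1 : ℝ) < n := by exact_mod_cast (by omega : 1 < n)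
  have hlog : 0 < Real.log n := Real.log_pos hn1
  by_contra hcon
  rw [not_le] at hcon
  set α : ℝ := 𝔼 x, a x with hα
  have hr0 : 0 < Real.log n ^ (-(1 / 16) : ℝ) := Real.rpow_pos_of_pos hlog _
  have hα0 : 0 < α := lt_trans (by positivity) hcon
  have hα1 : α ≤ 1 := by
    have := E_le_one a ha (DEmb.idE (Fin n))
    simpa using this
  have hN : 10 ^ 16 * (1 / α) ^ 16 < Real.log n := by
    have h1 : (Real.log n ^ (-(1 / 16) : ℝ)) ^ 16 = (Real.log n)⁻¹ := by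
      rw [← Real.rpow_natCast, ← Real.rpow_mul hlog.le]
      norm_num
      exact Real.rpow_neg_one _
    have h2 : (10 * Real.log n ^ (-(1 / 16) : ℝ)) ^ 16 < α ^ 16 := by
      have h0 : 0 ≤ 10 * Real.log n ^ (-(1 / 16) : ℝ) := by positivity
      gcongr
    rw [mul_pow, h1] at h2
    have h3 : 0 < α ^ 16 := by positivity
    rw [one_div, inv_pow, ← div_eq_mul_inv, div_lt_iff₀ h3]
    rw [← div_eq_mul_inv, div_lt_iff₀ hlog] at h2
    linarith
  set J : ℕ := ⌊(10 : ℝ) ^ 10 * (1 / α) ^ 15⌋₊ + 1 with hJ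
  have hX : (0 : ℝ) ≤ 10 ^ 10 * (1 / α) ^ 15 := by positivity
  have hJ1 : (J : ℝ) ≤ 10 ^ 10 * (1 / α) ^ 15 + 1 := by
    rw [hJ]; push_cast
    have := Nat.floor_le hX
    linarith
  have hJ2 : 10 ^ 10 * (1 / α) ^ 15 < (J : ℝ) := by
    rw [hJ]; push_cast
    exact Nat.lt_floor_add_one _
  obtain ⟨m, e, -, he⟩ := iter n (by omega) a ha α hα0 hα1 le_rfl hN J hJ1
  have h1 := E_le_one a ha e
  have h15 : 0 < α ^ 15 / 10 ^ 10 := by positivity
  have h2 : 10 ^ 10 * (1 / α) ^ 15 * (α ^ 15 / 10 ^ 10) = 1 := by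
    field_simp
  have h3 : 1 < (J : ℝ) * (α ^ 15 / 10 ^ 10) := by
    rw [← h2]
    exact mul_lt_mul_of_pos_right hJ2 h15
  linarith

end H24AP
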