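import Pool.Agent.H24AP.Level

/-!
# The averaging principle
-/

namespace H24AP

open Finset
open scoped BigOperators

theorem AP_card {ι κ : Type} [Fintype ι] [Fintype κ] (e : DEmb κ ι) :
    Fintype.card κ ≤ Fintype.card ι := by
  classical
  choose f hf using e.surj
  apply Fintype.card_le_of_injective f
  intro j j' h
  have h1 := hf j
  rw [h, hf j'] at h1
  exact (Option.some.inj h1).symm

/-- Induction on `R` with `level`.  In the step, if `lam + R/g² (B - lam) ≥ B` there is nothing to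
prove; otherwise apply `level` with `lam + R/g² (B - lam)` in place of `lam`.  Note
`60/m ≤ 1/g²`. -/
theorem AP_iter (g : ℕ) (hg : 1 ≤ g) (R : ℕ) : ∀ {ι : Type} [Fintype ι] [DecidableEq ι]
    (ρ : ℝ) (_ : 0 < ρ) (θ : ι → ZMod 3 → ℝ) (_ : ∀ i s, |θ i s - θ i 0| ≤ ρ)
    (_ : 30 ^ R * (100 * (2 * g + 1) ^ 2) ≤ Fintype.card ι)
    (Φ : (ι → ZMod 3) → ℝ) (lam B : ℝ) (_ : lam ≤ B) (_ : ∀ x, Φ x ≤ B)
    (_ : ∀ (κ : Type) [Fintype κ] [DecidableEq κ] (e : DEmb κ ι),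
      Fintype.card ι ≤ 30 ^ R * Fintype.card κ →
      (∀ t, |∑ i, θ i (e.app t i) - ∑ i, θ i (e.app 0 i)| ≤
        Fintype.card ι * (ρ * (4 / g) ^ R)) →
      𝔼 t, Φ (e.app t) ≤ lam),
    𝔼 x, Φ x ≤ lam + R / (g : ℝ) ^ 2 * (B - lam) := by
  induction R with
  | zero =>
    intro ι _ _ ρ hρ θ hθ hm Φ lam B hlB hΦ hyp
    have h := hyp ι (DEmb.idE ι) (by simp) (by
      intro t
      rw [← Finset.sum_sub_distrib]
      refine (Finset.abs_sum_le_sum_abs _ _).trans ?_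
      have h1 : ∑ i, |θ i ((DEmb.idE ι).app t i) - θ i ((DEmb.idE ι).app 0 i)|
          ≤ ∑ _i : ι, ρ := by
        apply Finset.sum_le_sum
        intro i _
        simpa using hθ i (t i)
      refine h1.trans ?_
      simp)
    simpa using h
  | succ R ih =>
    intro ι _ _ ρ hρ θ hθ hm Φ lam B hlB hΦ hyp
    have hgR : (1 : ℝ) ≤ g := by exact_mod_cast hg
    have hg0 : (0 : ℝ) < g := by linarith
    have hBl : 0 ≤ B - lam := by linarith
    have hR0 : (0 : ℝ) ≤ R / (g : ℝ) ^ 2 * (B - lam) := by positivity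
    have h1g : (0 : ℝ) ≤ 1 / (g : ℝ) ^ 2 * (B - lam) := by positivity
    have hne : Nonempty (ι → ZMod 3) := ⟨0⟩
    have hsplit : ((R + 1 : ℕ) : ℝ) / (g : ℝ) ^ 2 * (B - lam)
        = R / (g : ℝ) ^ 2 * (B - lam) + 1 / (g : ℝ) ^ 2 * (B - lam) := by
      push_cast; ring
    rw [hsplit]
    by_cases hc : B ≤ lam + R / (g : ℝ) ^ 2 * (B - lam)
    · have hE : 𝔼 x, Φ x ≤ B := by
        have : 𝔼 x, Φ x ≤ 𝔼 _x : ι → ZMod 3, B := Finset.expect_le_expect (fun x _ => hΦ x)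
        simpa using this
      linarith
    · push Not at hc
      have hm100 : 100 * (2 * g + 1) ^ 2 ≤ Fintype.card ι := by
        refine le_trans ?_ hm
        have : 1 ≤ 30 ^ (R + 1) := Nat.one_le_pow _ _ (by norm_num)
        nlinarith [Nat.zero_le (100 * (2 * g + 1) ^ 2)]
      have hlev := level g hg ρ hρ θ hθ hm100 Φ (lam + R / (g : ℝ) ^ 2 * (B - lam)) B hc.le hΦ
        (by
          intro κ _ _ e θ' hcard hθ' hc'
          obtain ⟨c, hc'⟩ := hc'
          apply ih (4 * ρ / g) (by positivity) θ' hθ' ?_ (fun t => Φ (e.app t)) lam B hlB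
            (fun t => hΦ _) ?_
          · have : 30 ^ (R + 1) * (100 * (2 * g + 1) ^ 2) ≤ 30 * Fintype.card κ := hm.trans hcard
            rw [pow_succ] at this
            nlinarith
          · intro κ2 _ _ e2 hcard2 hθ2
            have h3 := hyp κ2 (e.comp e2) (by
              calc Fintype.card ι ≤ 30 * Fintype.card κ := hcard
                _ ≤ 30 * (30 ^ R * Fintype.card κ2) := by gcongr
                _ = 30 ^ (R + 1) * Fintype.card κ2 := by ring) (by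
              intro t
              rw [DEmb.comp_app, DEmb.comp_app, hc', hc']
              have h4 := hθ2 t
              have h5 : c + ∑ j, θ' j (e2.app t j) - (c + ∑ j, θ' j (e2.app 0 j))
                  = ∑ j, θ' j (e2.app t j) - ∑ j, θ' j (e2.app 0 j) := by ring
              rw [h5]
              refine h4.trans ?_
              have h6 : (4 * ρ / (g : ℝ)) * (4 / g) ^ R = ρ * (4 / g) ^ (R + 1) := by
                rw [pow_succ]; ring
              rw [h6]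
              have h7 : ((Fintype.card κ : ℕ) : ℝ) ≤ Fintype.card ι := by
                exact_mod_cast AP_card e
              gcongr)
            simpa only [DEmb.comp_app] using h3)
      have hmR : (100 : ℝ) * (2 * g + 1) ^ 2 ≤ Fintype.card ι := by exact_mod_cast hm100
      have hm0 : (0 : ℝ) < Fintype.card ι := by
        have : (0 : ℝ) < 100 * (2 * g + 1) ^ 2 := by positivity
        linarith
      have h60 : (60 : ℝ) / Fintype.card ι ≤ 1 / (g : ℝ) ^ 2 := by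
        rw [div_le_div_iff₀ hm0 (by positivity)]
        nlinarith
      have h8 : (60 : ℝ) / Fintype.card ι * (B - (lam + R / (g : ℝ) ^ 2 * (B - lam)))
          ≤ 1 / (g : ℝ) ^ 2 * (B - lam) := by
        calc (60 : ℝ) / Fintype.card ι * (B - (lam + R / (g : ℝ) ^ 2 * (B - lam)))
            ≤ 1 / (g : ℝ) ^ 2 * (B - (lam + R / (g : ℝ) ^ 2 * (B - lam))) :=
              mul_le_mul_of_nonneg_right h60 (by linarith)
          _ ≤ 1 / (g : ℝ) ^ 2 * (B - lam) :=
              mul_le_mul_of_nonneg_left (by linarith) (by positivity)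
      linarith

theorem AP_cbrt (m : ℕ) : ∃ g : ℕ, g ^ 3 ≤ m ∧ m < (g + 1) ^ 3 := by
  classical
  have hex : ∃ g : ℕ, m < (g + 1) ^ 3 := ⟨m, lt_of_lt_of_le (Nat.lt_succ_self m) (Nat.le_self_pow (by norm_num) _)⟩
  refine ⟨Nat.find hex, ?_, Nat.find_spec hex⟩
  rcases Nat.eq_zero_or_pos (Nat.find hex) with h | h
  · rw [h]; simp
  · have h1 := Nat.find_min hex (Nat.sub_lt h Nat.one_pos)
    rw [Nat.sub_add_cancel h] at h1
    exact not_lt.mp h1

/-- `R = 4`, `g^3 ≤ m < (g+1)^3`. -/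
theorem AP {ι : Type} [Fintype ι] [DecidableEq ι] (θ : ι → ZMod 3 → ℝ)
    (hθ : ∀ i s, |θ i s| ≤ Real.pi) (δ : ℝ) (hδ : 0 < δ) (hδ1 : δ ≤ 1)
    (hm : 10 ^ 30 * (1 / δ) ^ 3 ≤ (Fintype.card ι : ℝ))
    (Φ : (ι → ZMod 3) → ℝ) (lam : ℝ) (hl0 : 0 ≤ lam) (hl2 : lam ≤ 2) (hΦ : ∀ x, Φ x ≤ 2)
    (hyp : ∀ (κ : Type) [Fintype κ] [DecidableEq κ] (e : DEmb κ ι),
      Fintype.card ι ≤ 30 ^ 4 * Fintype.card κ →
      (∀ t, |∑ i, θ i (e.app t i) - ∑ i, θ i (e.app 0 i)| ≤ δ) →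
      𝔼 t, Φ (e.app t) ≤ lam) :
    𝔼 x, Φ x ≤ lam + δ := by
  obtain ⟨g, hg1, hg2⟩ := AP_cbrt (Fintype.card ι)
  have hg1R : (g : ℝ) ^ 3 ≤ Fintype.card ι := by exact_mod_cast hg1
  have hg2R : (Fintype.card ι : ℝ) < ((g : ℝ) + 1) ^ 3 := by exact_mod_cast hg2
  have hd1 : 1 ≤ 1 / δ := by rw [le_div_iff₀ hδ]; linarith
  -- g is large
  have hglarge : 10 ^ 10 * (1 / δ) < (g : ℝ) + 1 := by
    by_contra hcon
    push Not at hcon
    have h1 : ((g : ℝ) + 1) ^ 3 ≤ (10 ^ 10 * (1 / δ)) ^ 3 := by gcongr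
    have h2 : (10 ^ 10 * (1 / δ)) ^ 3 = 10 ^ 30 * (1 / δ) ^ 3 := by ring
    linarith
  have hg9 : 10 ^ 9 * (1 / δ) ≤ (g : ℝ) := by linarith
  have hg9' : (10 : ℝ) ^ 9 ≤ g := by linarith
  have hg9n : 10 ^ 9 ≤ g := by exact_mod_cast hg9'
  have hg1n : 1 ≤ g := by omega
  have hg0 : (0 : ℝ) < g := by linarith
  have hπ : 0 < Real.pi := Real.pi_pos
  have hπ4 : Real.pi ≤ 4 := Real.pi_le_four
  have hgδ : 10 ^ 9 ≤ g * δ := by
    have : 10 ^ 9 * (1 / δ) * δ ≤ g * δ := by gcongr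
    have h2 : 10 ^ 9 * (1 / δ) * δ = 10 ^ 9 := by field_simp
    linarith
  have hmain := AP_iter g hg1n 4 (2 * Real.pi) (by positivity) θ (by
    intro i s
    have h1 := hθ i s
    have h2 := hθ i 0
    rw [abs_le] at h1 h2 ⊢
    constructor <;> linarith [h1.1, h1.2, h2.1, h2.2]) (by
    refine le_trans ?_ hg1
    have h3 : (2 * g + 1) ^ 2 ≤ 9 * g ^ 2 := by nlinarith
    have h4 : g ^ 3 = g * g ^ 2 := by ring
    rw [h4]
    calc 30 ^ 4 * (100 * (2 * g + 1) ^ 2) ≤ 30 ^ 4 * (100 * (9 * g ^ 2)) := by gcongr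
      _ = (30 ^ 4 * 900) * g ^ 2 := by ring
      _ ≤ g * g ^ 2 := by
        apply Nat.mul_le_mul_right
        refine le_trans ?_ hg9n
        norm_num) Φ lam 2 hl2 hΦ (by
    intro κ _ _ e hcard hang
    apply hyp κ e hcard
    intro t
    refine (hang t).trans ?_
    have h5 : (Fintype.card ι : ℝ) ≤ 8 * g ^ 3 := by
      have : ((g : ℝ) + 1) ^ 3 ≤ (2 * g) ^ 3 := by gcongr; linarith
      nlinarith
    calc (Fintype.card ι : ℝ) * (2 * Real.pi * (4 / g) ^ 4)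
        ≤ (8 * (g : ℝ) ^ 3) * (2 * 4 * (4 / (g : ℝ)) ^ 4) := by gcongr
      _ = 16384 / (g : ℝ) := by field_simp; norm_num
      _ ≤ δ := by
        rw [div_le_iff₀ hg0]
        nlinarith)
  have h6 : (4 : ℕ) / (g : ℝ) ^ 2 * (2 - lam) ≤ δ := by
    have h7 : (4 : ℝ) / (g : ℝ) ^ 2 * (2 - lam) ≤ 4 / (g : ℝ) ^ 2 * 2 := by
      gcongr; linarith
    have h8 : (4 : ℝ) / (g : ℝ) ^ 2 * 2 ≤ δ := by
      rw [div_mul_eq_mul_div, div_le_iff₀ (by positivity)]
      nlinarith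
    push_cast
    linarith
  linarith

end H24AP
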