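import Pool.Agent.H24AP.Defs

/-!
# Basic facts: averages over cubes, cube embeddings
-/

namespace H24AP

open Finset
open scoped BigOperators ComplexConjugate

variable {ι κ μ : Type}

section mixlemmas
variable [DecidableEq ι] {α : Type}

@[simp] theorem mix_of_mem {U : Finset ι} {i : ι} (h : i ∈ U) (x y : ι → α) :
    mix U x y i = x i := by simp [mix, h]

@[simp] theorem mix_of_not_mem {U : Finset ι} {i : ι} (h : i ∉ U) (x y : ι → α) :
    mix U x y i = y i := by simp [mix, h]

theorem mix_self (U : Finset ι) (x : ι → α) : mix U x x = x := by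
  funext i; simp [mix]

theorem mix_mix_left (U : Finset ι) (x y z : ι → α) : mix U (mix U x y) z = mix U x z := by
  funext i; by_cases h : i ∈ U <;> simp [mix, h]

theorem mix_mix_right (U : Finset ι) (x y z : ι → α) : mix U x (mix U y z) = mix U x z := by
  funext i; by_cases h : i ∈ U <;> simp [mix, h]

/-- For `V ⊆ U`: mixing inside `U`. -/
theorem mix_sub {U V : Finset ι} (h : V ⊆ U) (v p a : ι → α) :
    mix V v (mix U p a) = mix U (mix V v p) a := by
  funext i
  by_cases hV : i ∈ V
  · simp [mix, hV, h hV]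
  · by_cases hU : i ∈ U <;> simp [mix, hU, hV]

@[simp] theorem mix_empty (x y : ι → α) : mix ∅ x y = y := by
  funext i; simp [mix]

@[simp] theorem mix_univ [Fintype ι] (x y : ι → α) : mix univ x y = x := by
  funext i; simp [mix]

end mixlemmas

section averages
variable {M : Type} [AddCommMonoid M] [Module ℚ≥0 M]

/-- Averages are invariant under bijections. -/
theorem E_equiv {α β : Type} [Fintype α] [Fintype β] (e : α ≃ β) (F : β → M) :
    𝔼 x, F (e x) = 𝔼 y, F y :=
  Fintype.expect_equiv e _ _ (fun _ => rfl)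

/-- Averages over a product. -/
theorem E_prod {α β : Type} [Fintype α] [Fintype β] (F : α → β → M) :
    𝔼 p : α × β, F p.1 p.2 = 𝔼 x, 𝔼 y, F x y := by
  have := Finset.expect_product (univ : Finset α) (univ : Finset β) (fun p => F p.1 p.2)
  simpa using this

theorem E_comm {α β : Type} [Fintype α] [Fintype β] (F : α → β → M) :
    𝔼 x, 𝔼 y, F x y = 𝔼 y, 𝔼 x, F x y :=
  Finset.expect_comm _ _ _

variable [Fintype ι] [DecidableEq ι] {α : Type} [Fintype α] [DecidableEq α]

/-- The swap `(x, y) ↦ (mix U x y, mix U y x)`. -/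
def mixEquiv (α : Type) (U : Finset ι) : ((ι → α) × (ι → α)) ≃ ((ι → α) × (ι → α)) where
  toFun p := (mix U p.1 p.2, mix U p.2 p.1)
  invFun p := (mix U p.1 p.2, mix U p.2 p.1)
  left_inv p := by
    ext i <;> by_cases h : i ∈ U <;> simp [mix, h]
  right_inv p := by
    ext i <;> by_cases h : i ∈ U <;> simp [mix, h]

omit [DecidableEq α] in
/-- Averages over the cube may be computed separately on `U` and off `U`. -/
theorem E_mix [Nonempty α] (U : Finset ι) (F : (ι → α) → M) :
    𝔼 x, 𝔼 y, F (mix U x y) = 𝔼 x, F x := by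
  have h1 : 𝔼 p : (ι → α) × (ι → α), F (mix U p.1 p.2) =
      𝔼 p : (ι → α) × (ι → α), F p.1 :=
    E_equiv (mixEquiv α U) (fun p => F p.1)
  rw [← E_prod, h1, E_prod (fun x (_ : ι → α) => F x)]
  simp

/-- Shift invariance. -/
theorem E_shift (c : ι → ZMod 3) (F : (ι → ZMod 3) → M) :
    𝔼 x, F (x + c) = 𝔼 x, F x :=
  E_equiv (Equiv.addRight c) F

/-- Resampling one coordinate. -/
theorem E_update (i : ι) (F : (ι → ZMod 3) → M) :
    𝔼 s : ZMod 3, 𝔼 x, F (Function.update x i s) = 𝔼 x, F x := by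
  have h : 𝔼 x : ι → ZMod 3, 𝔼 y, F (mix {i} x y) = 𝔼 x, F x := E_mix {i} F
  have h2 : ∀ x y : ι → ZMod 3, mix {i} x y = Function.update y i (x i) := by
    intro x y; funext j
    by_cases hj : j = i
    · subst hj; simp [mix]
    · simp [mix, hj]
  simp only [h2] at h
  rw [← h]
  let e : (ι → ZMod 3) ≃ ZMod 3 × ({j : ι // j ≠ i} → ZMod 3) := Equiv.funSplitAt i (ZMod 3)
  have h3 : 𝔼 x : ι → ZMod 3, (𝔼 y, F (Function.update y i (x i))) =
      𝔼 p : ZMod 3 × ({j : ι // j ≠ i} → ZMod 3), 𝔼 y, F (Function.update y i p.1) :=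
    E_equiv e (fun p => 𝔼 y, F (Function.update y i p.1))
  rw [h3, E_prod (fun (s : ZMod 3) (_ : {j : ι // j ≠ i} → ZMod 3) =>
    𝔼 y, F (Function.update y i s))]
  simp

/-- Restricting to a set of coordinates. -/
theorem E_restrict (U : Finset ι) (F : (U → ZMod 3) → M) :
    𝔼 x : ι → ZMod 3, F (fun i : U => x i) = 𝔼 t, F t := by
  let e : (ι → ZMod 3) ≃ (U → ZMod 3) × ({i : ι // ¬ i ∈ U} → ZMod 3) :=
    Equiv.piEquivPiSubtypeProd (fun i => i ∈ U) (fun _ => ZMod 3)
  have h3 : 𝔼 x : ι → ZMod 3, F (fun i : U => x i) =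
      𝔼 p : (U → ZMod 3) × ({i : ι // ¬ i ∈ U} → ZMod 3), F p.1 :=
    E_equiv e (fun p => F p.1)
  rw [h3, E_prod (fun (t : U → ZMod 3) (_ : {i : ι // ¬ i ∈ U} → ZMod 3) => F t)]
  simp

end averages

/-! ### cube embeddings -/

/-- Composition. -/
def DEmb.comp (e : DEmb κ ι) (e' : DEmb μ κ) : DEmb μ ι where
  y := e.app e'.y
  blk := fun i => (e.blk i).elim none e'.blk
  surj := by
    intro j
    obtain ⟨k, hk⟩ := e'.surj j
    obtain ⟨i, hi⟩ := e.surj k
    exact ⟨i, by simp [hi, hk]⟩

theorem DEmb.comp_app (e : DEmb κ ι) (e' : DEmb μ κ) (t : μ → ZMod 3) :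
    (e.comp e').app t = e.app (e'.app t) := by
  funext i
  simp only [DEmb.app, DEmb.comp]
  cases h : e.blk i with
  | none => simp
  | some k => simp [add_assoc]; rfl

/-- Fixing the coordinates off `U`. -/
def DEmb.sub [DecidableEq ι] (U : Finset ι) (y : ι → ZMod 3) : DEmb U ι where
  y := fun i => if i ∈ U then 0 else y i
  blk := fun i => if h : i ∈ U then some ⟨i, h⟩ else none
  surj := fun j => ⟨j, by simp⟩

theorem DEmb.sub_app [DecidableEq ι] (U : Finset ι) (y x : ι → ZMod 3) :
    (DEmb.sub U y).app (fun i : U => x i) = mix U x y := by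
  funext i
  by_cases h : i ∈ U <;> simp [DEmb.app, DEmb.sub, mix, h]

/-- The identity. -/
def DEmb.idE (ι : Type) : DEmb ι ι where
  y := 0
  blk := some
  surj := fun j => ⟨j, rfl⟩

@[simp] theorem DEmb.idE_app (t : ι → ZMod 3) : (DEmb.idE ι).app t = t := by
  funext i; simp [DEmb.app, DEmb.idE]

/-- Freeness pulls back. -/
theorem IsFree.pull {a : (ι → ZMod 3) → ℝ} (ha : IsFree a) (e : DEmb κ ι) :
    IsFree (fun t => a (e.app t)) := by
  refine ⟨fun t => ha.zo _, fun x d hd hd0 => ?_⟩
  have key : ∀ t : κ → ZMod 3, e.app (t + d) = e.app t + fun i => (e.blk i).elim 0 d := by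
    intro t; funext i
    cases h : e.blk i with
    | none => simp [DEmb.app, h]
    | some k => simp [DEmb.app, h, add_assoc]
  rw [key (x + d), key x]
  apply ha.fr
  · intro i
    cases h : e.blk i with
    | none => left; simp
    | some k => simpa [h] using hd k
  · intro h0
    apply hd0
    funext j
    obtain ⟨i, hi⟩ := e.surj j
    have := congrFun h0 i
    simpa [hi] using this

end H24AP
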