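import Pool.Agent.H24AP.Cheb

/-!
# Increment from a large `W`
-/

namespace H24AP

open Finset
open scoped BigOperators

/-- Use `cheb_half` for `F V = 𝔼 y, (𝔼 x, f (mix V x y))^2`; then `g y = 𝔼 x, f (mix V x y)` has
mean zero, `|g| ≤ 1`, `𝔼 g^2 ≥ c/2`, so `𝔼 |g| ≥ c/2` and `g y ≥ c/4` for some `y`. -/
theorem case1 {ι : Type} [Fintype ι] [DecidableEq ι] (a : (ι → ZMod 3) → ℝ)
    (h01 : ∀ x, 0 ≤ a x ∧ a x ≤ 1) (α : ℝ) (hα : 𝔼 x, a x = α) (c : ℝ) (hc : 0 < c)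
    (hW : c ≤ W (fun x => a x - α)) (hn : 16 ≤ c * Fintype.card ι) :
    ∃ (V : Finset ι) (y : ι → ZMod 3), (Fintype.card ι : ℝ) ≤ 4 * V.card ∧
      α + c / 4 ≤ 𝔼 x, a (mix V x y) := by
  have hα0 : 0 ≤ α := by
    rw [← hα]; exact Finset.expect_nonneg (fun x _ => (h01 x).1)
  have hα1 : α ≤ 1 := by
    rw [← hα]
    calc 𝔼 x, a x ≤ 𝔼 _x : ι → ZMod 3, (1 : ℝ) := Finset.expect_le_expect (fun x _ => (h01 x).2)
      _ = 1 := by simp
  set f : (ι → ZMod 3) → ℝ := fun x => a x - α with hf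
  have hf1 : ∀ x, |f x| ≤ 1 := by
    intro x
    rw [hf, abs_le]
    constructor
    · show -1 ≤ a x - α
      linarith [(h01 x).1]
    · show a x - α ≤ 1
      linarith [(h01 x).2]
  have hg1 : ∀ (V : Finset ι) (y : ι → ZMod 3), |𝔼 x, f (mix V x y)| ≤ 1 := by
    intro V y
    calc |𝔼 x, f (mix V x y)| ≤ 𝔼 x, |f (mix V x y)| := Finset.abs_expect_le _ _
      _ ≤ 𝔼 _x : ι → ZMod 3, (1 : ℝ) := Finset.expect_le_expect (fun x _ => hf1 _)
      _ = 1 := by simp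
  have hsq : ∀ r : ℝ, |r| ≤ 1 → r ^ 2 ≤ |r| := by
    intro r hr
    rw [← sq_abs]
    nlinarith [abs_nonneg r]
  have hF : ∀ V : Finset ι, 𝔼 y : ι → ZMod 3, (𝔼 x : ι → ZMod 3, f (mix V x y)) ^ 2 ≤ 1 := by
    intro V
    calc 𝔼 y : ι → ZMod 3, (𝔼 x : ι → ZMod 3, f (mix V x y)) ^ 2
        ≤ 𝔼 _y : ι → ZMod 3, (1 : ℝ) := Finset.expect_le_expect (fun y _ =>
          le_trans (hsq _ (hg1 V y)) (hg1 V y))
      _ = 1 := by simp
  obtain ⟨V, hV, hV2⟩ := cheb_half _ hF c hc hn hW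
  refine ⟨V, ?_⟩
  by_contra hno
  push Not at hno
  have hlt : ∀ y : ι → ZMod 3, 𝔼 x, a (mix V x y) < α + c / 4 := fun y => hno y hV
  -- `g y < c / 4`
  have hgy : ∀ y : ι → ZMod 3, 𝔼 x, f (mix V x y) < c / 4 := by
    intro y
    have h1 : 𝔼 x, f (mix V x y) = 𝔼 x, a (mix V x y) - α := by
      simp only [hf]
      rw [Finset.expect_sub_distrib]
      simp
    rw [h1]; linarith [hlt y]
  have hmean : 𝔼 y : ι → ZMod 3, 𝔼 x : ι → ZMod 3, f (mix V x y) = 0 := by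
    rw [E_comm, E_mix]
    simp only [hf]
    rw [Finset.expect_sub_distrib, hα]
    simp
  have habs : ∀ r : ℝ, |r| = 2 * max r 0 - r := by
    intro r
    rcases le_total 0 r with h | h
    · rw [abs_of_nonneg h, max_eq_left h]; ring
    · rw [abs_of_nonpos h, max_eq_right h]; ring
  have key : c / 2 < c / 2 := by
    calc c / 2 ≤ 𝔼 y : ι → ZMod 3, (𝔼 x : ι → ZMod 3, f (mix V x y)) ^ 2 := hV2
      _ ≤ 𝔼 y : ι → ZMod 3, |𝔼 x : ι → ZMod 3, f (mix V x y)| :=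
          Finset.expect_le_expect (fun y _ => hsq _ (hg1 V y))
      _ = 𝔼 y : ι → ZMod 3, (2 * max (𝔼 x : ι → ZMod 3, f (mix V x y)) 0 -
            𝔼 x : ι → ZMod 3, f (mix V x y)) := by simp only [habs]
      _ = 𝔼 y : ι → ZMod 3, (2 * max (𝔼 x : ι → ZMod 3, f (mix V x y)) 0) := by
          rw [Finset.expect_sub_distrib, hmean, sub_zero]
      _ < 𝔼 _y : ι → ZMod 3, c / 2 := by
          have hlt2 : ∀ y : ι → ZMod 3, 2 * max (𝔼 x : ι → ZMod 3, f (mix V x y)) 0 < c / 2 := by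
            intro y
            have := hgy y
            have h2 : max (𝔼 x : ι → ZMod 3, f (mix V x y)) 0 < c / 4 := max_lt this (by linarith)
            linarith
          exact Finset.expect_lt_expect (fun y _ => (hlt2 y).le) ⟨0, Finset.mem_univ _, hlt2 0⟩
      _ = c / 2 := by simp
  exact lt_irrefl _ key

end H24AP
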