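import Pool.Agent.H24AP.Basic

/-!
# Chebyshev for Bernoulli subsets

Proof: with weights `w V = p^|V| (1-p)^(|U|-|V|)` one has `∑ w = 1` (`Finset.prod_add` or
`Finset.sum_pow_mul_eq_add_pow`), and `∑ w V (|V| - p|U|)^2 = |U| p (1-p)` (Bernstein variance).
-/

namespace H24AP

open Finset
open scoped BigOperators

/-- Variance of the size of a Bernoulli subset. -/
theorem cheb_var {ι : Type} [DecidableEq ι] (U : Finset ι) (p : ℝ) :
    ∑ V ∈ U.powerset, p ^ V.card * (1 - p) ^ (U.card - V.card) *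
      ((U.card : ℝ) * p - V.card) ^ 2 = U.card * p * (1 - p) := by
  have h1 := Finset.sum_powerset_apply_card
    (fun m => p ^ m * (1 - p) ^ (U.card - m) * ((U.card : ℝ) * p - m) ^ 2) (x := U)
  rw [h1]
  have h2 := congrArg (Polynomial.eval p) (bernsteinPolynomial.variance ℝ U.card)
  simp only [Polynomial.eval_finset_sum, Polynomial.eval_mul, Polynomial.eval_pow,
    Polynomial.eval_sub, nsmul_eq_mul, Polynomial.eval_natCast, Polynomial.eval_X,
    Polynomial.eval_one, bernsteinPolynomial] at h2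
  rw [← h2]
  refine Finset.sum_congr rfl fun m _ => ?_
  rw [nsmul_eq_mul]
  ring

theorem cheb {ι : Type} [DecidableEq ι] (U : Finset ι) (hU : U.Nonempty) (p : ℝ) (hp : 0 < p)
    (hp1 : p ≤ 1) :
    ∑ V ∈ U.powerset with ((V.card : ℝ) < p * U.card / 2),
      p ^ V.card * (1 - p) ^ (U.card - V.card) ≤ 4 / (p * U.card) := by
  have hn : (0 : ℝ) < U.card := by exact_mod_cast hU.card_pos
  have hpn : 0 < p * U.card := mul_pos hp hn
  have hw : ∀ V : Finset ι, 0 ≤ p ^ V.card * (1 - p) ^ (U.card - V.card) := fun V =>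
    mul_nonneg (pow_nonneg hp.le _) (pow_nonneg (by linarith) _)
  have h1 : (p * U.card / 2) ^ 2 *
      ∑ V ∈ U.powerset with ((V.card : ℝ) < p * U.card / 2),
        p ^ V.card * (1 - p) ^ (U.card - V.card) ≤ U.card * p * (1 - p) := by
    rw [← cheb_var U p, Finset.mul_sum, Finset.sum_filter]
    refine Finset.sum_le_sum fun V _ => ?_
    split_ifs with h
    · have h2 : (p * U.card / 2) ^ 2 ≤ ((U.card : ℝ) * p - V.card) ^ 2 := by
        apply pow_le_pow_left₀ (by positivity)
        linarith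
      calc (p * U.card / 2) ^ 2 * (p ^ V.card * (1 - p) ^ (U.card - V.card))
          = p ^ V.card * (1 - p) ^ (U.card - V.card) * (p * U.card / 2) ^ 2 := by ring
        _ ≤ _ := mul_le_mul_of_nonneg_left h2 (hw V)
    · exact mul_nonneg (hw V) (sq_nonneg _)
  rw [le_div_iff₀ hpn]
  set Z := ∑ V ∈ U.powerset with ((V.card : ℝ) < p * U.card / 2),
        p ^ V.card * (1 - p) ^ (U.card - V.card) with hZ
  have h3 : (p * U.card) * (Z * (p * U.card)) ≤ (p * U.card) * 4 := by
    have : (U.card : ℝ) * p * (1 - p) ≤ p * U.card := by nlinarith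
    nlinarith
  exact le_of_mul_le_mul_left h3 hpn

/-- Total weight one. -/
theorem cheb_total {ι : Type} [DecidableEq ι] (U : Finset ι) (p : ℝ) :
    ∑ V ∈ U.powerset, p ^ V.card * (1 - p) ^ (U.card - V.card) = 1 := by
  rw [Finset.sum_pow_mul_eq_add_pow]
  simp

/-- Choosing a large set with large value. -/
theorem cheb_pick {ι : Type} [DecidableEq ι] (U : Finset ι) (p : ℝ) (hp : 0 < p)
    (hp1 : p ≤ 1) (F : Finset ι → ℝ) (hF : ∀ V, V ⊆ U → F V ≤ 1) (c : ℝ) (hc : 0 < c)
    (hn : 8 ≤ c * (p * U.card))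
    (h : c ≤ ∑ V ∈ U.powerset, p ^ V.card * (1 - p) ^ (U.card - V.card) * F V) :
    ∃ V, V ⊆ U ∧ p * U.card / 2 ≤ V.card ∧ c / 2 ≤ F V := by
  by_contra hcon
  push Not at hcon
  have hpn : 0 < p * (U.card : ℝ) := by
    by_contra hneg
    have : c * (p * U.card) ≤ 0 := mul_nonpos_of_nonneg_of_nonpos hc.le (not_lt.1 hneg)
    linarith
  have hcard : (0 : ℝ) < U.card := by
    rcases (Nat.cast_nonneg (α := ℝ) U.card).eq_or_lt with h0 | h0
    · rw [← h0, mul_zero] at hpn
      exact absurd hpn (lt_irrefl _)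
    · exact h0
  have hU : U.Nonempty := by
    rw [← Finset.card_pos]
    exact_mod_cast hcard
  have hw : ∀ V : Finset ι, 0 ≤ p ^ V.card * (1 - p) ^ (U.card - V.card) := fun V =>
    mul_nonneg (pow_nonneg hp.le _) (pow_nonneg (by linarith) _)
  have h1 : ∑ V ∈ U.powerset, p ^ V.card * (1 - p) ^ (U.card - V.card) * F V <
      ∑ V ∈ U.powerset, (p ^ V.card * (1 - p) ^ (U.card - V.card) * (c / 2) +
        (if (V.card : ℝ) < p * U.card / 2 then
          p ^ V.card * (1 - p) ^ (U.card - V.card) else 0)) := by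
    apply Finset.sum_lt_sum
    · intro V hV
      rw [Finset.mem_powerset] at hV
      split_ifs with hs
      · have h2 : p ^ V.card * (1 - p) ^ (U.card - V.card) * F V ≤
            p ^ V.card * (1 - p) ^ (U.card - V.card) * 1 :=
          mul_le_mul_of_nonneg_left (hF V hV) (hw V)
        have h3 : 0 ≤ p ^ V.card * (1 - p) ^ (U.card - V.card) * (c / 2) :=
          mul_nonneg (hw V) (by linarith)
        linarith
      · rw [add_zero]
        exact mul_le_mul_of_nonneg_left (hcon V hV (not_lt.1 hs)).le (hw V)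
    · refine ⟨U, Finset.mem_powerset_self U, ?_⟩
      have hs : ¬ ((U.card : ℝ) < p * U.card / 2) := by
        rw [not_lt]
        nlinarith
      rw [if_neg hs, add_zero]
      apply mul_lt_mul_of_pos_left (hcon U (Finset.Subset.refl U) (not_lt.1 hs))
      rw [Nat.sub_self, pow_zero, mul_one]
      exact pow_pos hp _
  rw [Finset.sum_add_distrib, ← Finset.sum_mul, cheb_total, one_mul, ← Finset.sum_filter] at h1
  have h2 := cheb U hU p hp hp1
  have h3 : 4 / (p * U.card) ≤ c / 2 := by
    rw [div_le_iff₀ hpn]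
    linarith
  linarith

/-- The same for uniformly random subsets of the whole index set. -/
theorem cheb_half {ι : Type} [Fintype ι] [DecidableEq ι] (F : Finset ι → ℝ)
    (hF : ∀ V, F V ≤ 1) (c : ℝ) (hc : 0 < c) (hn : 16 ≤ c * Fintype.card ι)
    (h : c ≤ 𝔼 V : Finset ι, F V) :
    ∃ V : Finset ι, (Fintype.card ι : ℝ) ≤ 4 * V.card ∧ c / 2 ≤ F V := by
  have key : 𝔼 V : Finset ι, F V = ∑ V ∈ (univ : Finset ι).powerset,
      (1 / 2 : ℝ) ^ V.card * (1 - 1 / 2) ^ ((univ : Finset ι).card - V.card) * F V := by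
    rw [Fintype.expect_eq_sum_div_card, Finset.powerset_univ, Finset.sum_div]
    refine Finset.sum_congr rfl fun V _ => ?_
    have hle : V.card ≤ (univ : Finset ι).card := Finset.card_le_univ V
    have h1 : (1 / 2 : ℝ) ^ V.card * (1 - 1 / 2) ^ ((univ : Finset ι).card - V.card) =
        (1 / 2) ^ (univ : Finset ι).card := by
      norm_num
      rw [← pow_add]
      congr 1
      exact Nat.add_sub_of_le hle
    rw [h1, Fintype.card_finset, Finset.card_univ]
    push_cast
    rw [div_pow, one_pow, div_mul_eq_mul_div, one_mul]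
  rw [key] at h
  obtain ⟨V, -, h2, h3⟩ := cheb_pick (univ : Finset ι) (1 / 2) (by norm_num) (by norm_num) F
    (fun V _ => hF V) c hc (by rw [Finset.card_univ]; linarith) h
  refine ⟨V, ?_, h3⟩
  rw [Finset.card_univ] at h2
  linarith

end H24AP
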