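import Mathlib

/-!
# Definitions for the bound on sets free of restricted progressions in powers of `ZMod 3`

`Σ` is `ZMod 3`, `ι`, `κ`, `μ` are finite index types (sites) in `Type`.  All averages are `𝔼`.
-/

namespace H24AP

open Finset
open scoped BigOperators ComplexConjugate

/-- The indicator vector of a finite set of sites. -/
def ind {ι : Type} [DecidableEq ι] (D : Finset ι) : ι → ZMod 3 := fun i => if i ∈ D then 1 else 0

/-- A zero-one valued function whose support has no `x, x+d, x+2d` with `d` a nonzero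
zero-one vector. -/
structure IsFree {ι : Type} (a : (ι → ZMod 3) → ℝ) : Prop where
  zo : ∀ x, a x = 0 ∨ a x = 1
  fr : ∀ x d : ι → ZMod 3, (∀ i, d i = 0 ∨ d i = 1) → d ≠ 0 →
    a x * a (x + d) * a (x + d + d) = 0

/-- Cube embeddings: `t ↦ (y i + t (blk i))`. -/
structure DEmb (κ ι : Type) where
  y : ι → ZMod 3
  blk : ι → Option κ
  surj : ∀ j, ∃ i, blk i = some j

/-- The map of a cube embedding. -/
def DEmb.app {κ ι : Type} (e : DEmb κ ι) (t : κ → ZMod 3) : ι → ZMod 3 :=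
  fun i => e.y i + (e.blk i).elim 0 t

/-- Mixture: `x` on `U` and `y` off `U`. -/
def mix {ι α : Type} [DecidableEq ι] (U : Finset ι) (x y : ι → α) : ι → α :=
  fun i => if i ∈ U then x i else y i

/-- The trilinear form. -/
noncomputable def Lam {ι : Type} [Fintype ι] [DecidableEq ι] (f g h : (ι → ZMod 3) → ℝ) : ℝ :=
  𝔼 x, 𝔼 D : Finset ι, f x * g (x + ind D) * h (x + ind D + ind D)

/-- `W f = E_V E_y (E_x f(mix V x y))^2`. -/
noncomputable def W {ι : Type} [Fintype ι] [DecidableEq ι] (f : (ι → ZMod 3) → ℝ) : ℝ :=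
  𝔼 V : Finset ι, 𝔼 y : ι → ZMod 3, (𝔼 x : ι → ZMod 3, f (mix V x y)) ^ 2

/-- Fourth power of the box norm for the partition `(V, complement)`. -/
noncomputable def Box {ι : Type} [Fintype ι] [DecidableEq ι] (V : Finset ι)
    (f : (ι → ZMod 3) → ℝ) : ℝ :=
  𝔼 v : ι → ZMod 3, 𝔼 v' : ι → ZMod 3,
    (𝔼 p : ι → ZMod 3, f (mix V v p) * f (mix V v' p)) ^ 2

/-- The product test. -/
noncomputable def PT {ι : Type} [Fintype ι] [DecidableEq ι] (h : (ι → ZMod 3) → ℝ) : ℝ :=
  𝔼 V : Finset ι, Box V h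

/-- The tensor power of site matrices. -/
def ten {ι X Y R : Type} [Fintype ι] [CommSemiring R] (A : ι → Matrix X Y R) :
    Matrix (ι → X) (ι → Y) R :=
  fun x y => ∏ i, A i (x i) (y i)

/-- Permuting the three copies at the sites of `U`. -/
def pm {κ : Type} [DecidableEq κ] (U : Finset κ) (σ : κ → Equiv.Perm (Fin 3))
    (x : Fin 3 → κ → ZMod 3) : Fin 3 → κ → ZMod 3 :=
  fun c i => if i ∈ U then x (σ i c) i else x c i

/-- Symmetrization of `a ⊗ b ⊗ h` over the three copies at the sites of `U`. -/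
noncomputable def TT {κ : Type} [Fintype κ] [DecidableEq κ] (U : Finset κ)
    (h a b : (κ → ZMod 3) → ℂ) (x : Fin 3 → κ → ZMod 3) : ℂ :=
  𝔼 σ : κ → Equiv.Perm (Fin 3),
    a (pm U σ x 0) * b (pm U σ x 1) * h (pm U σ x 2)

/-- Squared norm of `TT`. -/
noncomputable def Gam {κ : Type} [Fintype κ] [DecidableEq κ] (U : Finset κ)
    (h a b : (κ → ZMod 3) → ℂ) : ℝ :=
  𝔼 x : Fin 3 → κ → ZMod 3, ‖TT U h a b x‖ ^ 2

/-- Squared normalized `L²` norm. -/
noncomputable def N2 {κ : Type} [Fintype κ] [DecidableEq κ] (φ : (κ → ZMod 3) → ℂ) : ℝ :=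
  𝔼 x, ‖φ x‖ ^ 2

/-- `φ` depends only on the coordinates in `U`. -/
def Dep {κ α : Type} (U : Finset κ) (φ : (κ → ZMod 3) → α) : Prop :=
  ∀ x y, (∀ i ∈ U, x i = y i) → φ x = φ y

/-- The maximum of `Gam U h φ φ` over the unit ball of functions depending only on `U`. -/
noncomputable def gam {κ : Type} [Fintype κ] [DecidableEq κ] (U : Finset κ)
    (h : (κ → ZMod 3) → ℂ) : ℝ :=
  sSup {r : ℝ | ∃ φ : (κ → ZMod 3) → ℂ, Dep U φ ∧ N2 φ ≤ 1 ∧ r = Gam U h φ φ}

/-- Purity of the reduced matrix of `φ` at the site `i`. -/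
noncomputable def Rr {κ : Type} [Fintype κ] [DecidableEq κ] (i : κ)
    (φ : (κ → ZMod 3) → ℂ) : ℝ :=
  𝔼 s : ZMod 3, 𝔼 t : ZMod 3,
    ‖𝔼 x : κ → ZMod 3, conj (φ (Function.update x i s)) * φ (Function.update x i t)‖ ^ 2

/-- Product function on the sites of `U`. -/
noncomputable def prodf {κ : Type} (U : Finset κ) (u : κ → ZMod 3 → ℂ)
    (x : κ → ZMod 3) : ℂ :=
  ∏ i ∈ U, u i (x i)

/-- Squared correlation of `h` with a product function on the sites of `V`. -/
noncomputable def Corr {κ : Type} [Fintype κ] [DecidableEq κ] (V : Finset κ)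
    (u : κ → ZMod 3 → ℂ) (h : (κ → ZMod 3) → ℂ) : ℝ :=
  𝔼 y : κ → ZMod 3, ‖𝔼 x : κ → ZMod 3, h (mix V x y) * conj (prodf V u x)‖ ^ 2

end H24AP
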