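import Pool.Agent.H24AP.Lam2

/-!
# Expanding the trilinear form of a free set

`Lam a a a = α / 2^n` (only `D = ∅` contributes).  With `a = α + f`, `𝔼 f = 0`:
`Lam a a a = α^3 + 3 α M + Lam f f f`, `M = 𝔼 f x f (x + ind D)`
(the three bilinear terms agree by shifting `x`, since `3 ind D = 0`); `|M| ≤ W f` by `lam2`.
-/

namespace H24AP

open Finset
open scoped BigOperators

section expandaux

variable {ι : Type} [Fintype ι] [DecidableEq ι]

theorem ind_zero_or_one (D : Finset ι) (i : ι) : ind D i = 0 ∨ ind D i = 1 := by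
  by_cases h : i ∈ D <;> simp [ind, h]

theorem ind_ne_zero {D : Finset ι} (h : D ≠ ∅) : ind D ≠ 0 := by
  obtain ⟨i, hi⟩ := Finset.nonempty_iff_ne_empty.2 h
  intro h0
  have := congrFun h0 i
  simp [ind, hi] at this

theorem Lam_free (a : (ι → ZMod 3) → ℝ) (ha : IsFree a) (α : ℝ) (hα : 𝔼 x, a x = α) :
    Lam a a a = α / 2 ^ Fintype.card ι := by
  have h1 : ∀ x : ι → ZMod 3, 𝔼 D : Finset ι, a x * a (x + ind D) * a (x + ind D + ind D) =
      a x / 2 ^ Fintype.card ι := by
    intro x
    rw [Fintype.expect_eq_sum_div_card, Fintype.card_finset]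
    push_cast
    congr 1
    rw [Finset.sum_eq_single (∅ : Finset ι)]
    · have : ind (∅ : Finset ι) = 0 := by funext i; simp [ind]
      rw [this]
      simp only [add_zero]
      rcases ha.zo x with h | h <;> rw [h] <;> norm_num
    · intro D _ hD
      exact ha.fr x (ind D) (ind_zero_or_one D) (ind_ne_zero hD)
    · intro h; exact absurd (Finset.mem_univ _) h
  unfold Lam
  simp only [h1]
  rw [← Finset.expect_div, hα]

theorem three_ind (D : Finset ι) (x : ι → ZMod 3) : x + ind D + ind D + ind D = x := by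
  have h3 : ∀ t : ZMod 3, t + t + t = 0 := by decide
  funext i
  have := h3 (ind D i)
  simp only [Pi.add_apply]
  calc x i + ind D i + ind D i + ind D i = x i + (ind D i + ind D i + ind D i) := by ring
    _ = x i := by rw [this, add_zero]

end expandaux

theorem expand {ι : Type} [Fintype ι] [DecidableEq ι] (a : (ι → ZMod 3) → ℝ) (ha : IsFree a)
    (α : ℝ) (hα : 𝔼 x, a x = α) :
    α ^ 3 - α / 2 ^ Fintype.card ι ≤
      3 * α * W (fun x => a x - α) +
        |Lam (fun x => a x - α) (fun x => a x - α) (fun x => a x - α)| := by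
  set f : (ι → ZMod 3) → ℝ := fun x => a x - α with hf
  have hf0 : 𝔼 x, f x = 0 := by
    rw [hf]
    simp only [Finset.expect_sub_distrib, Fintype.expect_const, hα, sub_self]
  have haf : ∀ x, a x = α + f x := by intro x; rw [hf]; ring
  have hα0 : 0 ≤ α := by
    rw [← hα]
    apply Finset.expect_nonneg
    intro x _
    rcases ha.zo x with h | h <;> rw [h] <;> norm_num
  set M : ℝ := 𝔼 x : ι → ZMod 3, 𝔼 D : Finset ι, f x * f (x + ind D) with hM
  -- the averages of single factors
  have e1 : ∀ D : Finset ι, 𝔼 x : ι → ZMod 3, f (x + ind D) = 0 := fun D => by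
    rw [E_shift]; exact hf0
  have e2 : ∀ D : Finset ι, 𝔼 x : ι → ZMod 3, f (x + ind D + ind D) = 0 := fun D => by
    rw [E_shift (ind D) (fun x => f (x + ind D))]; exact e1 D
  have m0 : M = 𝔼 D : Finset ι, 𝔼 x : ι → ZMod 3, f x * f (x + ind D) := by
    rw [hM, E_comm]
  have m2 : ∀ D : Finset ι, 𝔼 x : ι → ZMod 3, f (x + ind D) * f (x + ind D + ind D) =
      𝔼 x : ι → ZMod 3, f x * f (x + ind D) := fun D =>
    E_shift (ind D) (fun x => f x * f (x + ind D))
  have m3 : ∀ D : Finset ι, 𝔼 x : ι → ZMod 3, f x * f (x + ind D + ind D) =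
      𝔼 x : ι → ZMod 3, f x * f (x + ind D) := fun D => by
    rw [← E_shift (ind D) (fun x => f x * f (x + ind D + ind D))]
    apply Finset.expect_congr rfl
    intro x _
    rw [three_ind, mul_comm]
  have key : Lam a a a = α ^ 3 + 3 * α * M + Lam f f f := by
    have h1 : Lam a a a = 𝔼 D : Finset ι, 𝔼 x : ι → ZMod 3,
        a x * a (x + ind D) * a (x + ind D + ind D) := by
      unfold Lam; rw [E_comm]
    have h2 : Lam f f f = 𝔼 D : Finset ι, 𝔼 x : ι → ZMod 3,
        f x * f (x + ind D) * f (x + ind D + ind D) := by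
      unfold Lam; rw [E_comm]
    rw [h1, h2, m0]
    have h3 : ∀ D : Finset ι, 𝔼 x : ι → ZMod 3, a x * a (x + ind D) * a (x + ind D + ind D) =
        α ^ 3 + 3 * α * (𝔼 x : ι → ZMod 3, f x * f (x + ind D)) +
          𝔼 x : ι → ZMod 3, f x * f (x + ind D) * f (x + ind D + ind D) := by
      intro D
      have h4 : ∀ x : ι → ZMod 3, a x * a (x + ind D) * a (x + ind D + ind D) =
          α ^ 3 + α ^ 2 * f x + α ^ 2 * f (x + ind D) + α ^ 2 * f (x + ind D + ind D) +
            α * (f x * f (x + ind D)) + α * (f (x + ind D) * f (x + ind D + ind D)) +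
            α * (f x * f (x + ind D + ind D)) +
            f x * f (x + ind D) * f (x + ind D + ind D) := by
        intro x; rw [haf x, haf (x + ind D), haf (x + ind D + ind D)]; ring
      simp only [h4, Finset.expect_add_distrib, ← Finset.mul_expect, hf0, e1, e2, m2, m3,
        Fintype.expect_const]
      ring
    simp only [h3, Finset.expect_add_distrib, ← Finset.mul_expect, Fintype.expect_const]
  have hfree := Lam_free a ha α hα
  have hl := lam2 f
  rw [← hM] at hl
  rw [key] at hfree
  have h5 : α ^ 3 - α / 2 ^ Fintype.card ι = -(3 * α * M) - Lam f f f := by linarith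
  rw [h5]
  have h6 := abs_le.1 hl
  have h7 : -(3 * α * M) ≤ 3 * α * W f := by
    have : 0 ≤ 3 * α * (W f + M) := mul_nonneg (by positivity) (by linarith)
    nlinarith
  have h8 := neg_abs_le (Lam f f f)
  linarith

end H24AP
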