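import Pool.Agent.H24AP.Sym

/-!
# The maximum `gam`
-/

namespace H24AP

open Finset
open scoped BigOperators ComplexConjugate

variable {κ : Type} [Fintype κ] [DecidableEq κ]

theorem GamMax_N2_continuous : Continuous (fun φ : (κ → ZMod 3) → ℂ => N2 φ) := by
  unfold N2
  simp only [Fintype.expect_eq_sum_div_card]
  fun_prop

theorem GamMax_TT_continuous (U : Finset κ) (h : (κ → ZMod 3) → ℂ)
    (x : Fin 3 → κ → ZMod 3) :
    Continuous (fun φ : (κ → ZMod 3) → ℂ => TT U h φ φ x) := by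
  unfold TT
  simp only [Fintype.expect_eq_sum_div_card]
  fun_prop

theorem GamMax_Gam_continuous (U : Finset κ) (h : (κ → ZMod 3) → ℂ) :
    Continuous (fun φ : (κ → ZMod 3) → ℂ => Gam U h φ φ) := by
  unfold Gam
  simp only [Fintype.expect_eq_sum_div_card]
  have := GamMax_TT_continuous U h
  fun_prop

theorem GamMax_N2_zero : N2 (0 : (κ → ZMod 3) → ℂ) = 0 := by
  simp [N2]

theorem GamMax_N2_nonneg (φ : (κ → ZMod 3) → ℂ) : 0 ≤ N2 φ :=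
  Finset.expect_nonneg (fun x _ => by positivity)

theorem GamMax_norm_sq_le (φ : (κ → ZMod 3) → ℂ) (x : κ → ZMod 3) :
    ‖φ x‖ ^ 2 ≤ (Fintype.card (κ → ZMod 3) : ℝ) * N2 φ := by
  unfold N2
  rw [Fintype.expect_eq_sum_div_card]
  have hc : (0 : ℝ) < Fintype.card (κ → ZMod 3) := by exact_mod_cast Fintype.card_pos
  rw [mul_div_cancel₀ _ hc.ne']
  exact Finset.single_le_sum (f := fun x => ‖φ x‖ ^ 2) (fun _ _ => by positivity) (mem_univ x)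

theorem GamMax_compact (U : Finset κ) :
    IsCompact {φ : (κ → ZMod 3) → ℂ | Dep U φ ∧ N2 φ ≤ 1} := by
  apply Metric.isCompact_of_isClosed_isBounded
  · have h1 : {φ : (κ → ZMod 3) → ℂ | Dep U φ ∧ N2 φ ≤ 1} =
        {φ : (κ → ZMod 3) → ℂ | Dep U φ} ∩ {φ | N2 φ ≤ 1} := rfl
    rw [h1]
    apply IsClosed.inter
    · have h2 : {φ : (κ → ZMod 3) → ℂ | Dep U φ} =
          ⋂ x : κ → ZMod 3, ⋂ y : κ → ZMod 3, ⋂ _ : (∀ i ∈ U, x i = y i),
            {φ : (κ → ZMod 3) → ℂ | φ x = φ y} := by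
        ext φ
        simp [Dep]
      rw [h2]
      refine isClosed_iInter fun x => isClosed_iInter fun y => isClosed_iInter fun _ => ?_
      exact isClosed_eq (continuous_apply x) (continuous_apply y)
    · exact isClosed_le GamMax_N2_continuous continuous_const
  · rw [isBounded_iff_forall_norm_le]
    refine ⟨Real.sqrt (Fintype.card (κ → ZMod 3)), fun φ hφ => ?_⟩
    rw [pi_norm_le_iff_of_nonneg (Real.sqrt_nonneg _)]
    intro x
    apply Real.le_sqrt_of_sq_le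
    calc ‖φ x‖ ^ 2 ≤ (Fintype.card (κ → ZMod 3) : ℝ) * N2 φ := GamMax_norm_sq_le φ x
      _ ≤ (Fintype.card (κ → ZMod 3) : ℝ) * 1 := by
          have := hφ.2
          gcongr
      _ = _ := mul_one _

theorem GamMax_set_eq (U : Finset κ) (h : (κ → ZMod 3) → ℂ) :
    {r : ℝ | ∃ φ : (κ → ZMod 3) → ℂ, Dep U φ ∧ N2 φ ≤ 1 ∧ r = Gam U h φ φ} =
      (fun φ : (κ → ZMod 3) → ℂ => Gam U h φ φ) ''
        {φ : (κ → ZMod 3) → ℂ | Dep U φ ∧ N2 φ ≤ 1} := by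
  ext r
  constructor
  · rintro ⟨φ, h1, h2, h3⟩
    exact ⟨φ, ⟨h1, h2⟩, h3.symm⟩
  · rintro ⟨φ, ⟨h1, h2⟩, h3⟩
    exact ⟨φ, h1, h2, h3.symm⟩

theorem GamMax_bdd (U : Finset κ) (h : (κ → ZMod 3) → ℂ) :
    BddAbove {r : ℝ | ∃ φ : (κ → ZMod 3) → ℂ, Dep U φ ∧ N2 φ ≤ 1 ∧ r = Gam U h φ φ} := by
  rw [GamMax_set_eq]
  exact ((GamMax_compact U).image (GamMax_Gam_continuous U h)).bddAbove

/-- Compactness of `{φ | Dep U φ ∧ N2 φ ≤ 1}` (closed and bounded in a finite dimensional space)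
and continuity of `Gam`. -/
theorem gam_attained (U : Finset κ) (h : (κ → ZMod 3) → ℂ) :
    ∃ φ : (κ → ZMod 3) → ℂ, Dep U φ ∧ N2 φ ≤ 1 ∧ gam U h = Gam U h φ φ := by
  have h1 : gam U h ∈
      {r : ℝ | ∃ φ : (κ → ZMod 3) → ℂ, Dep U φ ∧ N2 φ ≤ 1 ∧ r = Gam U h φ φ} := by
    unfold gam
    rw [GamMax_set_eq]
    apply IsCompact.sSup_mem ((GamMax_compact U).image (GamMax_Gam_continuous U h))
    refine Set.Nonempty.image _ ⟨0, fun x y _ => rfl, ?_⟩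
    rw [GamMax_N2_zero]; norm_num
  exact h1

theorem GamMax_le_gam (U : Finset κ) (h : (κ → ZMod 3) → ℂ) (φ : (κ → ZMod 3) → ℂ)
    (hφ : Dep U φ) (h1 : N2 φ ≤ 1) : Gam U h φ φ ≤ gam U h :=
  le_csSup (GamMax_bdd U h) ⟨φ, hφ, h1, rfl⟩

theorem gam_nonneg (U : Finset κ) (h : (κ → ZMod 3) → ℂ) : 0 ≤ gam U h := by
  obtain ⟨φ, _, _, h3⟩ := gam_attained U h
  rw [h3]
  exact Gam_nonneg U h φ φ

theorem GamMax_Gam_smul (U : Finset κ) (h : (κ → ZMod 3) → ℂ) (φ : (κ → ZMod 3) → ℂ) (c : ℝ) :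
    Gam U h (((c : ℂ)) • φ) ((c : ℂ) • φ) = (c ^ 2) ^ 2 * Gam U h φ φ := by
  unfold Gam
  rw [Finset.mul_expect]
  apply Finset.expect_congr rfl
  intro x _
  rw [TT_smul_left, TT_smul_right, norm_mul, norm_mul, Complex.norm_real]
  have : ‖c‖ ^ 2 = c ^ 2 := by simp
  calc (‖c‖ * (‖c‖ * ‖TT U h φ φ x‖)) ^ 2 = (‖c‖ ^ 2) ^ 2 * ‖TT U h φ φ x‖ ^ 2 := by ring
    _ = _ := by rw [this]

theorem GamMax_N2_smul (φ : (κ → ZMod 3) → ℂ) (c : ℝ) :
    N2 ((c : ℂ) • φ) = c ^ 2 * N2 φ := by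
  unfold N2
  rw [Finset.mul_expect]
  apply Finset.expect_congr rfl
  intro x _
  simp only [Pi.smul_apply, smul_eq_mul, norm_mul, Complex.norm_real]
  have : ‖c‖ ^ 2 = c ^ 2 := by simp
  rw [mul_pow, this]

/-- Homogeneity. -/
theorem gam_bound (U : Finset κ) (h : (κ → ZMod 3) → ℂ) (φ : (κ → ZMod 3) → ℂ)
    (hφ : Dep U φ) : Gam U h φ φ ≤ gam U h * (N2 φ) ^ 2 := by
  rcases (GamMax_N2_nonneg φ).eq_or_lt with h0 | h0
  · have h1 : Gam U h φ φ ≤ N2 φ * N2 φ * N2 h := Gam_le U h φ φ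
    rw [← h0] at h1 ⊢
    simpa using h1
  · set c : ℝ := (Real.sqrt (N2 φ))⁻¹ with hc
    have hc2 : c ^ 2 = (N2 φ)⁻¹ := by
      rw [hc, inv_pow, Real.sq_sqrt h0.le]
    have h2 : N2 ((c : ℂ) • φ) ≤ 1 := by
      rw [GamMax_N2_smul, hc2, inv_mul_cancel₀ h0.ne']
    have h3 : Dep U ((c : ℂ) • φ) := by
      intro x y hxy
      simp only [Pi.smul_apply]
      rw [hφ x y hxy]
    have h4 := GamMax_le_gam U h _ h3 h2
    rw [GamMax_Gam_smul, hc2] at h4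
    have h5 : Gam U h φ φ = ((N2 φ)⁻¹ ^ 2 * Gam U h φ φ) * (N2 φ) ^ 2 := by
      field_simp
    rw [h5]
    exact mul_le_mul_of_nonneg_right h4 (by positivity)

theorem gam_le_one (U : Finset κ) (h : (κ → ZMod 3) → ℂ) (hh : N2 h ≤ 1) : gam U h ≤ 1 := by
  obtain ⟨φ, h1, h2, h3⟩ := gam_attained U h
  rw [h3]
  calc Gam U h φ φ ≤ N2 φ * N2 φ * N2 h := Gam_le U h φ φ
    _ ≤ 1 * 1 * 1 := by
        have := GamMax_N2_nonneg φ
        have := GamMax_N2_nonneg h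
        gcongr
    _ = 1 := by norm_num

end H24AP
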