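import Mathlib

/-!
# Greedy removal of sites

Strong induction on `U₀.card`: the potential `(|U| + 1) * g U ^ 64` does not decrease.  If the sum for `U₀` is at most `1/64` take `U = U₀`.  Otherwise some
`i` has `(g (U₀.erase i) - g U₀) / g (U₀.erase i) ≥ 1 / (64 m)`, `m = U₀.card`, i.e.
`g U₀ ≤ g (U₀.erase i) * (1 - 1/(64 m))`, so
`(m + 1) * g U₀ ^ 64 ≤ m * g (U₀.erase i) ^ 64` because `(1 - 1/(64 m))^64 ≤ exp (-1/m) ≤ m/(m+1)`.
-/

namespace H24AP

open Finset
open scoped BigOperators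

theorem greedy_pow_le {m : ℝ} (hm : 1 ≤ m) :
    (1 - 1 / (64 * m)) ^ 64 ≤ m / (m + 1) := by
  have hm0 : 0 < m := by linarith
  have h1 : 1 - 1 / (64 * m) ≤ Real.exp (-(1 / (64 * m))) := by
    have := Real.add_one_le_exp (-(1 / (64 * m)))
    linarith
  have h0 : 0 ≤ 1 - 1 / (64 * m) := by
    have : 1 / (64 * m) ≤ 1 := by
      rw [div_le_one (by positivity)]
      linarith
    linarith
  have h2 : (1 - 1 / (64 * m)) ^ 64 ≤ Real.exp (-(1 / m)) := by
    calc (1 - 1 / (64 * m)) ^ 64 ≤ Real.exp (-(1 / (64 * m))) ^ 64 :=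
          pow_le_pow_left₀ h0 h1 64
      _ = Real.exp (-(1 / m)) := by
          rw [← Real.exp_nat_mul]
          congr 1
          push_cast
          field_simp
  refine h2.trans ?_
  rw [Real.exp_neg]
  have h3 : 1 + 1 / m ≤ Real.exp (1 / m) := by
    have := Real.add_one_le_exp (1 / m)
    linarith
  have h4 : (m + 1) / m ≤ Real.exp (1 / m) := by
    have : (m + 1) / m = 1 + 1 / m := by field_simp
    rw [this]; exact h3
  calc (Real.exp (1 / m))⁻¹ ≤ ((m + 1) / m)⁻¹ := inv_anti₀ (by positivity) h4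
    _ = m / (m + 1) := by rw [inv_div]

theorem greedy {κ : Type} [DecidableEq κ] (g : Finset κ → ℝ) (hpos : ∀ U, 0 ≤ g U)
    (hanti : ∀ U V, V ⊆ U → g U ≤ g V) (U₀ : Finset κ) (h0 : 0 < g U₀) :
    ∃ U, U ⊆ U₀ ∧ ∑ i ∈ U, (g (U.erase i) - g U) / g (U.erase i) ≤ 1 / 64 ∧
      ((U₀.card : ℝ) + 1) * g U₀ ^ 64 ≤ ((U.card : ℝ) + 1) * g U ^ 64 := by
  induction hn : U₀.card using Nat.strong_induction_on generalizing U₀ with
  | _ n ih =>
    by_cases hs : ∑ i ∈ U₀, (g (U₀.erase i) - g U₀) / g (U₀.erase i) ≤ 1 / 64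
    · exact ⟨U₀, Finset.Subset.refl _, hs, by rw [hn]⟩
    · push Not at hs
      have hne : U₀.Nonempty := by
        by_contra hcon
        rw [Finset.not_nonempty_iff_eq_empty] at hcon
        rw [hcon, Finset.sum_empty] at hs
        norm_num at hs
      have hcard : 1 ≤ U₀.card := Finset.card_pos.2 hne
      have hm : (1 : ℝ) ≤ U₀.card := by exact_mod_cast hcard
      have hm0 : (0 : ℝ) < U₀.card := by linarith
      obtain ⟨i, hi, hi2⟩ : ∃ i ∈ U₀, 1 / (64 * (U₀.card : ℝ)) ≤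
          (g (U₀.erase i) - g U₀) / g (U₀.erase i) := by
        by_contra hcon
        push Not at hcon
        have h1 : ∑ i ∈ U₀, (g (U₀.erase i) - g U₀) / g (U₀.erase i) ≤
            ∑ _i ∈ U₀, 1 / (64 * (U₀.card : ℝ)) :=
          Finset.sum_le_sum fun i hi => (hcon i hi).le
        rw [Finset.sum_const, nsmul_eq_mul] at h1
        have h2 : (U₀.card : ℝ) * (1 / (64 * (U₀.card : ℝ))) = 1 / 64 := by
          field_simp
        linarith
      have hg' : g U₀ ≤ g (U₀.erase i) := hanti _ _ (Finset.erase_subset _ _)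
      have hg'0 : 0 < g (U₀.erase i) := lt_of_lt_of_le h0 hg'
      have hc : (U₀.erase i).card = U₀.card - 1 := Finset.card_erase_of_mem hi
      have hc' : (((U₀.erase i).card : ℕ) : ℝ) + 1 = U₀.card := by
        have : (U₀.erase i).card + 1 = U₀.card := by omega
        exact_mod_cast this
      obtain ⟨U, hU, hU2, hU3⟩ := ih (U₀.erase i).card (by omega) (U₀.erase i) hg'0 rfl
      refine ⟨U, hU.trans (Finset.erase_subset _ _), hU2, le_trans ?_ hU3⟩
      rw [hc', ← hn]
      rw [div_le_div_iff₀ (by positivity) hg'0] at hi2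
      have hle : g U₀ ≤ g (U₀.erase i) * (1 - 1 / (64 * (U₀.card : ℝ))) := by
        have h3 : g (U₀.erase i) / (64 * (U₀.card : ℝ)) ≤ g (U₀.erase i) - g U₀ := by
          rw [div_le_iff₀ (by positivity)]
          linarith
        have h4 : g (U₀.erase i) * (1 - 1 / (64 * (U₀.card : ℝ))) =
            g (U₀.erase i) - g (U₀.erase i) / (64 * (U₀.card : ℝ)) := by ring
        rw [h4]; linarith
      have hpow : g U₀ ^ 64 ≤ g (U₀.erase i) ^ 64 * ((U₀.card : ℝ) / (U₀.card + 1)) := by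
        calc g U₀ ^ 64 ≤ (g (U₀.erase i) * (1 - 1 / (64 * (U₀.card : ℝ)))) ^ 64 :=
              pow_le_pow_left₀ h0.le hle 64
          _ = g (U₀.erase i) ^ 64 * (1 - 1 / (64 * (U₀.card : ℝ))) ^ 64 := by rw [mul_pow]
          _ ≤ _ := mul_le_mul_of_nonneg_left (greedy_pow_le hm) (by positivity)
      calc ((U₀.card : ℝ) + 1) * g U₀ ^ 64
          ≤ ((U₀.card : ℝ) + 1) * (g (U₀.erase i) ^ 64 * ((U₀.card : ℝ) / (U₀.card + 1))) :=
            mul_le_mul_of_nonneg_left hpow (by positivity)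
        _ = (U₀.card : ℝ) * g (U₀.erase i) ^ 64 := by
            field_simp

end H24AP
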