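import Pool.Agent.H24AP.Basic

/-!
# Functions whose one-site reductions are almost pure are almost products

For a unit vector `v` (`𝔼 s, ‖v s‖^2 = 1`) let `(Q_i^v φ) x = v (x i) * 𝔼 s, conj (v s) *
φ (update x i s)`, an orthogonal projection.  For each `i` there is a unit vector `u i` with
`N2 (Q_i φ) * N2 φ ≥ Rr i φ`: indeed `Rr i φ = 𝔼 x, q (s ↦ φ (update x i s))` for the quadratic
form `q v = 𝔼 s t, conj (v s) * conj (G s t) * v t`, and `𝔼 x, ‖φ (update x i ·)‖^2 = N2 φ`, so take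
the normalised vector of a good `x`.  Hence `N2 (φ - Q_i φ) = N2 φ - N2 (Q_i φ) ≤ 1 - Rr i φ`.
The projections commute, so `N2 (φ - ∏_{i ∈ U} Q_i φ) ≤ ∑_{i ∈ U} N2 (φ - Q_i φ)` (induction),
and `∏_{i ∈ U} Q_i φ = c • prodf U u` because `φ` depends only on `U`.
-/

namespace H24AP

open Finset
open scoped BigOperators ComplexConjugate

variable {κ : Type} [Fintype κ] [DecidableEq κ]

/-- The projection at one site. -/
noncomputable def Qs (i : κ) (v : ZMod 3 → ℂ) (φ : (κ → ZMod 3) → ℂ) : (κ → ZMod 3) → ℂ :=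
  fun x => v (x i) * 𝔼 s : ZMod 3, conj (v s) * φ (Function.update x i s)

theorem NP_E3 {K : Type} [Semifield K] [CharZero K] (f : ZMod 3 → K) :
    𝔼 s, f s = (f 0 + f 1 + f 2) / 3 := by
  rw [Fintype.expect_eq_sum_div_card]
  have h1 : ∑ s : ZMod 3, f s = f 0 + f 1 + f 2 := Fin.sum_univ_three f
  rw [h1]
  simp

/-- inner product at one site -/
noncomputable def NPip (v w : ZMod 3 → ℂ) : ℂ := 𝔼 s, conj (v s) * w s

theorem NP_fib (v a : ZMod 3 → ℂ) (z : ℂ) (hv : (𝔼 s, ‖v s‖ ^ 2) = 1) :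
    (𝔼 s, ‖a s - v s * z‖ ^ 2) = (𝔼 s, ‖a s‖ ^ 2) - ‖NPip v a‖ ^ 2 + ‖NPip v a - z‖ ^ 2 := by
  unfold NPip
  rw [NP_E3] at hv
  rw [NP_E3, NP_E3, NP_E3]
  simp only [Complex.sq_norm, Complex.normSq_apply] at hv ⊢
  simp only [Complex.sub_re, Complex.sub_im, Complex.mul_re, Complex.mul_im, Complex.add_re,
    Complex.add_im, Complex.conj_re, Complex.conj_im, Complex.div_ofNat_re,
    Complex.div_ofNat_im] at hv ⊢
  linear_combination (z.re ^ 2 + z.im ^ 2) * hv

theorem NP_cs (v a : ZMod 3 → ℂ) (hv : (𝔼 s, ‖v s‖ ^ 2) = 1) :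
    ‖NPip v a‖ ^ 2 ≤ 𝔼 s, ‖a s‖ ^ 2 := by
  have h1 := NP_fib v a (NPip v a) hv
  rw [sub_self, norm_zero] at h1
  have h2 : 0 ≤ 𝔼 s, ‖a s - v s * NPip v a‖ ^ 2 := expect_nonneg fun s _ => by positivity
  rw [h1] at h2
  linarith

theorem NP_ip_sub (v a b : ZMod 3 → ℂ) : NPip v a - NPip v b = NPip v (fun s => a s - b s) := by
  unfold NPip
  rw [← expect_sub_distrib]
  exact expect_congr rfl fun s _ => by ring

theorem NP_N2 (i : κ) (φ : (κ → ZMod 3) → ℂ) :
    N2 φ = 𝔼 x : κ → ZMod 3, 𝔼 s : ZMod 3, ‖φ (Function.update x i s)‖ ^ 2 := by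
  unfold N2
  rw [← E_update i, E_comm]

theorem NP_Qs (i : κ) (v : ZMod 3 → ℂ) (φ : (κ → ZMod 3) → ℂ) (x : κ → ZMod 3) (s : ZMod 3) :
    Qs i v φ (Function.update x i s) =
      v s * NPip v (fun t => φ (Function.update x i t)) := by
  unfold Qs NPip
  simp

theorem NP_dist (i : κ) (v : ZMod 3 → ℂ) (hv : (𝔼 s, ‖v s‖ ^ 2) = 1)
    (φ ψ : (κ → ZMod 3) → ℂ) :
    N2 (φ - Qs i v ψ) = N2 φ - (𝔼 x, ‖NPip v (fun t => φ (Function.update x i t))‖ ^ 2) +
      𝔼 x, ‖NPip v (fun t => φ (Function.update x i t) - ψ (Function.update x i t))‖ ^ 2 := by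
  rw [NP_N2 i (φ - Qs i v ψ), NP_N2 i φ, ← expect_sub_distrib, ← expect_add_distrib]
  refine expect_congr rfl fun x _ => ?_
  rw [← NP_ip_sub, ← NP_fib v _ _ hv]
  refine expect_congr rfl fun s _ => ?_
  rw [Pi.sub_apply, NP_Qs]

theorem NP_sq (w : ℂ) : ((‖w‖ ^ 2 : ℝ) : ℂ) = w * conj w := by
  rw [Complex.mul_conj, Complex.sq_norm]

theorem NP_swap {X S : Type} [Fintype X] [Fintype S] (Φ : X → S → ℂ) :
    (𝔼 y, 𝔼 x, ‖𝔼 s, conj (Φ y s) * Φ x s‖ ^ 2) =
      𝔼 s, 𝔼 t, ‖𝔼 x, conj (Φ x s) * Φ x t‖ ^ 2 := by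
  have hc : ∀ {T : Type} [Fintype T] (f : T → ℝ), ((𝔼 i, f i : ℝ) : ℂ) = 𝔼 i, (f i : ℂ) :=
    fun f => RCLike.ofReal_expect (K := ℂ) univ f
  have hconj : ∀ {T : Type} [Fintype T] (f : T → ℂ), conj (𝔼 i, f i) = 𝔼 i, conj (f i) := by
    intro T _ f
    rw [Fintype.expect_eq_sum_div_card, Fintype.expect_eq_sum_div_card, map_div₀, map_sum]
    simp
  apply Complex.ofReal_injective
  rw [hc, hc]
  simp only [hc, NP_sq, hconj, Fintype.expect_mul_expect, map_mul, Complex.conj_conj]
  have e1 : ∀ F : X → X → S → S → ℂ, (𝔼 y, 𝔼 x, 𝔼 s, 𝔼 t, F y x s t) =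
      𝔼 s, 𝔼 t, 𝔼 y, 𝔼 x, F y x s t := by
    intro F
    calc (𝔼 y, 𝔼 x, 𝔼 s, 𝔼 t, F y x s t) = 𝔼 y, 𝔼 s, 𝔼 x, 𝔼 t, F y x s t :=
          expect_congr rfl fun y _ => E_comm _
      _ = 𝔼 s, 𝔼 y, 𝔼 x, 𝔼 t, F y x s t := E_comm _
      _ = 𝔼 s, 𝔼 y, 𝔼 t, 𝔼 x, F y x s t :=
          expect_congr rfl fun s _ => expect_congr rfl fun y _ => E_comm _
      _ = 𝔼 s, 𝔼 t, 𝔼 y, 𝔼 x, F y x s t := expect_congr rfl fun s _ => E_comm _
  rw [e1]
  refine expect_congr rfl fun s _ => expect_congr rfl fun t _ => expect_congr rfl fun y _ =>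
    expect_congr rfl fun x _ => ?_
  ring

theorem NP_Rr (i : κ) (φ : (κ → ZMod 3) → ℂ) :
    Rr i φ = 𝔼 y : κ → ZMod 3, 𝔼 x : κ → ZMod 3,
      ‖NPip (fun t => φ (Function.update y i t)) (fun t => φ (Function.update x i t))‖ ^ 2 :=
  (NP_swap (fun (x : κ → ZMod 3) (s : ZMod 3) => φ (Function.update x i s))).symm

/-- The good unit vector at one site. -/
theorem exists_unit (i : κ) (φ : (κ → ZMod 3) → ℂ) (hφ : N2 φ ≤ 1) :
    ∃ v : ZMod 3 → ℂ, (𝔼 s, ‖v s‖ ^ 2) = 1 ∧ N2 (φ - Qs i v φ) ≤ 1 - Rr i φ := by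
  have hR0 : 0 ≤ Rr i φ := by
    unfold Rr
    exact expect_nonneg fun s _ => expect_nonneg fun t _ => by positivity
  have hN0 : 0 ≤ N2 φ := expect_nonneg fun x _ => by positivity
  have hdist : ∀ v : ZMod 3 → ℂ, (𝔼 s, ‖v s‖ ^ 2) = 1 → N2 (φ - Qs i v φ) =
      N2 φ - (𝔼 x, ‖NPip v (fun t => φ (Function.update x i t))‖ ^ 2) := by
    intro v hv
    rw [NP_dist i v hv φ φ]
    simp [NPip]
  rcases hN0.eq_or_lt with hN | hN
  · -- the zero function
    refine ⟨fun _ => 1, by simp, ?_⟩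
    have hφ0 : ∀ x, φ x = 0 := by
      intro x
      have h1 := (Fintype.expect_eq_zero_iff_of_nonneg (f := fun x => ‖φ x‖ ^ 2)
        (fun x => by positivity)).1 hN.symm
      have h2 := congrFun h1 x
      simpa using h2
    have hR : Rr i φ = 0 := by
      unfold Rr
      simp [hφ0]
    rw [hdist _ (by simp), hR, ← hN]
    have : 0 ≤ 𝔼 x : κ → ZMod 3, ‖NPip (fun _ => 1)
      (fun t => φ (Function.update x i t))‖ ^ 2 := expect_nonneg fun x _ => by positivity
    linarith
  · set n : (κ → ZMod 3) → ℝ := fun y => 𝔼 s, ‖φ (Function.update y i s)‖ ^ 2 with hn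
    set A : (κ → ZMod 3) → ℝ := fun y => 𝔼 x : κ → ZMod 3,
      ‖NPip (fun t => φ (Function.update y i t)) (fun t => φ (Function.update x i t))‖ ^ 2
      with hA
    have hEn : (𝔼 y, n y) = N2 φ := (NP_N2 i φ).symm
    have hEA : (𝔼 y, A y) = Rr i φ := (NP_Rr i φ).symm
    have hn0 : ∀ y, 0 ≤ n y := fun y => expect_nonneg fun s _ => by positivity
    have hex : ∃ y, 0 < n y ∧ n y * (Rr i φ / N2 φ) ≤ A y := by
      by_contra hcon
      push Not at hcon
      have hle : ∀ y, A y ≤ n y * (Rr i φ / N2 φ) := by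
        intro y
        rcases (hn0 y).eq_or_lt with h | h
        · have hz : ∀ s, φ (Function.update y i s) = 0 := by
            intro s
            have h1 := (Fintype.expect_eq_zero_iff_of_nonneg
              (f := fun s => ‖φ (Function.update y i s)‖ ^ 2)
              (fun x => by positivity)).1 h.symm
            have h2 := congrFun h1 s
            simpa using h2
          rw [← h, zero_mul, hA]
          simp [hz, NPip]
        · exact (hcon y h).le
      have hex2 : ∃ y, 0 < n y := by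
        by_contra hc
        push Not at hc
        have : (𝔼 y, n y) ≤ 0 := by
          rw [show (0 : ℝ) = 𝔼 _y : κ → ZMod 3, (0 : ℝ) from (by simp)]
          exact expect_le_expect fun y _ => hc y
        linarith
      obtain ⟨y0, hy0⟩ := hex2
      have hlt : (𝔼 y, A y) < 𝔼 y, n y * (Rr i φ / N2 φ) :=
        expect_lt_expect (fun y _ => hle y) ⟨y0, mem_univ _, hcon y0 hy0⟩
      rw [← expect_mul, hEn, hEA] at hlt
      have : N2 φ * (Rr i φ / N2 φ) = Rr i φ := by field_simp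
      linarith
    obtain ⟨y, hy, hyA⟩ := hex
    set r : ℝ := Real.sqrt (n y) with hr
    have hr0 : 0 < r := Real.sqrt_pos.2 hy
    have hr2 : r ^ 2 = n y := Real.sq_sqrt hy.le
    have hrn : ‖((r : ℂ))⁻¹‖ ^ 2 = (n y)⁻¹ := by
      rw [norm_inv, Complex.norm_real, Real.norm_of_nonneg hr0.le, inv_pow, hr2]
    refine ⟨fun s => (r : ℂ)⁻¹ * φ (Function.update y i s), ?_, ?_⟩
    · simp only [norm_mul, mul_pow, hrn]
      rw [← mul_expect]
      exact inv_mul_cancel₀ hy.ne'
    · have hunit : (𝔼 s, ‖(r : ℂ)⁻¹ * φ (Function.update y i s)‖ ^ 2) = 1 := by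
        simp only [norm_mul, mul_pow, hrn]
        rw [← mul_expect]
        exact inv_mul_cancel₀ hy.ne'
      rw [hdist _ hunit]
      have h1 : (𝔼 x, ‖NPip (fun s => (r : ℂ)⁻¹ * φ (Function.update y i s))
          (fun t => φ (Function.update x i t))‖ ^ 2) = (n y)⁻¹ * A y := by
        rw [hA]
        beta_reduce
        rw [mul_expect]
        refine expect_congr rfl fun x _ => ?_
        have h2 : NPip (fun s => (r : ℂ)⁻¹ * φ (Function.update y i s))
            (fun t => φ (Function.update x i t)) =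
            (r : ℂ)⁻¹ * NPip (fun s => φ (Function.update y i s))
            (fun t => φ (Function.update x i t)) := by
          unfold NPip
          rw [mul_expect]
          refine expect_congr rfl fun s _ => ?_
          rw [map_mul, map_inv₀, Complex.conj_ofReal]
          ring
        rw [h2, norm_mul, mul_pow, hrn]
      rw [h1]
      have h3 : Rr i φ / N2 φ ≤ (n y)⁻¹ * A y := by
        rw [inv_mul_eq_div, le_div_iff₀ hy]
        linarith
      have h4 : N2 φ * (Rr i φ / N2 φ) = Rr i φ := by field_simp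
      have h5 : 0 ≤ Rr i φ / N2 φ := div_nonneg hR0 hN.le
      nlinarith

theorem nearProd (U : Finset κ) (φ : (κ → ZMod 3) → ℂ) (hφ : N2 φ ≤ 1) (hd : Dep U φ) :
    ∃ u : κ → ZMod 3 → ℂ, (∀ i, (𝔼 s, ‖u i s‖ ^ 2) = 1) ∧
      ∃ c : ℂ, ‖c‖ ≤ 1 ∧ N2 (φ - c • prodf U u) ≤ ∑ i ∈ U, (1 - Rr i φ) := by
  choose u hu1 hu2 using fun i => exists_unit i φ hφ
  refine ⟨u, hu1, ?_⟩
  have key : ∀ S : Finset κ, S ⊆ U → ∃ g : (κ → ZMod 3) → ℂ, Dep (U \ S) g ∧ N2 g ≤ 1 ∧
      N2 (φ - fun x => prodf S u x * g x) ≤ ∑ i ∈ S, (1 - Rr i φ) := by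
    intro S
    induction S using Finset.induction_on with
    | empty =>
      intro _
      refine ⟨φ, by simpa using hd, hφ, ?_⟩
      have h1 : (φ - fun x => prodf ∅ u x * φ x) = 0 := by
        funext x; simp [prodf]
      rw [h1]
      simp [N2]
    | @insert i S hi ih =>
      intro hS
      obtain ⟨g, hg1, hg2, hg3⟩ := ih ((subset_insert i S).trans hS)
      refine ⟨fun x => NPip (u i) (fun t => g (Function.update x i t)), ?_, ?_, ?_⟩
      · intro x y hxy
        show NPip _ _ = NPip _ _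
        congr 1
        funext t
        apply hg1
        intro j hj
        by_cases hji : j = i
        · subst hji; simp
        · rw [Function.update_of_ne hji, Function.update_of_ne hji]
          apply hxy
          rw [mem_sdiff] at hj ⊢
          refine ⟨hj.1, ?_⟩
          rw [mem_insert, not_or]
          exact ⟨hji, hj.2⟩
      · refine le_trans ?_ hg2
        rw [NP_N2 i g]
        unfold N2
        exact expect_le_expect fun x _ => NP_cs _ _ (hu1 i)
      · rw [sum_insert hi]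
        have h1 : (fun x => prodf (insert i S) u x *
            NPip (u i) (fun t => g (Function.update x i t))) =
            Qs i (u i) (fun x => prodf S u x * g x) := by
          funext x
          unfold Qs NPip prodf
          rw [prod_insert hi, mul_assoc]
          congr 1
          rw [mul_expect]
          refine expect_congr rfl fun s _ => ?_
          have h2 : ∏ j ∈ S, u j (Function.update x i s j) = ∏ j ∈ S, u j (x j) := by
            refine prod_congr rfl fun j hj => ?_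
            have hji : j ≠ i := fun h => hi (h ▸ hj)
            rw [Function.update_of_ne hji]
          beta_reduce
          rw [h2]
          ring
        rw [h1]
        have h3 := NP_dist i (u i) (hu1 i) φ φ
        have h4 := NP_dist i (u i) (hu1 i) φ (fun x => prodf S u x * g x)
        have h5 : (𝔼 x, ‖NPip (u i) (fun t => φ (Function.update x i t) -
            φ (Function.update x i t))‖ ^ 2) = 0 := by
          have : (fun t : ZMod 3 => (0 : ℂ)) = fun t => 0 := rfl
          simp [NPip]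
        have h6 : (𝔼 x, ‖NPip (u i) (fun t => φ (Function.update x i t) -
            (fun x => prodf S u x * g x) (Function.update x i t))‖ ^ 2) ≤
            N2 (φ - fun x => prodf S u x * g x) := by
          rw [NP_N2 i (φ - fun x => prodf S u x * g x)]
          exact expect_le_expect fun x _ => NP_cs _ _ (hu1 i)
        have h7 := hu2 i
        linarith
  obtain ⟨g, hg1, hg2, hg3⟩ := key U (subset_refl U)
  have hgc : ∀ x, g x = g 0 := fun x => hg1 x 0 (by simp)
  refine ⟨g 0, ?_, ?_⟩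
  · have h1 : N2 g = ‖g 0‖ ^ 2 := by
      unfold N2
      rw [expect_congr rfl fun x _ => by rw [hgc x]]
      exact Fintype.expect_const _
    rw [h1] at hg2
    nlinarith [norm_nonneg (g 0)]
  · have h1 : (fun x => prodf U u x * g x) = g 0 • prodf U u := by
      funext x
      rw [Pi.smul_apply, smul_eq_mul, hgc x, mul_comm]
    rw [h1] at hg3
    exact hg3

end H24AP
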