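import Pool.Agent.H24AP.Sym

/-!
# The penalty lemma

Let `V = U.erase i`.  For `w : ZMod 3 → ℂ` put `φ_w x = 𝔼 s, conj (w s) * φ (update x i s)`, a
function of the coordinates in `V`.  The twelve vectors `w`: the nine `(1, ω^a, ω^b)` and the three
`√3 δ_r` satisfy
`∑_w w s * w t * conj (w s') * conj (w t') = 9 ([s=s' ∧ t=t'] + [s=t' ∧ t=s'])`.
For fixed `x` put `c s t = TT V h (φ (update · i s)) (φ (update · i t)) x`, symmetric by `TT_symm`;
`TT V h φ φ x = c (x 0 i) (x 1 i)`.  Hence `∑_w |TT V h φ_w φ_w x|^2 = 2 𝔼 s t, |c s t|^2`, so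
`2 Gam V h φ φ = ∑_w Gam V h φ_w φ_w ≤ g ∑_w (N2 φ_w)^2 = g ((N2 φ)^2 + Rr i φ)`.
-/

namespace H24AP

open Finset
open scoped BigOperators ComplexConjugate

private def dl (r s : ZMod 3) : ZMod 3 := if s = r then 1 else 0

private theorem nine (s t s' t' : ZMod 3) :
    ∑ p : ZMod 3 × ZMod 3,
      (ZMod.stdAddChar (p.1 * dl 1 s + p.2 * dl 2 s) : ℂ) *
        ZMod.stdAddChar (p.1 * dl 1 t + p.2 * dl 2 t) *
        conj (ZMod.stdAddChar (p.1 * dl 1 s' + p.2 * dl 2 s') : ℂ) *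
        conj (ZMod.stdAddChar (p.1 * dl 1 t' + p.2 * dl 2 t') : ℂ) =
      (((if dl 1 s + dl 1 t - dl 1 s' - dl 1 t' = 0 then 3 else 0) *
        (if dl 2 s + dl 2 t - dl 2 s' - dl 2 t' = 0 then 3 else 0) : ℕ) : ℂ) := by
  set m1 := dl 1 s + dl 1 t - dl 1 s' - dl 1 t' with hm1
  set m2 := dl 2 s + dl 2 t - dl 2 s' - dl 2 t' with hm2
  have h1 : ∀ p : ZMod 3 × ZMod 3,
      (ZMod.stdAddChar (p.1 * dl 1 s + p.2 * dl 2 s) : ℂ) *
        ZMod.stdAddChar (p.1 * dl 1 t + p.2 * dl 2 t) *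
        conj (ZMod.stdAddChar (p.1 * dl 1 s' + p.2 * dl 2 s') : ℂ) *
        conj (ZMod.stdAddChar (p.1 * dl 1 t' + p.2 * dl 2 t') : ℂ) =
      ZMod.stdAddChar (p.1 * m1) * ZMod.stdAddChar (p.2 * m2) := by
    intro p
    rw [← AddChar.map_neg_eq_conj, ← AddChar.map_neg_eq_conj, ← AddChar.map_add_eq_mul,
      ← AddChar.map_add_eq_mul, ← AddChar.map_add_eq_mul, ← AddChar.map_add_eq_mul]
    congr 1
    rw [hm1, hm2]
    ring
  rw [Finset.sum_congr rfl fun p _ => h1 p, Fintype.sum_prod_type]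
  have h2 : ∀ m : ZMod 3, ∑ a : ZMod 3, (ZMod.stdAddChar (a * m) : ℂ) =
      ((if m = 0 then 3 else 0 : ℕ) : ℂ) := by
    intro m
    rw [AddChar.sum_mulShift m (ZMod.isPrimitive_stdAddChar 3)]
    simp
  rw [Nat.cast_mul, ← h2 m1, ← h2 m2, Finset.sum_mul_sum]

private theorem three (s t s' t' : ZMod 3) :
    ∑ r : ZMod 3, ((if s = r then (√3 : ℝ) else 0 : ℝ) : ℂ) * ((if t = r then (√3 : ℝ) else 0 : ℝ) : ℂ) *
        conj ((if s' = r then (√3 : ℝ) else 0 : ℝ) : ℂ) *
        conj ((if t' = r then (√3 : ℝ) else 0 : ℝ) : ℂ) =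
      ((∑ r : ZMod 3, if s = r ∧ t = r ∧ s' = r ∧ t' = r then 9 else 0 : ℕ) : ℂ) := by
  rw [Nat.cast_sum]
  refine Finset.sum_congr rfl fun r _ => ?_
  rw [Complex.conj_ofReal, Complex.conj_ofReal, ← Complex.ofReal_mul, ← Complex.ofReal_mul,
    ← Complex.ofReal_mul]
  have h3 : (√3 : ℝ) * √3 = 3 := Real.mul_self_sqrt (by norm_num)
  by_cases h : s = r ∧ t = r ∧ s' = r ∧ t' = r
  · obtain ⟨a, b, c, d⟩ := h
    rw [if_pos a, if_pos b, if_pos c, if_pos d, if_pos ⟨a, b, c, d⟩]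
    have : (√3 : ℝ) * √3 * √3 * √3 = 9 := by
      calc (√3 : ℝ) * √3 * √3 * √3 = (√3 * √3) * (√3 * √3) := by ring
        _ = 9 := by rw [h3]; norm_num
    rw [this]
    push_cast
    rfl
  · rw [if_neg h]
    by_cases a : s = r
    · by_cases b : t = r
      · by_cases c : s' = r
        · have d : ¬ t' = r := fun d => h ⟨a, b, c, d⟩
          rw [if_neg d]
          simp
        · rw [if_neg c]
          simp
      · rw [if_neg b]
        simp
    · rw [if_neg a]
      simp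

private theorem comb : ∀ s t s' t' : ZMod 3,
    (if dl 1 s + dl 1 t - dl 1 s' - dl 1 t' = 0 then 3 else 0) *
        (if dl 2 s + dl 2 t - dl 2 s' - dl 2 t' = 0 then 3 else 0) +
      (∑ r : ZMod 3, if s = r ∧ t = r ∧ s' = r ∧ t' = r then 9 else 0) =
      9 * ((if s = s' ∧ t = t' then 1 else 0) + (if s = t' ∧ t = s' then 1 else 0)) := by
  unfold dl
  decide

/-- A two-design in dimension three. -/
theorem design : ∃ w : Fin 12 → ZMod 3 → ℂ, ∀ s t s' t' : ZMod 3,
    ∑ j, w j s * w j t * conj (w j s') * conj (w j t') =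
      9 * ((if s = s' ∧ t = t' then 1 else 0) + (if s = t' ∧ t = s' then 1 else 0)) := by
  have hc : Fintype.card ((ZMod 3 × ZMod 3) ⊕ ZMod 3) = 12 := by
    simp [ZMod.card]
  let e : Fin 12 ≃ (ZMod 3 × ZMod 3) ⊕ ZMod 3 := (Fintype.equivFinOfCardEq hc).symm
  let v : (ZMod 3 × ZMod 3) ⊕ ZMod 3 → ZMod 3 → ℂ := fun q s =>
    Sum.elim (fun p : ZMod 3 × ZMod 3 => (ZMod.stdAddChar (p.1 * dl 1 s + p.2 * dl 2 s) : ℂ))
      (fun r => ((if s = r then (√3 : ℝ) else 0 : ℝ) : ℂ)) q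
  refine ⟨fun j => v (e j), fun s t s' t' => ?_⟩
  rw [Equiv.sum_comp e (fun q => v q s * v q t * conj (v q s') * conj (v q t')),
    Fintype.sum_sum_type]
  have h1 := nine s t s' t'
  have h2 := three s t s' t'
  have h3 := comb s t s' t'
  change (∑ p : ZMod 3 × ZMod 3,
      (ZMod.stdAddChar (p.1 * dl 1 s + p.2 * dl 2 s) : ℂ) *
        ZMod.stdAddChar (p.1 * dl 1 t + p.2 * dl 2 t) *
        conj (ZMod.stdAddChar (p.1 * dl 1 s' + p.2 * dl 2 s') : ℂ) *
        conj (ZMod.stdAddChar (p.1 * dl 1 t' + p.2 * dl 2 t') : ℂ)) +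
    (∑ r : ZMod 3, ((if s = r then (√3 : ℝ) else 0 : ℝ) : ℂ) *
        ((if t = r then (√3 : ℝ) else 0 : ℝ) : ℂ) *
        conj ((if s' = r then (√3 : ℝ) else 0 : ℝ) : ℂ) *
        conj ((if t' = r then (√3 : ℝ) else 0 : ℝ) : ℂ)) = _
  rw [h1, h2, ← Nat.cast_add, h3]
  push_cast
  rfl


private theorem quad {w : Fin 12 → ZMod 3 → ℂ} (hw : ∀ s t s' t' : ZMod 3,
    ∑ j, w j s * w j t * conj (w j s') * conj (w j t') =
      9 * ((if s = s' ∧ t = t' then 1 else 0) + (if s = t' ∧ t = s' then 1 else 0)))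
    (A : ZMod 3 → ZMod 3 → ZMod 3 → ZMod 3 → ℂ) :
    ∑ j, ∑ s, ∑ t, ∑ s', ∑ t', w j s * w j t * conj (w j s') * conj (w j t') * A s t s' t' =
      9 * ∑ s, ∑ t, (A s t s t + A s t t s) := by
  rw [Finset.sum_comm, Finset.mul_sum]
  refine Finset.sum_congr rfl fun s _ => ?_
  rw [Finset.sum_comm, Finset.mul_sum]
  refine Finset.sum_congr rfl fun t _ => ?_
  rw [Finset.sum_comm]
  have h1 : ∀ s' : ZMod 3, ∑ j, ∑ t', w j s * w j t * conj (w j s') * conj (w j t') * A s t s' t' =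
      ∑ t', 9 * ((if s = s' ∧ t = t' then 1 else 0) + (if s = t' ∧ t = s' then 1 else 0)) *
        A s t s' t' := by
    intro s'
    rw [Finset.sum_comm]
    refine Finset.sum_congr rfl fun t' _ => ?_
    rw [← Finset.sum_mul, hw]
  rw [Finset.sum_congr rfl fun s' _ => h1 s']
  have h2 : ∀ s' t' : ZMod 3, 9 * (((if s = s' ∧ t = t' then 1 else 0) : ℂ) +
      (if s = t' ∧ t = s' then 1 else 0)) * A s t s' t' =
      (if s = s' then (if t = t' then 9 * A s t s' t' else 0) else 0) +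
        (if t = s' then (if s = t' then 9 * A s t s' t' else 0) else 0) := by
    intro s' t'
    have e1 : (if s = s' ∧ t = t' then (1 : ℂ) else 0) =
        (if s = s' then (if t = t' then 1 else 0) else 0) := by
      rw [ite_and]
    have e2 : (if s = t' ∧ t = s' then (1 : ℂ) else 0) =
        (if t = s' then (if s = t' then 1 else 0) else 0) := by
      rw [ite_and]
      split_ifs <;> rfl
    rw [e1, e2, mul_add, add_mul]
    congr 1 <;> split_ifs <;> ring
  rw [Finset.sum_congr rfl fun s' _ => Finset.sum_congr rfl fun t' _ => h2 s' t']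
  have h3 : ∀ s' : ZMod 3, ∑ t', ((if s = s' then (if t = t' then 9 * A s t s' t' else 0) else 0) +
        (if t = s' then (if s = t' then 9 * A s t s' t' else 0) else 0)) =
      (if s = s' then 9 * A s t s' t else 0) + (if t = s' then 9 * A s t s' s else 0) := by
    intro s'
    rw [Finset.sum_add_distrib]
    congr 1
    · by_cases a : s = s'
      · simp [a]
      · simp [a]
    · by_cases a : t = s'
      · simp [a]
      · simp [a]
  rw [Finset.sum_congr rfl fun s' _ => h3 s', Finset.sum_add_distrib, Finset.sum_ite_eq,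
    Finset.sum_ite_eq, if_pos (Finset.mem_univ _), if_pos (Finset.mem_univ _), mul_add]

private theorem E9 (F : ZMod 3 → ZMod 3 → ℂ) : 𝔼 s, 𝔼 t, F s t = (∑ s, ∑ t, F s t) / 9 := by
  simp only [Fintype.expect_eq_sum_div_card, ZMod.card, ← Finset.sum_div]
  rw [div_div]
  norm_num

private theorem prod4 (a b : ZMod 3 → ZMod 3 → ℂ) :
    (∑ s, ∑ t, a s t) * (∑ s, ∑ t, b s t) = ∑ s, ∑ t, ∑ s', ∑ t', a s t * b s' t' := by
  rw [Finset.sum_mul]
  refine Finset.sum_congr rfl fun s _ => ?_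
  rw [Finset.sum_mul]
  refine Finset.sum_congr rfl fun t _ => ?_
  rw [Finset.mul_sum]
  refine Finset.sum_congr rfl fun s' _ => ?_
  rw [Finset.mul_sum]

private theorem D1 {w : Fin 12 → ZMod 3 → ℂ} (hw : ∀ s t s' t' : ZMod 3,
    ∑ j, w j s * w j t * conj (w j s') * conj (w j t') =
      9 * ((if s = s' ∧ t = t' then 1 else 0) + (if s = t' ∧ t = s' then 1 else 0)))
    (c : ZMod 3 → ZMod 3 → ℂ) (hc : ∀ s t, c s t = c t s) :
    ∑ j, ‖𝔼 s, 𝔼 t, conj (w j s) * conj (w j t) * c s t‖ ^ 2 = 2 * 𝔼 s, 𝔼 t, ‖c s t‖ ^ 2 := by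
  have h1 : ∀ j, ((‖𝔼 s, 𝔼 t, conj (w j s) * conj (w j t) * c s t‖ : ℂ)) ^ 2 =
      (∑ s, ∑ t, ∑ s', ∑ t', w j s * w j t * conj (w j s') * conj (w j t') *
        (conj (c s t) * c s' t')) / 81 := by
    intro j
    rw [← Complex.conj_mul', E9, map_div₀, div_mul_div_comm, map_sum]
    simp only [map_sum, map_mul, Complex.conj_conj]
    rw [prod4]
    have h9 : (conj (9 : ℂ)) = 9 := by
      exact Complex.conj_ofNat 9
    rw [h9]
    congr 1
    · refine Finset.sum_congr rfl fun s _ => Finset.sum_congr rfl fun t _ =>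
        Finset.sum_congr rfl fun s' _ => Finset.sum_congr rfl fun t' _ => ?_
      ring
    · norm_num
  have h2 : ((∑ j, ‖𝔼 s, 𝔼 t, conj (w j s) * conj (w j t) * c s t‖ ^ 2 : ℝ) : ℂ) =
      ((2 * 𝔼 s, 𝔼 t, ‖c s t‖ ^ 2 : ℝ) : ℂ) := by
    push_cast
    rw [Finset.sum_congr rfl fun j _ => h1 j, ← Finset.sum_div,
      quad hw (fun s t s' t' => conj (c s t) * c s' t'), E9]
    have h3 : ∑ s, ∑ t, (conj (c s t) * c s t + conj (c s t) * c t s) =
        2 * ∑ s, ∑ t, ((‖c s t‖ : ℂ)) ^ 2 := by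
      rw [Finset.mul_sum]
      refine Finset.sum_congr rfl fun s _ => ?_
      rw [Finset.mul_sum]
      refine Finset.sum_congr rfl fun t _ => ?_
      rw [hc t s, Complex.conj_mul']
      ring
    rw [h3]
    ring
  exact_mod_cast h2

private theorem D2 {w : Fin 12 → ZMod 3 → ℂ} (hw : ∀ s t s' t' : ZMod 3,
    ∑ j, w j s * w j t * conj (w j s') * conj (w j t') =
      9 * ((if s = s' ∧ t = t' then 1 else 0) + (if s = t' ∧ t = s' then 1 else 0)))
    (ρ : ZMod 3 → ZMod 3 → ℂ) :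
    ∑ j, (𝔼 s, 𝔼 t, w j s * conj (w j t) * ρ s t) ^ 2 =
      (𝔼 s, ρ s s) ^ 2 + 𝔼 s, 𝔼 t, ρ s t * ρ t s := by
  have h1 : ∀ j, (𝔼 s, 𝔼 t, w j s * conj (w j t) * ρ s t) ^ 2 =
      (∑ s, ∑ t, ∑ s', ∑ t', w j s * w j t * conj (w j s') * conj (w j t') *
        (ρ s s' * ρ t t')) / 81 := by
    intro j
    rw [E9, div_pow, sq, prod4]
    congr 1
    · refine Finset.sum_congr rfl fun s _ => ?_
      rw [Finset.sum_comm]
      refine Finset.sum_congr rfl fun t _ => Finset.sum_congr rfl fun s' _ =>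
        Finset.sum_congr rfl fun t' _ => ?_
      ring
    · norm_num
  rw [Finset.sum_congr rfl fun j _ => h1 j, ← Finset.sum_div,
    quad hw (fun s t s' t' => ρ s s' * ρ t t'), E9, Fintype.expect_eq_sum_div_card, ZMod.card,
    div_pow, sq (∑ s, ρ s s), Finset.sum_mul_sum]
  simp only [Finset.sum_add_distrib]
  push_cast
  ring


variable {κ : Type} [Fintype κ] [DecidableEq κ]

/-- The partial pairing. -/
private noncomputable def pw (i : κ) (w : ZMod 3 → ℂ) (φ : (κ → ZMod 3) → ℂ) :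
    (κ → ZMod 3) → ℂ :=
  fun x => 𝔼 s, conj (w s) * φ (Function.update x i s)

/-- The restriction. -/
private def rs (i : κ) (s : ZMod 3) (φ : (κ → ZMod 3) → ℂ) : (κ → ZMod 3) → ℂ :=
  fun x => φ (Function.update x i s)

omit [Fintype κ] in
private theorem rs_dep {U : Finset κ} {i : κ} {φ : (κ → ZMod 3) → ℂ} (hφ : Dep U φ)
    (s : ZMod 3) : Dep (U.erase i) (rs i s φ) := by
  intro x y hxy
  apply hφ
  intro j hj
  by_cases hji : j = i
  · subst hji
    simp
  · rw [Function.update_of_ne hji, Function.update_of_ne hji]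
    exact hxy j (Finset.mem_erase.2 ⟨hji, hj⟩)

omit [Fintype κ] in
private theorem pw_dep {U : Finset κ} {i : κ} {φ : (κ → ZMod 3) → ℂ} (hφ : Dep U φ)
    (w : ZMod 3 → ℂ) : Dep (U.erase i) (pw i w φ) := by
  intro x y hxy
  refine Finset.expect_congr rfl fun s _ => ?_
  have := rs_dep hφ s x y hxy
  simp only [rs] at this
  rw [this]

private theorem TT_pw (V : Finset κ) (i : κ) (h : (κ → ZMod 3) → ℂ) (w : ZMod 3 → ℂ)
    (φ : (κ → ZMod 3) → ℂ) (x : Fin 3 → κ → ZMod 3) :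
    TT V h (pw i w φ) (pw i w φ) x =
      𝔼 s, 𝔼 t, conj (w s) * conj (w t) * TT V h (rs i s φ) (rs i t φ) x := by
  unfold TT
  have h1 : ∀ s t : ZMod 3, conj (w s) * conj (w t) *
      (𝔼 σ : κ → Equiv.Perm (Fin 3), rs i s φ (pm V σ x 0) * rs i t φ (pm V σ x 1) *
        h (pm V σ x 2)) = 𝔼 σ : κ → Equiv.Perm (Fin 3), conj (w s) * conj (w t) *
        (rs i s φ (pm V σ x 0) * rs i t φ (pm V σ x 1) * h (pm V σ x 2)) := by
    intro s t
    rw [Finset.mul_expect]
  simp only [h1]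
  have h2 : ∀ s : ZMod 3, 𝔼 t : ZMod 3, 𝔼 σ : κ → Equiv.Perm (Fin 3), conj (w s) * conj (w t) *
        (rs i s φ (pm V σ x 0) * rs i t φ (pm V σ x 1) * h (pm V σ x 2)) =
      𝔼 σ : κ → Equiv.Perm (Fin 3), 𝔼 t : ZMod 3, conj (w s) * conj (w t) *
        (rs i s φ (pm V σ x 0) * rs i t φ (pm V σ x 1) * h (pm V σ x 2)) :=
    fun s => Finset.expect_comm _ _ _
  simp only [h2]
  rw [Finset.expect_comm]
  refine Finset.expect_congr rfl fun σ _ => ?_
  simp only [pw]
  rw [Finset.expect_mul_expect, Finset.expect_mul]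
  refine Finset.expect_congr rfl fun s _ => ?_
  rw [Finset.expect_mul]
  refine Finset.expect_congr rfl fun t _ => ?_
  simp only [rs]
  ring

private theorem TT_diag (U : Finset κ) (i : κ) (h : (κ → ZMod 3) → ℂ)
    (φ : (κ → ZMod 3) → ℂ) (x : Fin 3 → κ → ZMod 3) :
    TT (U.erase i) h φ φ x = TT (U.erase i) h (rs i (x 0 i) φ) (rs i (x 1 i) φ) x := by
  unfold TT
  refine Finset.expect_congr rfl fun σ _ => ?_
  have h1 : ∀ c : Fin 3, rs i (x c i) φ (pm (U.erase i) σ x c) = φ (pm (U.erase i) σ x c) := by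
    intro c
    unfold rs
    congr 1
    have : x c i = pm (U.erase i) σ x c i := by
      simp [pm]
    rw [this, Function.update_eq_self]
  rw [h1 0, h1 1]

private theorem TT_inv (U : Finset κ) (i : κ) (h : (κ → ZMod 3) → ℂ)
    (φ : (κ → ZMod 3) → ℂ) (s t : ZMod 3) (x y : Fin 3 → κ → ZMod 3)
    (hxy : ∀ c : Fin 3, ∀ j : κ, j ≠ i → x c j = y c j) (h2 : x 2 i = y 2 i) :
    TT (U.erase i) h (rs i s φ) (rs i t φ) x = TT (U.erase i) h (rs i s φ) (rs i t φ) y := by
  unfold TT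
  refine Finset.expect_congr rfl fun σ _ => ?_
  have h1 : ∀ (c : Fin 3) (j : κ), j ≠ i →
      pm (U.erase i) σ x c j = pm (U.erase i) σ y c j := by
    intro c j hj
    unfold pm
    by_cases hjU : j ∈ U.erase i
    · rw [if_pos hjU, if_pos hjU]
      exact hxy _ _ hj
    · rw [if_neg hjU, if_neg hjU]
      exact hxy _ _ hj
  have h3 : pm (U.erase i) σ x 2 = pm (U.erase i) σ y 2 := by
    funext j
    by_cases hj : j = i
    · subst hj
      simp [pm, h2]
    · exact h1 2 j hj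
  have h4 : ∀ (c : Fin 3) (r : ZMod 3), Function.update (pm (U.erase i) σ x c) i r =
      Function.update (pm (U.erase i) σ y c) i r := by
    intro c r
    funext j
    by_cases hj : j = i
    · subst hj
      simp
    · rw [Function.update_of_ne hj, Function.update_of_ne hj]
      exact h1 c j hj
  unfold rs
  rw [h3, h4, h4]

private theorem resamp {M : Type} [AddCommMonoid M] [Module ℚ≥0 M] (c : Fin 3) (i : κ)
    (G : (Fin 3 → κ → ZMod 3) → M) :
    𝔼 x, G x = 𝔼 r : ZMod 3, 𝔼 x, G (Function.update x c (Function.update (x c) i r)) := by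
  have h1 : ∀ F : (Fin 3 → κ → ZMod 3) → M, 𝔼 x, F x =
      𝔼 y : Fin 3 × κ → ZMod 3, F (Function.curry y) :=
    fun F => (E_equiv (Equiv.curry (Fin 3) κ (ZMod 3)) F).symm
  rw [h1 G, ← E_update (c, i) (fun y => G (Function.curry y))]
  refine Finset.expect_congr rfl fun r _ => ?_
  rw [h1]
  refine Finset.expect_congr rfl fun y _ => ?_
  congr 1
  funext d j
  by_cases hd : d = c
  · subst hd
    by_cases hj : j = i
    · subst hj
      simp [Function.curry]
    · simp [Function.curry, hj, Function.update_of_ne]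
  · simp [Function.curry, hd, Function.update_of_ne]

private theorem Gam_split (U : Finset κ) (i : κ) (h : (κ → ZMod 3) → ℂ)
    (φ : (κ → ZMod 3) → ℂ) :
    Gam (U.erase i) h φ φ =
      𝔼 x, 𝔼 s, 𝔼 t, ‖TT (U.erase i) h (rs i s φ) (rs i t φ) x‖ ^ 2 := by
  unfold Gam
  simp only [TT_diag U i h φ]
  rw [resamp 0 i]
  have h1 : ∀ r : ZMod 3, (𝔼 x : Fin 3 → κ → ZMod 3,
      ‖TT (U.erase i) h (rs i (Function.update x 0 (Function.update (x 0) i r) 0 i) φ)
        (rs i (Function.update x 0 (Function.update (x 0) i r) 1 i) φ)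
        (Function.update x 0 (Function.update (x 0) i r))‖ ^ 2) =
      𝔼 t : ZMod 3, 𝔼 x : Fin 3 → κ → ZMod 3,
        ‖TT (U.erase i) h (rs i r φ) (rs i t φ) x‖ ^ 2 := by
    intro r
    rw [resamp 1 i]
    refine Finset.expect_congr rfl fun t _ => Finset.expect_congr rfl fun x _ => ?_
    congr 2
    have e1 : Function.update (Function.update x 1 (Function.update (x 1) i t)) 0
        (Function.update (Function.update x 1 (Function.update (x 1) i t) 0) i r) 0 i = r := by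
      simp
    have e2 : Function.update (Function.update x 1 (Function.update (x 1) i t)) 0
        (Function.update (Function.update x 1 (Function.update (x 1) i t) 0) i r) 1 i = t := by
      simp
    rw [e1, e2]
    apply TT_inv
    · intro c j hj
      fin_cases c <;> simp [hj]
    · simp
  rw [Finset.expect_congr rfl fun r _ => h1 r]
  have h2 : ∀ r : ZMod 3, (𝔼 t : ZMod 3, 𝔼 x : Fin 3 → κ → ZMod 3,
        ‖TT (U.erase i) h (rs i r φ) (rs i t φ) x‖ ^ 2) =
      𝔼 x : Fin 3 → κ → ZMod 3, 𝔼 t : ZMod 3,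
        ‖TT (U.erase i) h (rs i r φ) (rs i t φ) x‖ ^ 2 :=
    fun r => Finset.expect_comm _ _ _
  rw [Finset.expect_congr rfl fun r _ => h2 r, Finset.expect_comm]

/-- The reduced matrix. -/
private noncomputable def rh (i : κ) (φ : (κ → ZMod 3) → ℂ) (s t : ZMod 3) : ℂ :=
  𝔼 x : κ → ZMod 3, conj (φ (Function.update x i s)) * φ (Function.update x i t)

private theorem rh_conj (i : κ) (φ : (κ → ZMod 3) → ℂ) (s t : ZMod 3) :
    conj (rh i φ s t) = rh i φ t s := by
  unfold rh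
  rw [map_expect]
  refine Finset.expect_congr rfl fun x _ => ?_
  rw [map_mul, Complex.conj_conj]
  ring

private theorem N2_eq (i : κ) (φ : (κ → ZMod 3) → ℂ) :
    ((N2 φ : ℝ) : ℂ) = 𝔼 s, rh i φ s s := by
  unfold N2 rh
  rw [E_update i (fun x => conj (φ x) * φ x), Complex.ofReal_expect]
  refine Finset.expect_congr rfl fun x _ => ?_
  rw [Complex.conj_mul']
  push_cast
  rfl

private theorem N2_pw (i : κ) (w : ZMod 3 → ℂ) (φ : (κ → ZMod 3) → ℂ) :
    ((N2 (pw i w φ) : ℝ) : ℂ) = 𝔼 s, 𝔼 t, w s * conj (w t) * rh i φ s t := by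
  unfold N2
  rw [Complex.ofReal_expect]
  have h1 : ∀ s t : ZMod 3, w s * conj (w t) * rh i φ s t =
      𝔼 x : κ → ZMod 3, w s * conj (w t) *
        (conj (φ (Function.update x i s)) * φ (Function.update x i t)) := by
    intro s t
    unfold rh
    rw [Finset.mul_expect]
  simp only [h1]
  have h2 : ∀ s : ZMod 3, (𝔼 t : ZMod 3, 𝔼 x : κ → ZMod 3, w s * conj (w t) *
        (conj (φ (Function.update x i s)) * φ (Function.update x i t))) =
      𝔼 x : κ → ZMod 3, 𝔼 t : ZMod 3, w s * conj (w t) *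
        (conj (φ (Function.update x i s)) * φ (Function.update x i t)) :=
    fun s => Finset.expect_comm _ _ _
  simp only [h2]
  rw [Finset.expect_comm]
  refine Finset.expect_congr rfl fun x _ => ?_
  rw [Complex.ofReal_pow, ← Complex.conj_mul']
  unfold pw
  rw [map_expect, Finset.expect_mul_expect]
  refine Finset.expect_congr rfl fun s _ => Finset.expect_congr rfl fun t _ => ?_
  rw [map_mul, Complex.conj_conj]
  ring

theorem penalty (U : Finset κ) (i : κ) (hi : i ∈ U) (h : (κ → ZMod 3) → ℂ) (g : ℝ)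
    (hg : ∀ φ : (κ → ZMod 3) → ℂ, Dep (U.erase i) φ →
      Gam (U.erase i) h φ φ ≤ g * (N2 φ) ^ 2)
    (φ : (κ → ZMod 3) → ℂ) (hφ : Dep U φ) :
    2 * Gam (U.erase i) h φ φ ≤ g * ((N2 φ) ^ 2 + Rr i φ) := by
  obtain ⟨w, hw⟩ := design
  have h1 : 2 * Gam (U.erase i) h φ φ =
      ∑ j, Gam (U.erase i) h (pw i (w j) φ) (pw i (w j) φ) := by
    rw [Gam_split, Finset.mul_expect]
    unfold Gam
    rw [← Finset.expect_sum_comm]
    refine Finset.expect_congr rfl fun x _ => ?_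
    simp only [TT_pw]
    rw [D1 hw (fun s t => TT (U.erase i) h (rs i s φ) (rs i t φ) x)]
    intro s t
    exact congrFun (TT_symm (U.erase i) h _ _ (rs_dep hφ s) (rs_dep hφ t)) x
  have h2 : ∑ j, (N2 (pw i (w j) φ)) ^ 2 = (N2 φ) ^ 2 + Rr i φ := by
    have h3 : ((∑ j, (N2 (pw i (w j) φ)) ^ 2 : ℝ) : ℂ) = (((N2 φ) ^ 2 + Rr i φ : ℝ) : ℂ) := by
      rw [Complex.ofReal_sum]
      simp only [Complex.ofReal_pow, N2_pw]
      rw [D2 hw (rh i φ), Complex.ofReal_add, Complex.ofReal_pow, N2_eq i φ]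
      congr 1
      unfold Rr
      rw [Complex.ofReal_expect]
      refine Finset.expect_congr rfl fun s _ => ?_
      rw [Complex.ofReal_expect]
      refine Finset.expect_congr rfl fun t _ => ?_
      rw [← rh_conj i φ s t, Complex.mul_conj']
      push_cast
      rfl
    exact_mod_cast h3
  rw [h1, ← h2, Finset.mul_sum]
  exact Finset.sum_le_sum fun j _ => hg _ (pw_dep hφ (w j))

end H24AP
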