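import Pool.Agent.H24AP.Sym

/-!
# Polarization and the comparison with the three-copy test
-/

namespace H24AP

open Finset
open scoped BigOperators ComplexConjugate

variable {κ : Type} [Fintype κ] [DecidableEq κ]

theorem Polar_g_nonneg (U : Finset κ) (h : (κ → ZMod 3) → ℂ) (g : ℝ)
    (hg : ∀ φ : (κ → ZMod 3) → ℂ, Dep U φ → Gam U h φ φ ≤ g * (N2 φ) ^ 2) : 0 ≤ g := by
  have h1 := hg (fun _ => 1) (fun _ _ _ => rfl)
  have h2 : N2 (fun _ : κ → ZMod 3 => (1 : ℂ)) = 1 := by simp [N2]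
  rw [h2] at h1
  have h3 := Gam_nonneg U h (fun _ => 1) (fun _ => 1)
  linarith

theorem Polar_N2_parallelogram (a b : (κ → ZMod 3) → ℂ) :
    N2 (a + b) + N2 (a - b) = 2 * N2 a + 2 * N2 b := by
  unfold N2
  rw [← Finset.expect_add_distrib, Finset.mul_expect, Finset.mul_expect,
    ← Finset.expect_add_distrib]
  apply Finset.expect_congr rfl
  intro x _
  simp only [Pi.add_apply, Pi.sub_apply]
  have := parallelogram_law_with_norm ℝ (a x) (b x)
  nlinarith [this]

theorem Polar_Gam_parallelogram (U : Finset κ) (h a b : (κ → ZMod 3) → ℂ) (ha : Dep U a)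
    (hb : Dep U b) :
    8 * Gam U h a b ≤ Gam U h (a + b) (a + b) + Gam U h (a - b) (a - b) := by
  unfold Gam
  rw [← Finset.expect_add_distrib, Finset.mul_expect]
  apply Finset.expect_le_expect
  intro x _
  have hab : a - b = a + (-1 : ℂ) • b := by
    funext z; simp [sub_eq_add_neg]
  have h1 : TT U h (a + b) (a + b) x =
      (TT U h a a x + TT U h b b x) + 2 * TT U h a b x := by
    rw [TT_add_left, TT_add_right, TT_add_right, TT_symm U h b a hb ha]
    ring
  have h2 : TT U h (a - b) (a - b) x =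
      (TT U h a a x + TT U h b b x) - 2 * TT U h a b x := by
    rw [hab, TT_add_left, TT_add_right, TT_add_right, TT_smul_left, TT_smul_left, TT_smul_right,
      TT_smul_right, TT_symm U h b a hb ha]
    ring
  rw [h1, h2]
  have h3 := parallelogram_law_with_norm ℝ (TT U h a a x + TT U h b b x) (2 * TT U h a b x)
  have h4 : ‖(2 : ℂ) * TT U h a b x‖ = 2 * ‖TT U h a b x‖ := by simp
  rw [h4] at h3
  nlinarith [h3, sq_nonneg ‖TT U h a a x + TT U h b b x‖]

theorem Polar_bal (U : Finset κ) (h : (κ → ZMod 3) → ℂ) (g : ℝ)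
    (hg : ∀ φ : (κ → ZMod 3) → ℂ, Dep U φ → Gam U h φ φ ≤ g * (N2 φ) ^ 2)
    (a b : (κ → ZMod 3) → ℂ) (ha : Dep U a) (hb : Dep U b) (r : ℝ)
    (har : N2 a ≤ r) (hbr : N2 b ≤ r) :
    Gam U h a b ≤ 2 * g * r ^ 2 := by
  have hg0 := Polar_g_nonneg U h g hg
  have h1 := Polar_Gam_parallelogram U h a b ha hb
  have hab : Dep U (a + b) := fun x y hxy => by simp [ha x y hxy, hb x y hxy]
  have hab' : Dep U (a - b) := fun x y hxy => by simp [ha x y hxy, hb x y hxy]
  have h2 := hg (a + b) hab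
  have h3 := hg (a - b) hab'
  have h4 := Polar_N2_parallelogram a b
  have h5 : 0 ≤ N2 (a + b) := Finset.expect_nonneg (fun x _ => by positivity)
  have h6 : 0 ≤ N2 (a - b) := Finset.expect_nonneg (fun x _ => by positivity)
  have h7 : N2 (a + b) ^ 2 + N2 (a - b) ^ 2 ≤ 16 * r ^ 2 := by
    have h8 : N2 (a + b) + N2 (a - b) ≤ 4 * r := by linarith
    have h9 : (N2 (a + b) + N2 (a - b)) ^ 2 ≤ (4 * r) ^ 2 := by
      apply pow_le_pow_left₀ (by linarith) h8
    nlinarith [mul_nonneg h5 h6]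
  nlinarith [mul_le_mul_of_nonneg_left h7 hg0]

theorem Polar_Gam_smul (U : Finset κ) (h a b : (κ → ZMod 3) → ℂ) (c d : ℂ) :
    Gam U h (c • a) (d • b) = ‖c‖ ^ 2 * ‖d‖ ^ 2 * Gam U h a b := by
  unfold Gam
  rw [Finset.mul_expect]
  apply Finset.expect_congr rfl
  intro x _
  rw [TT_smul_left, TT_smul_right, norm_mul, norm_mul]
  ring

theorem Polar_N2_smul (a : (κ → ZMod 3) → ℂ) (c : ℂ) :
    N2 (c • a) = ‖c‖ ^ 2 * N2 a := by
  unfold N2
  rw [Finset.mul_expect]
  apply Finset.expect_congr rfl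
  intro x _
  simp only [Pi.smul_apply, smul_eq_mul, norm_mul]
  ring

/-- Rescale so that `N2 a, N2 b ≤ √(s t)`, then use
`|TT(a+b,a+b)|^2 + |TT(a-b,a-b)|^2 = 2|TT(a,a)+TT(b,b)|^2 + 8|TT(a,b)|^2` (pointwise, `TT_symm`),
and `N2(a+b)^2 + N2(a-b)^2 ≤ (2 N2 a + 2 N2 b)^2`. -/
theorem polar (U : Finset κ) (h : (κ → ZMod 3) → ℂ) (g : ℝ)
    (hg : ∀ φ : (κ → ZMod 3) → ℂ, Dep U φ → Gam U h φ φ ≤ g * (N2 φ) ^ 2)
    (a b : (κ → ZMod 3) → ℂ) (ha : Dep U a) (hb : Dep U b) (s t : ℝ) (hs : 0 < s) (ht : 0 < t)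
    (has : N2 a ≤ s) (hbt : N2 b ≤ t) :
    Gam U h a b ≤ 2 * g * (s * t) := by
  have hst : 0 < s * t := mul_pos hs ht
  set r : ℝ := Real.sqrt (s * t) with hr
  have hr2 : r ^ 2 = s * t := Real.sq_sqrt hst.le
  have hrpos : 0 < r := Real.sqrt_pos.mpr hst
  set c : ℝ := Real.sqrt (r / s) with hc
  set d : ℝ := Real.sqrt (r / t) with hd
  have hc2 : c ^ 2 = r / s := Real.sq_sqrt (by positivity)
  have hd2 : d ^ 2 = r / t := Real.sq_sqrt (by positivity)
  have hcn : ‖(c : ℂ)‖ ^ 2 = r / s := by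
    rw [Complex.norm_real, Real.norm_eq_abs, sq_abs, hc2]
  have hdn : ‖(d : ℂ)‖ ^ 2 = r / t := by
    rw [Complex.norm_real, Real.norm_eq_abs, sq_abs, hd2]
  have hca : Dep U ((c : ℂ) • a) := fun x y hxy => by simp [ha x y hxy]
  have hdb : Dep U ((d : ℂ) • b) := fun x y hxy => by simp [hb x y hxy]
  have h1 := Polar_bal U h g hg _ _ hca hdb r
    (by
      rw [Polar_N2_smul, hcn]
      calc r / s * N2 a ≤ r / s * s := by gcongr
        _ = r := by field_simp)
    (by
      rw [Polar_N2_smul, hdn]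
      calc r / t * N2 b ≤ r / t * t := by gcongr
        _ = r := by field_simp)
  rw [Polar_Gam_smul, hcn, hdn] at h1
  have h2 : r / s * (r / t) = 1 := by
    rw [div_mul_div_comm, ← sq, hr2]
    exact div_self hst.ne'
  rw [h2, one_mul, hr2] at h1
  exact h1

/-- Swap of the coordinates off `U` in the first two copies. -/
def Polar_swap (U : Finset κ) :
    ((Fin 3 → κ → ZMod 3) × (Fin 3 → κ → ZMod 3)) ≃
      ((Fin 3 → κ → ZMod 3) × (Fin 3 → κ → ZMod 3)) where
  toFun p := (fun c => if c = 2 then p.1 c else mix U (p.1 c) (p.2 c),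
    fun c => if c = 2 then p.2 c else mix U (p.2 c) (p.1 c))
  invFun p := (fun c => if c = 2 then p.1 c else mix U (p.1 c) (p.2 c),
    fun c => if c = 2 then p.2 c else mix U (p.2 c) (p.1 c))
  left_inv p := by
    ext c i <;> by_cases hc : c = 2 <;> by_cases h : i ∈ U <;> simp [mix, h, hc]
  right_inv p := by
    ext c i <;> by_cases hc : c = 2 <;> by_cases h : i ∈ U <;> simp [mix, h, hc]

theorem Polar_E_swap (U : Finset κ) (F : (Fin 3 → κ → ZMod 3) → ℝ) :
    𝔼 y : Fin 3 → κ → ZMod 3, 𝔼 x : Fin 3 → κ → ZMod 3,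
      F (fun c => if c = 2 then x c else mix U (x c) (y c)) = 𝔼 x, F x := by
  have h1 : 𝔼 p : (Fin 3 → κ → ZMod 3) × (Fin 3 → κ → ZMod 3),
      F (fun c => if c = 2 then p.1 c else mix U (p.1 c) (p.2 c)) =
      𝔼 p : (Fin 3 → κ → ZMod 3) × (Fin 3 → κ → ZMod 3), F p.1 :=
    E_equiv (Polar_swap U) (fun p => F p.1)
  rw [E_comm, ← E_prod (fun (x y : Fin 3 → κ → ZMod 3) =>
    F (fun c => if c = 2 then x c else mix U (x c) (y c))), h1,
    E_prod (fun x (_ : Fin 3 → κ → ZMod 3) => F x)]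
  simp

/-- For fixed values `y 0`, `y 1` of the first two copies off `U` apply `polar` to
`a x = h (mix U x (y 0))`, `b x = h (mix U x (y 1))`, then average over `y`. -/
theorem T3_le (U : Finset κ) (h : (κ → ZMod 3) → ℂ) (hh : ∀ x, ‖h x‖ ≤ 1) (g : ℝ)
    (hg : ∀ φ : (κ → ZMod 3) → ℂ, Dep U φ → Gam U h φ φ ≤ g * (N2 φ) ^ 2) :
    Gam U h h h ≤ 2 * g := by
  have hDep : ∀ y : κ → ZMod 3, Dep U (fun x => h (mix U x y)) := by
    intro y x x' hxx'
    have : mix U x y = mix U x' y := by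
      funext i
      by_cases hi : i ∈ U
      · simp [mix, hi, hxx' i hi]
      · simp [mix, hi]
    simp [this]
  have hN : ∀ y : κ → ZMod 3, N2 (fun x => h (mix U x y)) ≤ 1 := by
    intro y
    unfold N2
    calc 𝔼 x, ‖h (mix U x y)‖ ^ 2 ≤ 𝔼 _x : κ → ZMod 3, (1 : ℝ) := by
          apply Finset.expect_le_expect
          intro x _
          have := hh (mix U x y)
          have h0 := norm_nonneg (h (mix U x y))
          nlinarith
      _ = 1 := by simp
  have key : ∀ y : Fin 3 → κ → ZMod 3,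
      𝔼 x : Fin 3 → κ → ZMod 3,
        ‖TT U h h h (fun c => if c = 2 then x c else mix U (x c) (y c))‖ ^ 2 ≤ 2 * g := by
    intro y
    have h1 := polar U h g hg (fun x => h (mix U x (y 0))) (fun x => h (mix U x (y 1)))
      (hDep _) (hDep _) 1 1 one_pos one_pos (hN _) (hN _)
    have h2 : ∀ x : Fin 3 → κ → ZMod 3,
        TT U h h h (fun c => if c = 2 then x c else mix U (x c) (y c)) =
        TT U h (fun x => h (mix U x (y 0))) (fun x => h (mix U x (y 1))) x := by
      intro x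
      unfold TT
      apply Finset.expect_congr rfl
      intro σ _
      have e0 : pm U σ (fun c => if c = 2 then x c else mix U (x c) (y c)) 0 =
          mix U (pm U σ x 0) (y 0) := by
        funext i
        by_cases hi : i ∈ U
        · by_cases h2 : σ i 0 = 2 <;> simp [pm, mix, hi, h2]
        · simp [pm, mix, hi]
      have e1 : pm U σ (fun c => if c = 2 then x c else mix U (x c) (y c)) 1 =
          mix U (pm U σ x 1) (y 1) := by
        funext i
        by_cases hi : i ∈ U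
        · by_cases h2 : σ i 1 = 2 <;> simp [pm, mix, hi, h2]
        · simp [pm, mix, hi]
      have e2 : pm U σ (fun c => if c = 2 then x c else mix U (x c) (y c)) 2 =
          pm U σ x 2 := by
        funext i
        by_cases hi : i ∈ U
        · by_cases h2 : σ i 2 = 2 <;> simp [pm, mix, hi, h2]
        · simp [pm, hi]
      rw [e0, e1, e2]
    simp only [h2]
    unfold Gam at h1
    linarith
  unfold Gam
  rw [← Polar_E_swap U (fun x => ‖TT U h h h x‖ ^ 2)]
  calc 𝔼 y : Fin 3 → κ → ZMod 3, 𝔼 x : Fin 3 → κ → ZMod 3,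
        ‖TT U h h h (fun c => if c = 2 then x c else mix U (x c) (y c))‖ ^ 2
      ≤ 𝔼 _y : Fin 3 → κ → ZMod 3, 2 * g := by
        apply Finset.expect_le_expect
        intro y _
        exact key y
    _ = 2 * g := by simp

end H24AP
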