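import Pool.Agent.H24AP.Sym

/-!
# The three-copy form at a product function

`Gam U h P P = 𝔼 x, conj (P P h)(x) * TT U h P P x` (projection property).  Site by site, the six
permutations contribute: the identity and the swap `(01)` give the identity operator on the third
copy, the other four give the projection onto `u i`.  So it is the quadratic form of
`∏_{i ∈ U} (1/3 + (2/3) Q_i)` at `h`.
-/

namespace H24AP

open Finset
open scoped BigOperators ComplexConjugate

variable {κ : Type} [Fintype κ] [DecidableEq κ]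

theorem pe_E_pi {α R : Type} [Fintype α] [Field R] [CharZero R] (g : κ → α → R) :
    𝔼 σ : κ → α, ∏ i, g i (σ i) = ∏ i, 𝔼 s, g i s := by
  simp only [Fintype.expect_eq_sum_div_card]
  rw [Finset.prod_div_distrib, Finset.prod_univ_sum, Fintype.piFinset_univ]
  simp

theorem pe_E_indep {α R : Type} [Fintype α] [Nonempty α] [Field R] [CharZero R]
    (V : Finset κ) (A B : (κ → α) → R) (hA : ∀ x y, A (mix V x y) = A x)
    (hB : ∀ x y, B (mix V x y) = B y) :
    𝔼 x, A x * B x = (𝔼 x, A x) * 𝔼 y, B y := by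
  rw [← E_mix V (fun x => A x * B x), Finset.expect_mul_expect]
  simp only [hA, hB]

theorem pe_prodf_sub {V U : Finset κ} (h : V ⊆ U) (u : κ → ZMod 3 → ℂ) (x y : κ → ZMod 3) :
    prodf V u (mix U x y) = prodf V u x := by
  unfold prodf
  refine Finset.prod_congr rfl fun i hi => ?_
  rw [mix_of_mem (h hi)]

theorem pe_prodf_disj {V U : Finset κ} (h : Disjoint V U) (u : κ → ZMod 3 → ℂ)
    (x y : κ → ZMod 3) : prodf V u (mix U x y) = prodf V u y := by
  unfold prodf
  refine Finset.prod_congr rfl fun i hi => ?_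
  rw [mix_of_not_mem (fun hh => (Finset.disjoint_left.1 h) hi hh)]

theorem pe_prodf_split {V U : Finset κ} (h : V ⊆ U) (u : κ → ZMod 3 → ℂ) (x : κ → ZMod 3) :
    prodf U u x = prodf V u x * prodf (U \ V) u x := by
  unfold prodf
  rw [mul_comm, Finset.prod_sdiff h]

theorem N2_prodf (U : Finset κ) (u : κ → ZMod 3 → ℂ) (hu : ∀ i, (𝔼 s, ‖u i s‖ ^ 2) = 1) :
    N2 (prodf U u) = 1 := by
  unfold N2
  have h1 : ∀ x : κ → ZMod 3, ‖prodf U u x‖ ^ 2 =
      ∏ i, (fun (i : κ) (s : ZMod 3) => if i ∈ U then ‖u i s‖ ^ 2 else 1) i (x i) := by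
    intro x
    unfold prodf
    rw [norm_prod, ← Finset.prod_pow]
    simp only [Finset.prod_ite_mem, Finset.univ_inter]
  rw [Finset.expect_congr rfl (fun x _ => h1 x),
    pe_E_pi (fun (i : κ) (s : ZMod 3) => if i ∈ U then ‖u i s‖ ^ 2 else 1)]
  apply Finset.prod_eq_one
  intro i _
  by_cases h : i ∈ U
  · simp only [h, if_true, hu]
  · simp [h]

theorem Dep_prodf (U : Finset κ) (u : κ → ZMod 3 → ℂ) : Dep U (prodf U u) := by
  intro x y h
  unfold prodf
  exact Finset.prod_congr rfl (fun i hi => by rw [h i hi])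

theorem pe_sq_le {α : Type} [Fintype α] (f g : α → ℂ) :
    ‖𝔼 x, f x * g x‖ ^ 2 ≤ (𝔼 x, ‖f x‖ ^ 2) * 𝔼 x, ‖g x‖ ^ 2 := by
  simp only [Fintype.expect_eq_sum_div_card]
  rw [norm_div, div_pow, div_mul_div_comm]
  have h1 : ‖(Fintype.card α : ℂ)‖ ^ 2 = (Fintype.card α : ℝ) * Fintype.card α := by
    rw [Complex.norm_natCast]; ring
  rw [h1]
  apply div_le_div_of_nonneg_right _ (by positivity)
  calc ‖∑ x, f x * g x‖ ^ 2 ≤ (∑ x, ‖f x‖ * ‖g x‖) ^ 2 := by
        gcongr
        refine (norm_sum_le _ _).trans (Finset.sum_le_sum fun x _ => ?_)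
        rw [norm_mul]
    _ ≤ _ := Finset.sum_mul_sq_le_sq_mul_sq _ _ _

theorem Corr_anti {V V' : Finset κ} (hV : V' ⊆ V) (u : κ → ZMod 3 → ℂ)
    (hu : ∀ i, (𝔼 s, ‖u i s‖ ^ 2) = 1) (h : (κ → ZMod 3) → ℂ) :
    Corr V u h ≤ Corr V' u h := by
  unfold Corr
  set A : (κ → ZMod 3) → ℂ := fun z => 𝔼 x : κ → ZMod 3, h (mix V' x z) * conj (prodf V' u x)
    with hA
  have h1 : ∀ y : κ → ZMod 3, 𝔼 x : κ → ZMod 3, h (mix V x y) * conj (prodf V u x) =
      𝔼 x'' : κ → ZMod 3, A (mix V x'' y) * conj (prodf (V \ V') u x'') := by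
    intro y
    rw [← E_mix V' (fun x => h (mix V x y) * conj (prodf V u x)), E_comm]
    apply Finset.expect_congr rfl
    intro x'' _
    rw [hA]
    simp only
    rw [Finset.expect_mul]
    apply Finset.expect_congr rfl
    intro x' _
    rw [pe_prodf_split hV, pe_prodf_sub (subset_refl _), pe_prodf_disj Finset.sdiff_disjoint,
      mix_sub hV, map_mul]
    ring
  calc 𝔼 y : κ → ZMod 3, ‖𝔼 x : κ → ZMod 3, h (mix V x y) * conj (prodf V u x)‖ ^ 2
      ≤ 𝔼 y : κ → ZMod 3, 𝔼 x'' : κ → ZMod 3, ‖A (mix V x'' y)‖ ^ 2 := by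
        apply Finset.expect_le_expect
        intro y _
        rw [h1 y]
        refine (pe_sq_le _ _).trans ?_
        have h2 : (𝔼 x'' : κ → ZMod 3, ‖conj (prodf (V \ V') u x'')‖ ^ 2) = 1 := by
          have := N2_prodf (V \ V') u hu
          unfold N2 at this
          rw [← this]
          apply Finset.expect_congr rfl
          intro x _
          rw [RCLike.norm_conj]
        rw [h2, mul_one]
    _ = 𝔼 z : κ → ZMod 3, ‖A z‖ ^ 2 := by
        rw [E_comm, E_mix V (fun z => ‖A z‖ ^ 2)]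

theorem Corr_le_one (V : Finset κ) (u : κ → ZMod 3 → ℂ) (hu : ∀ i, (𝔼 s, ‖u i s‖ ^ 2) = 1)
    (h : (κ → ZMod 3) → ℂ) (hh : ∀ x, ‖h x‖ ≤ 1) : Corr V u h ≤ 1 := by
  refine (Corr_anti (Finset.empty_subset V) u hu h).trans ?_
  unfold Corr
  simp only [mix_empty, prodf, Finset.prod_empty, map_one, mul_one]
  simp only [Finset.univ_nonempty, Finset.expect_const]
  calc 𝔼 y : κ → ZMod 3, ‖h y‖ ^ 2 ≤ 𝔼 y : κ → ZMod 3, (1 : ℝ) := by
        apply Finset.expect_le_expect
        intro y _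
        have := hh y
        have h0 := norm_nonneg (h y)
        nlinarith
    _ = 1 := by simp


/-! the three copies -/

theorem pe_pm_pm (U : Finset κ) (σ τ : κ → Equiv.Perm (Fin 3)) (x : Fin 3 → κ → ZMod 3) :
    pm U σ (pm U τ x) = pm U (τ * σ) x := by
  funext c i
  by_cases h : i ∈ U <;> simp [pm, h]

theorem pe_pm_one (U : Finset κ) (x : Fin 3 → κ → ZMod 3) : pm U 1 x = x := by
  funext c i
  simp [pm]

/-- The bijection `pm U τ`. -/
def pePm (U : Finset κ) (τ : κ → Equiv.Perm (Fin 3)) :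
    (Fin 3 → κ → ZMod 3) ≃ (Fin 3 → κ → ZMod 3) where
  toFun := pm U τ
  invFun := pm U τ⁻¹
  left_inv x := by rw [pe_pm_pm, mul_inv_cancel, pe_pm_one]
  right_inv x := by rw [pe_pm_pm, inv_mul_cancel, pe_pm_one]

theorem pe_E_pm {R : Type} [AddCommMonoid R] [Module ℚ≥0 R] (U : Finset κ)
    (τ : κ → Equiv.Perm (Fin 3)) (G : (Fin 3 → κ → ZMod 3) → R) :
    𝔼 x, G (pm U τ x) = 𝔼 x, G x :=
  E_equiv (pePm U τ) G

theorem pe_perm_fix : ∀ τ : Equiv.Perm (Fin 3), τ 2 = 2 →
    (τ 0 = 0 ∧ τ 1 = 1) ∨ (τ 0 = 1 ∧ τ 1 = 0) := by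
  decide

theorem pe_perm_dec : ∀ σ : Equiv.Perm (Fin 3), ∃ τ ρ : Equiv.Perm (Fin 3), τ 2 = 2 ∧ ρ 2 = 2 ∧
    σ = τ * (if σ 2 ≠ 2 then Equiv.swap 0 2 else 1) * ρ := by
  decide

theorem pe_conj {α : Type} [Fintype α] (f : α → ℂ) :
    conj (𝔼 x, f x) = 𝔼 x, conj (f x) := by
  simp only [Fintype.expect_eq_sum_div_card, map_div₀, map_sum, map_natCast]

/-- The product function on three copies. -/
noncomputable def peF (U : Finset κ) (u : κ → ZMod 3 → ℂ) (h : (κ → ZMod 3) → ℂ)
    (x : Fin 3 → κ → ZMod 3) : ℂ := prodf U u (x 0) * prodf U u (x 1) * h (x 2)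

theorem peF_pm (U : Finset κ) (u : κ → ZMod 3 → ℂ) (h : (κ → ZMod 3) → ℂ)
    (τ : κ → Equiv.Perm (Fin 3)) (hτ : ∀ i, τ i 2 = 2) (x : Fin 3 → κ → ZMod 3) :
    peF U u h (pm U τ x) = peF U u h x := by
  unfold peF prodf
  have h2 : pm U τ x 2 = x 2 := by
    funext i
    by_cases hi : i ∈ U <;> simp [pm, hi, hτ i]
  rw [h2, ← Finset.prod_mul_distrib, ← Finset.prod_mul_distrib]
  congr 1
  refine Finset.prod_congr rfl fun i hi => ?_
  rcases pe_perm_fix (τ i) (hτ i) with ⟨e0, e1⟩ | ⟨e0, e1⟩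
  · simp [pm, hi, e0, e1]
  · simp [pm, hi, e0, e1, mul_comm]

/-- One term of the average over the group. -/
noncomputable def peK (U : Finset κ) (u : κ → ZMod 3 → ℂ) (h : (κ → ZMod 3) → ℂ)
    (σ : κ → Equiv.Perm (Fin 3)) : ℂ :=
  𝔼 x, conj (peF U u h x) * peF U u h (pm U σ x)

theorem pe_Gam (U : Finset κ) (u : κ → ZMod 3 → ℂ) (h : (κ → ZMod 3) → ℂ) :
    ((Gam U h (prodf U u) (prodf U u) : ℝ) : ℂ) = 𝔼 σ : κ → Equiv.Perm (Fin 3), peK U u h σ := by
  set T : (Fin 3 → κ → ZMod 3) → ℂ := TT U h (prodf U u) (prodf U u) with hT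
  have hTe : ∀ x, T x = 𝔼 σ : κ → Equiv.Perm (Fin 3), peF U u h (pm U σ x) := fun x => rfl
  have hinv : ∀ τ x, T (pm U τ x) = T x := by
    intro τ x
    rw [hTe, hTe]
    simp only [pe_pm_pm]
    exact E_equiv (Equiv.mulLeft τ) (fun σ => peF U u h (pm U σ x))
  have h1 : ((Gam U h (prodf U u) (prodf U u) : ℝ) : ℂ) = 𝔼 x, conj (T x) * T x := by
    unfold Gam
    rw [Complex.ofReal_expect]
    apply Finset.expect_congr rfl
    intro x _
    rw [Complex.conj_mul', ← hT]
    push_cast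
    rfl
  rw [h1]
  have h2 : ∀ x, conj (T x) * T x =
      𝔼 σ : κ → Equiv.Perm (Fin 3), conj (peF U u h (pm U σ x)) * T (pm U σ x) := by
    intro x
    simp only [hinv]
    rw [← Finset.expect_mul, hTe x, pe_conj]
  rw [Finset.expect_congr rfl (fun x _ => h2 x), E_comm]
  have h3 : ∀ σ : κ → Equiv.Perm (Fin 3),
      𝔼 x, conj (peF U u h (pm U σ x)) * T (pm U σ x) = 𝔼 x, conj (peF U u h x) * T x :=
    fun σ => pe_E_pm U σ (fun x => conj (peF U u h x) * T x)
  rw [Finset.expect_congr rfl (fun σ _ => h3 σ), Fintype.expect_const]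
  unfold peK
  rw [E_comm]
  apply Finset.expect_congr rfl
  intro x _
  rw [hTe x, Finset.mul_expect]

theorem pe_K_left (U : Finset κ) (u : κ → ZMod 3 → ℂ) (h : (κ → ZMod 3) → ℂ)
    (σ τ : κ → Equiv.Perm (Fin 3)) (hτ : ∀ i, τ i 2 = 2) :
    peK U u h (τ * σ) = peK U u h σ := by
  unfold peK
  rw [← pe_E_pm U τ (fun x => conj (peF U u h x) * peF U u h (pm U σ x))]
  apply Finset.expect_congr rfl
  intro x _
  rw [peF_pm U u h τ hτ, pe_pm_pm]

theorem pe_K_right (U : Finset κ) (u : κ → ZMod 3 → ℂ) (h : (κ → ZMod 3) → ℂ)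
    (σ ρ : κ → Equiv.Perm (Fin 3)) (hρ : ∀ i, ρ i 2 = 2) :
    peK U u h (σ * ρ) = peK U u h σ := by
  unfold peK
  apply Finset.expect_congr rfl
  intro x _
  rw [← pe_pm_pm, peF_pm U u h ρ hρ]

/-- The swap of the copies 0 and 2 on the sites of `V`. -/
theorem pe_K_eq (U : Finset κ) (u : κ → ZMod 3 → ℂ) (h : (κ → ZMod 3) → ℂ)
    (σ : κ → Equiv.Perm (Fin 3)) :
    peK U u h σ = 𝔼 x, conj (peF U u h x) *
      peF U u h (pm (U.filter (fun i => σ i 2 ≠ 2)) (fun _ => Equiv.swap 0 2) x) := by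
  choose τ ρ hτ hρ he using pe_perm_dec
  have h1 : σ = (fun i => τ (σ i)) * (fun i => if σ i 2 ≠ 2 then Equiv.swap 0 2 else 1) *
      (fun i => ρ (σ i)) := by
    funext i
    exact he (σ i)
  conv_lhs => rw [h1]
  rw [pe_K_right U u h _ _ (fun i => hρ (σ i)), pe_K_left U u h _ _ (fun i => hτ (σ i))]
  unfold peK
  apply Finset.expect_congr rfl
  intro x _
  congr 2
  funext c i
  by_cases hi : i ∈ U <;> by_cases h2 : σ i 2 = 2 <;> simp [pm, hi, h2]

theorem pe_E_three {X R : Type} [Fintype X] [DecidableEq X] [AddCommMonoid R] [Module ℚ≥0 R]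
    (G : X → X → X → R) :
    𝔼 x : Fin 3 → X, G (x 0) (x 1) (x 2) = 𝔼 a, 𝔼 b, 𝔼 c, G a b c := by
  let e : (Fin 3 → X) ≃ X × X × X :=
    { toFun := fun x => (x 0, x 1, x 2)
      invFun := fun p => ![p.1, p.2.1, p.2.2]
      left_inv := by intro x; funext c; fin_cases c <;> rfl
      right_inv := by intro p; rfl }
  have h1 := E_equiv e (fun p : X × X × X => G p.1 p.2.1 p.2.2)
  rw [show (𝔼 x : Fin 3 → X, G (x 0) (x 1) (x 2)) = 𝔼 x : Fin 3 → X,
    G (e x).1 (e x).2.1 (e x).2.2 from rfl, h1]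
  rw [E_prod (fun (a : X) (q : X × X) => G a q.1 q.2)]
  apply Finset.expect_congr rfl
  intro a _
  rw [E_prod (fun (b c : X) => G a b c)]

theorem pe_Corr (U V : Finset κ) (hV : V ⊆ U) (u : κ → ZMod 3 → ℂ)
    (hu : ∀ i, (𝔼 s, ‖u i s‖ ^ 2) = 1) (h : (κ → ZMod 3) → ℂ) :
    𝔼 x, conj (peF U u h x) * peF U u h (pm V (fun _ => Equiv.swap 0 2) x) =
      ((Corr V u h : ℝ) : ℂ) := by
  have hN : ∀ W : Finset κ, 𝔼 b : κ → ZMod 3, conj (prodf W u b) * prodf W u b = (1 : ℂ) := by
    intro W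
    have := N2_prodf W u hu
    unfold N2 at this
    rw [← Complex.ofReal_one, ← this, Complex.ofReal_expect]
    apply Finset.expect_congr rfl
    intro x _
    rw [Complex.conj_mul']
    push_cast
    rfl
  have h1 : ∀ x : Fin 3 → κ → ZMod 3,
      conj (peF U u h x) * peF U u h (pm V (fun _ => Equiv.swap 0 2) x) =
      (fun a b c => conj (prodf U u a * prodf U u b * h c) *
        (prodf U u (mix V c a) * prodf U u b * h (mix V a c))) (x 0) (x 1) (x 2) := by
    intro x
    have e0 : pm V (fun _ => Equiv.swap 0 2) x 0 = mix V (x 2) (x 0) := by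
      funext i
      by_cases hi : i ∈ V <;> simp [pm, mix, hi]
    have e1 : pm V (fun _ => Equiv.swap 0 2) x 1 = x 1 := by
      funext i
      by_cases hi : i ∈ V <;> simp [pm, hi, Equiv.swap_apply_of_ne_of_ne]
    have e2 : pm V (fun _ => Equiv.swap 0 2) x 2 = mix V (x 0) (x 2) := by
      funext i
      by_cases hi : i ∈ V <;> simp [pm, mix, hi]
    unfold peF
    rw [e0, e1, e2]
  rw [Finset.expect_congr rfl (fun x _ => h1 x),
    pe_E_three (fun a b c : κ → ZMod 3 => conj (prodf U u a * prodf U u b * h c) *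
        (prodf U u (mix V c a) * prodf U u b * h (mix V a c)))]
  -- the middle copy
  have h2 : ∀ a : κ → ZMod 3, 𝔼 b : κ → ZMod 3, 𝔼 c : κ → ZMod 3,
      conj (prodf U u a * prodf U u b * h c) *
        (prodf U u (mix V c a) * prodf U u b * h (mix V a c)) =
      𝔼 c : κ → ZMod 3, conj (h c) * prodf V u c *
        ((conj (prodf V u a) * h (mix V a c)) * (conj (prodf (U \ V) u a) * prodf (U \ V) u a)) := by
    intro a
    rw [← one_mul (𝔼 c : κ → ZMod 3, conj (h c) * prodf V u c *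
      ((conj (prodf V u a) * h (mix V a c)) * (conj (prodf (U \ V) u a) * prodf (U \ V) u a))),
      ← hN U, Finset.expect_mul_expect]
    apply Finset.expect_congr rfl
    intro b _
    apply Finset.expect_congr rfl
    intro c _
    rw [pe_prodf_split hV u (mix V c a), pe_prodf_sub (subset_refl V),
      pe_prodf_disj Finset.sdiff_disjoint]
    conv_lhs => rw [pe_prodf_split hV u a]
    simp only [map_mul]
    ring
  simp only [h2]
  rw [E_comm]
  set g : (κ → ZMod 3) → ℂ := fun c => 𝔼 a : κ → ZMod 3, h (mix V a c) * conj (prodf V u a)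
    with hg
  have h3 : ∀ c : κ → ZMod 3, 𝔼 a : κ → ZMod 3, conj (h c) * prodf V u c *
        ((conj (prodf V u a) * h (mix V a c)) * (conj (prodf (U \ V) u a) * prodf (U \ V) u a)) =
        conj (h c) * prodf V u c * g c := by
    intro c
    rw [← Finset.mul_expect, pe_E_indep V (fun a => conj (prodf V u a) * h (mix V a c))
      (fun a => conj (prodf (U \ V) u a) * prodf (U \ V) u a), hN, mul_one]
    · congr 1
      apply Finset.expect_congr rfl
      intro a _
      ring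
    · intro x y
      rw [pe_prodf_sub (subset_refl V), mix_mix_left]
    · intro x y
      rw [pe_prodf_disj Finset.sdiff_disjoint]
  simp only [h3]
  rw [← E_mix V (fun c => conj (h c) * prodf V u c * g c), E_comm]
  unfold Corr
  rw [Complex.ofReal_expect]
  apply Finset.expect_congr rfl
  intro y _
  have h4 : ∀ x : κ → ZMod 3, conj (h (mix V x y)) * prodf V u (mix V x y) * g (mix V x y) =
      conj (h (mix V x y) * conj (prodf V u x)) * g y := by
    intro x
    rw [pe_prodf_sub (subset_refl V)]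
    have : g (mix V x y) = g y := by
      rw [hg]
      simp only [mix_mix_right]
    rw [this, map_mul, Complex.conj_conj]
  rw [Finset.expect_congr rfl (fun x _ => h4 x), ← Finset.expect_mul, ← pe_conj]
  rw [Complex.conj_mul']
  push_cast
  rfl

theorem pe_E_filter {G : Type} [Fintype G] [Nonempty G] (p : G → Prop) [DecidablePred p] (θ : ℝ)
    (hθ : (𝔼 s : G, if p s then (1 : ℝ) else 0) = θ) (U : Finset κ) (f : Finset κ → ℝ) :
    𝔼 σ : κ → G, f (U.filter (fun i => p (σ i))) =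
      ∑ V ∈ U.powerset, θ ^ V.card * (1 - θ) ^ (U.card - V.card) * f V := by
  have hθ' : (𝔼 s : G, if p s then (0 : ℝ) else 1) = 1 - θ := by
    rw [← hθ, ← Fintype.expect_one (ι := G) (M := ℝ), ← Finset.expect_sub_distrib]
    apply Finset.expect_congr rfl
    intro s _
    split_ifs <;> simp
  set w : Finset κ → κ → G → ℝ := fun V i s =>
    if i ∈ V then (if p s then 1 else 0) else if i ∈ U then (if p s then 0 else 1) else 1 with hw
  have h1 : ∀ σ : κ → G, f (U.filter (fun i => p (σ i))) =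
      ∑ V ∈ U.powerset, f V * ∏ i, w V i (σ i) := by
    intro σ
    rw [Finset.sum_eq_single_of_mem (U.filter (fun i => p (σ i)))]
    · rw [Finset.prod_eq_one, mul_one]
      intro i _
      simp only [hw, Finset.mem_filter]
      by_cases hi : i ∈ U <;> by_cases hp : p (σ i) <;> simp [hi, hp]
    · exact Finset.mem_powerset.2 (Finset.filter_subset _ _)
    · intro V hV hne
      have hV' := Finset.mem_powerset.1 hV
      have : ∃ i, w V i (σ i) = 0 := by
        by_contra hcon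
        push Not at hcon
        apply hne
        ext i
        have := hcon i
        simp only [hw] at this
        simp only [Finset.mem_filter]
        by_cases hi : i ∈ V
        · simp only [hi, if_true] at this
          by_cases hp : p (σ i)
          · simp [hi, hV' hi, hp]
          · simp [hp] at this
        · by_cases hU : i ∈ U
          · by_cases hp : p (σ i)
            · simp [hi, hU, hp] at this
            · simp [hi, hp]
          · simp [hi, hU]
      obtain ⟨i, hi⟩ := this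
      rw [Finset.prod_eq_zero (Finset.mem_univ i) hi, mul_zero]
  rw [Finset.expect_congr rfl (fun σ _ => h1 σ), Finset.expect_sum_comm]
  apply Finset.sum_congr rfl
  intro V hV
  have hV' := Finset.mem_powerset.1 hV
  rw [← Finset.mul_expect, pe_E_pi, mul_comm]
  congr 1
  have h2 : ∀ i, 𝔼 s, w V i s = (if i ∈ V then θ else 1) * (if i ∈ U \ V then 1 - θ else 1) := by
    intro i
    simp only [hw, Finset.mem_sdiff]
    by_cases hi : i ∈ V
    · simp [hi, hθ]
    · by_cases hU : i ∈ U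
      · simp [hi, hU, hθ']
      · simp [hi, hU]
  simp only [h2]
  rw [Finset.prod_mul_distrib]
  simp only [Finset.prod_ite_mem, Finset.univ_inter, Finset.prod_const]
  rw [Finset.card_sdiff_of_subset hV']

theorem prodEval (U : Finset κ) (u : κ → ZMod 3 → ℂ) (hu : ∀ i, (𝔼 s, ‖u i s‖ ^ 2) = 1)
    (h : (κ → ZMod 3) → ℂ) :
    Gam U h (prodf U u) (prodf U u) =
      ∑ V ∈ U.powerset, (2 / 3 : ℝ) ^ V.card * (1 - 2 / 3) ^ (U.card - V.card) *
        Corr V u h := by
  have h0 : (𝔼 s : Equiv.Perm (Fin 3), if s 2 ≠ 2 then (1 : ℝ) else 0) = 2 / 3 := by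
    rw [Fintype.expect_eq_sum_div_card, Finset.sum_boole,
      show (Finset.univ.filter (fun s : Equiv.Perm (Fin 3) => s 2 ≠ 2)).card = 4 by decide,
      show Fintype.card (Equiv.Perm (Fin 3)) = 6 by decide]
    norm_num
  rw [← pe_E_filter (fun s : Equiv.Perm (Fin 3) => s 2 ≠ 2) (2 / 3) h0 U
    (fun V => Corr V u h)]
  have h1 := pe_Gam U u h
  have h2 : ∀ σ : κ → Equiv.Perm (Fin 3), peK U u h σ =
      ((Corr (U.filter (fun i => σ i 2 ≠ 2)) u h : ℝ) : ℂ) := by
    intro σ
    rw [pe_K_eq, pe_Corr U _ (Finset.filter_subset _ _) u hu h]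
  rw [Finset.expect_congr rfl (fun σ _ => h2 σ), ← Complex.ofReal_expect] at h1
  exact_mod_cast h1

end H24AP
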