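import Pool.Agent.H24AP.Basic

/-!
# The symmetrized product `TT`

`TT U h a b` is the average of `F x = a (x 0) * b (x 1) * h (x 2)` over the finite group of
site-dependent permutations of the three copies (at the sites of `U`), which acts by measure
preserving bijections `x ↦ pm U σ x`.  Averaging first over the sites of `V ⊆ U` gives the
monotonicity (Jensen: the square of an average is at most the average of the squares).
-/

namespace H24AP

open Finset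
open scoped BigOperators ComplexConjugate

variable {κ : Type} [Fintype κ] [DecidableEq κ]

/-- Jensen for the square of the norm of an average. -/
theorem Sym_jensen {α : Type} [Fintype α] (f : α → ℂ) :
    ‖𝔼 i, f i‖ ^ 2 ≤ 𝔼 i, ‖f i‖ ^ 2 := by
  classical
  rcases isEmpty_or_nonempty α with hα | hα
  · simp
  have hc : (0 : ℝ) < Fintype.card α := by exact_mod_cast Fintype.card_pos
  have h1 : ‖∑ i, f i‖ ^ 2 ≤ (Fintype.card α : ℝ) * ∑ i, ‖f i‖ ^ 2 := by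
    have h2 : ‖∑ i, f i‖ ≤ ∑ i, ‖f i‖ := norm_sum_le _ _
    have h3 : (∑ i, ‖f i‖) ^ 2 ≤ ((univ : Finset α).card : ℝ) * ∑ i, ‖f i‖ ^ 2 :=
      sq_sum_le_card_mul_sum_sq
    calc ‖∑ i, f i‖ ^ 2 ≤ (∑ i, ‖f i‖) ^ 2 := by gcongr
      _ ≤ _ := h3
  rw [Fintype.expect_eq_sum_div_card, Fintype.expect_eq_sum_div_card, norm_div, div_pow]
  have h4 : ‖(Fintype.card α : ℂ)‖ = (Fintype.card α : ℝ) := by simp
  rw [h4, div_le_div_iff₀ (by positivity) hc]
  calc ‖∑ i, f i‖ ^ 2 * (Fintype.card α : ℝ)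
      ≤ ((Fintype.card α : ℝ) * ∑ i, ‖f i‖ ^ 2) * (Fintype.card α : ℝ) := by gcongr
    _ = (∑ i, ‖f i‖ ^ 2) * (Fintype.card α : ℝ) ^ 2 := by ring

/-- The bijection `x ↦ pm U σ x`. -/
def Sym_pmEquiv (U : Finset κ) (σ : κ → Equiv.Perm (Fin 3)) :
    (Fin 3 → κ → ZMod 3) ≃ (Fin 3 → κ → ZMod 3) where
  toFun := pm U σ
  invFun := pm U (fun i => (σ i).symm)
  left_inv x := by
    funext c i
    by_cases h : i ∈ U <;> simp [pm, h]
  right_inv x := by
    funext c i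
    by_cases h : i ∈ U <;> simp [pm, h]

omit [Fintype κ] in
theorem Sym_pm_empty (σ : κ → Equiv.Perm (Fin 3)) (x : Fin 3 → κ → ZMod 3) :
    pm (∅ : Finset κ) σ x = x := by
  funext c i; simp [pm]

omit [Fintype κ] in
theorem Sym_pm_mix {U V : Finset κ} (hVU : V ⊆ U) (σ τ : κ → Equiv.Perm (Fin 3))
    (x : Fin 3 → κ → ZMod 3) :
    pm U (mix V τ σ) x = pm V τ (pm (U \ V) σ x) := by
  funext c i
  by_cases hV : i ∈ V
  · simp [pm, hV, hVU hV, mix]
  · by_cases hU : i ∈ U <;> simp [pm, hV, hU, mix]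

theorem Sym_TT_split {U V : Finset κ} (hVU : V ⊆ U) (h a b : (κ → ZMod 3) → ℂ)
    (x : Fin 3 → κ → ZMod 3) :
    TT U h a b x = 𝔼 σ : κ → Equiv.Perm (Fin 3), TT V h a b (pm (U \ V) σ x) := by
  have h1 := E_mix (α := Equiv.Perm (Fin 3)) V
    (fun σ : κ → Equiv.Perm (Fin 3) => a (pm U σ x 0) * b (pm U σ x 1) * h (pm U σ x 2))
  unfold TT
  rw [← h1]
  simp only [Sym_pm_mix hVU]
  exact E_comm _

/-- Monotonicity. -/
theorem Gam_mono {U V : Finset κ} (hVU : V ⊆ U) (h a b : (κ → ZMod 3) → ℂ) :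
    Gam U h a b ≤ Gam V h a b := by
  unfold Gam
  calc 𝔼 x : Fin 3 → κ → ZMod 3, ‖TT U h a b x‖ ^ 2
      ≤ 𝔼 x : Fin 3 → κ → ZMod 3, 𝔼 σ : κ → Equiv.Perm (Fin 3),
          ‖TT V h a b (pm (U \ V) σ x)‖ ^ 2 := by
        apply Finset.expect_le_expect
        intro x _
        rw [Sym_TT_split hVU]
        exact Sym_jensen _
    _ = 𝔼 σ : κ → Equiv.Perm (Fin 3), 𝔼 x : Fin 3 → κ → ZMod 3,
          ‖TT V h a b (pm (U \ V) σ x)‖ ^ 2 := E_comm _
    _ = 𝔼 _σ : κ → Equiv.Perm (Fin 3), 𝔼 x : Fin 3 → κ → ZMod 3,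
          ‖TT V h a b x‖ ^ 2 := by
        apply Finset.expect_congr rfl
        intro σ _
        exact E_equiv (Sym_pmEquiv (U \ V) σ) (fun x => ‖TT V h a b x‖ ^ 2)
    _ = 𝔼 x : Fin 3 → κ → ZMod 3, ‖TT V h a b x‖ ^ 2 := by simp

theorem Sym_Gam_empty (h a b : (κ → ZMod 3) → ℂ) :
    Gam ∅ h a b = N2 a * N2 b * N2 h := by
  unfold Gam TT N2
  simp only [Sym_pm_empty]
  have h0 : ∀ x : Fin 3 → κ → ZMod 3,
      ‖𝔼 _σ : κ → Equiv.Perm (Fin 3), a (x 0) * b (x 1) * h (x 2)‖ ^ 2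
        = ‖a (x 0)‖ ^ 2 * (‖b (x 1)‖ ^ 2 * ‖h (x 2)‖ ^ 2) := by
    intro x
    rw [Finset.expect_const univ_nonempty]
    rw [norm_mul, norm_mul]; ring
  simp only [h0]
  let e : (Fin 3 → κ → ZMod 3) ≃ (κ → ZMod 3) × ((κ → ZMod 3) × (κ → ZMod 3)) :=
    { toFun := fun x => (x 0, x 1, x 2)
      invFun := fun p => ![p.1, p.2.1, p.2.2]
      left_inv := fun x => by
        funext c; fin_cases c <;> rfl
      right_inv := fun p => by simp }
  have h1 : 𝔼 x : Fin 3 → κ → ZMod 3, ‖a (x 0)‖ ^ 2 * (‖b (x 1)‖ ^ 2 * ‖h (x 2)‖ ^ 2)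
      = 𝔼 p : (κ → ZMod 3) × ((κ → ZMod 3) × (κ → ZMod 3)),
        ‖a p.1‖ ^ 2 * (‖b p.2.1‖ ^ 2 * ‖h p.2.2‖ ^ 2) :=
    E_equiv e (fun p => ‖a p.1‖ ^ 2 * (‖b p.2.1‖ ^ 2 * ‖h p.2.2‖ ^ 2))
  rw [h1, E_prod (fun (u : κ → ZMod 3) (q : (κ → ZMod 3) × (κ → ZMod 3)) =>
    ‖a u‖ ^ 2 * (‖b q.1‖ ^ 2 * ‖h q.2‖ ^ 2))]
  simp only [← Finset.mul_expect]
  rw [← Finset.expect_mul, E_prod (fun (u v : κ → ZMod 3) => ‖b u‖ ^ 2 * ‖h v‖ ^ 2)]
  simp only [← Finset.mul_expect]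
  rw [← Finset.expect_mul]
  ring

/-- Contraction. -/
theorem Gam_le (U : Finset κ) (h a b : (κ → ZMod 3) → ℂ) :
    Gam U h a b ≤ N2 a * N2 b * N2 h := by
  rw [← Sym_Gam_empty]
  exact Gam_mono (empty_subset U) h a b

/-- Symmetry for functions of the coordinates in `U`: substitute `σ i ↦ swap 0 1 * σ i` or
`σ i * swap 0 1`. -/
theorem TT_symm (U : Finset κ) (h a b : (κ → ZMod 3) → ℂ) (ha : Dep U a) (hb : Dep U b) :
    TT U h a b = TT U h b a := by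
  funext x
  unfold TT
  let e : (κ → Equiv.Perm (Fin 3)) ≃ (κ → Equiv.Perm (Fin 3)) :=
    Equiv.piCongrRight (fun _ => Equiv.mulRight (Equiv.swap 0 1))
  rw [← E_equiv e (fun σ : κ → Equiv.Perm (Fin 3) =>
    a (pm U σ x 0) * b (pm U σ x 1) * h (pm U σ x 2))]
  apply Finset.expect_congr rfl
  intro σ _
  have he : ∀ i, e σ i = σ i * Equiv.swap 0 1 := fun i => rfl
  have h0 : a (pm U (e σ) x 0) = a (pm U σ x 1) := by
    apply ha
    intro i hi
    simp [pm, hi, he]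
  have h1 : b (pm U (e σ) x 1) = b (pm U σ x 0) := by
    apply hb
    intro i hi
    simp [pm, hi, he]
  have h2 : pm U (e σ) x 2 = pm U σ x 2 := by
    funext i
    by_cases hi : i ∈ U
    · have : (Equiv.swap (0 : Fin 3) 1) 2 = 2 := by decide
      simp [pm, hi, he, this]
    · simp [pm, hi]
  rw [h0, h1, h2]
  ring

theorem Gam_nonneg (U : Finset κ) (h a b : (κ → ZMod 3) → ℂ) : 0 ≤ Gam U h a b := by
  unfold Gam
  exact Finset.expect_nonneg (fun x _ => by positivity)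

theorem TT_add_left (U : Finset κ) (h a a' b : (κ → ZMod 3) → ℂ) (x : Fin 3 → κ → ZMod 3) :
    TT U h (a + a') b x = TT U h a b x + TT U h a' b x := by
  unfold TT
  rw [← Finset.expect_add_distrib]
  apply Finset.expect_congr rfl
  intro σ _
  simp only [Pi.add_apply]
  ring

theorem TT_add_right (U : Finset κ) (h a b b' : (κ → ZMod 3) → ℂ) (x : Fin 3 → κ → ZMod 3) :
    TT U h a (b + b') x = TT U h a b x + TT U h a b' x := by
  unfold TT
  rw [← Finset.expect_add_distrib]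
  apply Finset.expect_congr rfl
  intro σ _
  simp only [Pi.add_apply]
  ring

theorem TT_smul_left (U : Finset κ) (h a b : (κ → ZMod 3) → ℂ) (c : ℂ)
    (x : Fin 3 → κ → ZMod 3) :
    TT U h (c • a) b x = c * TT U h a b x := by
  unfold TT
  rw [Finset.mul_expect]
  apply Finset.expect_congr rfl
  intro σ _
  simp only [Pi.smul_apply, smul_eq_mul]
  ring

theorem TT_smul_right (U : Finset κ) (h a b : (κ → ZMod 3) → ℂ) (c : ℂ)
    (x : Fin 3 → κ → ZMod 3) :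
    TT U h a (c • b) x = c * TT U h a b x := by
  unfold TT
  rw [Finset.mul_expect]
  apply Finset.expect_congr rfl
  intro σ _
  simp only [Pi.smul_apply, smul_eq_mul]
  ring

end H24AP
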