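import Pool.Agent.H24AP.Uni
import Pool.Agent.H24AP.Sym

/-!
# From two copies to three copies

`PT h = 𝔼 x x', h x * h x' * G x x'` with `G x x' = 𝔼 A, h (mix A x' x) * h (mix A x x')`
(symmetric in `x, x'`).  With `g x₁ = 𝔼 x₀, h x₀ * G x₀ x₁`: `PT h = 𝔼 h g`, so
`(PT h)^2 ≤ 𝔼 g^2`, and `𝔼 g^2 = 𝔼 x₀ x₁ x₂, (G x₀ x₁ h x₂) (h x₀ G x₁ x₂)`, which is the quadratic
form of the tensor power of `Π01 Π12` at `h h h`, `Π01 = (1 + (01))/2`, `Π12 = (1 + (12))/2`.
On the alphabet `X = Fin 3 → ZMod 3` let `S` be the average of the six permutation matrices; then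
`Π01 Π12 = (1/2) (3 S - ((02) + (02)(12))/2)`; apply `uni` with `E = S`, `O₁ = (02)`,
`O₂ = (02)(12)` (a three-cycle).
The right side of `uni` is the average over `U` of
`𝔼 x, (h h h)(x) * 𝔼 σ, (h h h)(pm U σ x) = Gam U h h h`.
-/

namespace H24AP

open Finset
open scoped BigOperators ComplexConjugate

namespace StarAux

variable {κ : Type} [Fintype κ] [DecidableEq κ]

/-- Permuting the three copies, at every site. -/
def act (σ : κ → Equiv.Perm (Fin 3)) (x : Fin 3 → κ → ZMod 3) : Fin 3 → κ → ZMod 3 :=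
  fun c i => x (σ i c) i

omit [Fintype κ] [DecidableEq κ] in
theorem act_act (σ τ : κ → Equiv.Perm (Fin 3)) (x : Fin 3 → κ → ZMod 3) :
    act τ (act σ x) = act (σ * τ) x := rfl

omit [Fintype κ] [DecidableEq κ] in
theorem act_one (x : Fin 3 → κ → ZMod 3) : act 1 x = x := rfl

/-- The action as a bijection. -/
def actEquiv (σ : κ → Equiv.Perm (Fin 3)) : (Fin 3 → κ → ZMod 3) ≃ (Fin 3 → κ → ZMod 3) where
  toFun := act σ
  invFun := act σ⁻¹
  left_inv x := by rw [act_act, mul_inv_cancel, act_one]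
  right_inv x := by rw [act_act, inv_mul_cancel, act_one]

theorem E_act (σ : κ → Equiv.Perm (Fin 3)) (K : (Fin 3 → κ → ZMod 3) → ℝ) :
    𝔼 x, K (act σ x) = 𝔼 x, K x :=
  E_equiv (actEquiv σ) K

/-- Restricting site permutations to `U`. -/
def cut (U : Finset κ) (σ : κ → Equiv.Perm (Fin 3)) : κ → Equiv.Perm (Fin 3) :=
  fun i => if i ∈ U then σ i else 1

omit [Fintype κ] in
theorem pm_eq (U : Finset κ) (σ : κ → Equiv.Perm (Fin 3)) (x : Fin 3 → κ → ZMod 3) :
    pm U σ x = act (cut U σ) x := by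
  funext c i
  by_cases h : i ∈ U <;> simp [pm, act, cut, h]

omit [Fintype κ] in
theorem cut_mul (U : Finset κ) (σ τ : κ → Equiv.Perm (Fin 3)) :
    cut U σ * cut U τ = cut U (σ * τ) := by
  funext i
  by_cases h : i ∈ U <;> simp [cut, h]

/-- The symmetrization over the sites of `U`. -/
noncomputable def avg (U : Finset κ) (F : (Fin 3 → κ → ZMod 3) → ℝ)
    (x : Fin 3 → κ → ZMod 3) : ℝ :=
  𝔼 σ : κ → Equiv.Perm (Fin 3), F (act (cut U σ) x)

theorem avg_inv (U : Finset κ) (F : (Fin 3 → κ → ZMod 3) → ℝ) (σ : κ → Equiv.Perm (Fin 3))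
    (x : Fin 3 → κ → ZMod 3) : avg U F (act (cut U σ) x) = avg U F x := by
  unfold avg
  simp only [act_act, cut_mul]
  exact E_equiv (Equiv.mulLeft σ) (fun τ => F (act (cut U τ) x))

theorem avg_sq (U : Finset κ) (F : (Fin 3 → κ → ZMod 3) → ℝ) :
    𝔼 x, avg U F x ^ 2 = 𝔼 x, F x * avg U F x := by
  have h1 : ∀ x, avg U F x ^ 2 =
      𝔼 σ : κ → Equiv.Perm (Fin 3), F (act (cut U σ) x) * avg U F (act (cut U σ) x) := by
    intro x
    simp only [avg_inv]
    rw [← Finset.expect_mul, sq]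
    rfl
  simp only [h1]
  rw [E_comm]
  simp only [E_act (cut U _) (fun x => F x * avg U F x)]
  simp

/-- The product function. -/
def FF (h : (κ → ZMod 3) → ℝ) (x : Fin 3 → κ → ZMod 3) : ℝ := h (x 0) * h (x 1) * h (x 2)

theorem Gam_eq (U : Finset κ) (h : (κ → ZMod 3) → ℝ) :
    Gam U (fun x => (h x : ℂ)) (fun x => (h x : ℂ)) (fun x => (h x : ℂ)) =
      𝔼 x, FF h x * avg U (FF h) x := by
  rw [← avg_sq]
  unfold Gam
  refine Finset.expect_congr rfl fun x _ => ?_
  have h1 : TT U (fun x => (h x : ℂ)) (fun x => (h x : ℂ)) (fun x => (h x : ℂ)) x =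
      ((avg U (FF h) x : ℝ) : ℂ) := by
    unfold TT avg FF
    simp only [pm_eq]
    push_cast
    rfl
  rw [h1, Complex.norm_real, Real.norm_eq_abs, sq_abs]

/-! ### permutation matrices -/

/-- The permutation matrix. -/
def Pm (π : Equiv.Perm (Fin 3)) : Matrix (Fin 3 → ZMod 3) (Fin 3 → ZMod 3) ℝ :=
  fun x y => if y = (fun c => x (π c)) then 1 else 0

theorem Pm_mul (π τ : Equiv.Perm (Fin 3)) : Pm π * Pm τ = Pm (π * τ) := by
  ext x y
  rw [Matrix.mul_apply]
  unfold Pm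
  simp only [ite_mul, one_mul, zero_mul, Finset.sum_ite_eq', Finset.mem_univ, if_true]
  rfl

theorem Pm_one : Pm 1 = 1 := by
  ext x y
  unfold Pm
  rw [Matrix.one_apply]
  by_cases h : x = y
  · simp [h]
  · have : ¬ y = x := fun h' => h h'.symm
    simp [h, this]

theorem Pm_transpose (π : Equiv.Perm (Fin 3)) : (Pm π).transpose = Pm π⁻¹ := by
  ext x y
  rw [Matrix.transpose_apply]
  unfold Pm
  have : (x = fun c => y (π c)) ↔ (y = fun c => x (π⁻¹ c)) := by
    constructor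
    · intro h
      funext c
      rw [h]
      simp
    · intro h
      funext c
      rw [h]
      simp
  simp only [this]

/-- The symmetrizer. -/
noncomputable def Sm : Matrix (Fin 3 → ZMod 3) (Fin 3 → ZMod 3) ℝ :=
  (1 / 6 : ℝ) • ∑ π : Equiv.Perm (Fin 3), Pm π

theorem Pm_Sm (π : Equiv.Perm (Fin 3)) : Pm π * Sm = Sm := by
  unfold Sm
  rw [Matrix.mul_smul, Finset.mul_sum]
  simp only [Pm_mul]
  congr 1
  exact Equiv.sum_comp (Equiv.mulLeft π) Pm

theorem Sm_Sm : Sm * Sm = Sm := by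
  conv_lhs => enter [1]; unfold Sm
  rw [Matrix.smul_mul, Finset.sum_mul]
  simp only [Pm_Sm]
  rw [Finset.sum_const, Finset.card_univ, Fintype.card_perm, Fintype.card_fin, ← Nat.cast_smul_eq_nsmul ℝ,
    smul_smul]
  norm_num [Nat.factorial]

theorem Sm_transpose : Sm.transpose = Sm := by
  unfold Sm
  rw [Matrix.transpose_smul, Matrix.transpose_sum]
  simp only [Pm_transpose]
  congr 1
  exact Equiv.sum_comp (Equiv.inv (Equiv.Perm (Fin 3))) Pm

theorem Pm_orth (π : Equiv.Perm (Fin 3)) : (Pm π).transpose * Pm π = 1 := by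
  rw [Pm_transpose, Pm_mul, inv_mul_cancel, Pm_one]

/-- The four products. -/
def sq4 (o : Bool × Bool) : Equiv.Perm (Fin 3) :=
  (if o.1 then Equiv.swap 0 1 else 1) * (if o.2 then Equiv.swap 1 2 else 1)

theorem site_eq : (1 / 2 : ℝ) • ((3 : ℝ) • Sm - (1 / 2 : ℝ) • (Pm (Equiv.swap 0 2) +
    Pm (Equiv.swap 1 2 * Equiv.swap 0 1))) = (1 / 4 : ℝ) • ∑ o : Bool × Bool, Pm (sq4 o) := by
  have h1 : (∑ π : Equiv.Perm (Fin 3), Pm π) = (∑ o : Bool × Bool, Pm (sq4 o)) +
      (Pm (Equiv.swap 0 2) + Pm (Equiv.swap 1 2 * Equiv.swap 0 1)) := by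
    have h2 : (Finset.univ : Finset (Equiv.Perm (Fin 3))) =
        {sq4 (false, false), sq4 (false, true), sq4 (true, false), sq4 (true, true),
          Equiv.swap 0 2, Equiv.swap 1 2 * Equiv.swap 0 1} := by decide
    rw [h2, Fintype.sum_prod_type]
    simp only [Fintype.sum_bool]
    rw [Finset.sum_insert (by decide), Finset.sum_insert (by decide),
      Finset.sum_insert (by decide), Finset.sum_insert (by decide),
      Finset.sum_insert (by decide), Finset.sum_singleton]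
    abel
  unfold Sm
  rw [h1]
  module

/-- Expanding a product of sums of permutation matrices. -/
theorem expand_prod {O : Type} [Fintype O] [DecidableEq O] (s : κ → O → Equiv.Perm (Fin 3))
    (x : κ → Fin 3 → ZMod 3) (Ψ : (κ → Fin 3 → ZMod 3) → ℝ) :
    ∑ y, (∏ i, (∑ o, Pm (s i o)) (x i) (y i)) * Ψ y =
      ∑ ω : κ → O, Ψ (fun i c => x i (s i (ω i) c)) := by
  have h1 : ∀ y : κ → Fin 3 → ZMod 3, (∏ i, (∑ o, Pm (s i o)) (x i) (y i)) =
      ∑ ω : κ → O, ∏ i, Pm (s i (ω i)) (x i) (y i) := by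
    intro y
    simp only [Matrix.sum_apply]
    exact Fintype.prod_sum (fun i o => Pm (s i o) (x i) (y i))
  simp only [h1, Finset.sum_mul]
  rw [Finset.sum_comm]
  refine Finset.sum_congr rfl fun ω _ => ?_
  have h2 : ∀ y : κ → Fin 3 → ZMod 3, (∏ i, Pm (s i (ω i)) (x i) (y i)) =
      if y = (fun i c => x i (s i (ω i) c)) then 1 else 0 := by
    intro y
    unfold Pm
    rw [Finset.prod_ite_zero]
    simp only [Finset.mem_univ, forall_true_left, Finset.prod_const_one]
    have : (∀ i, y i = fun c => x i (s i (ω i) c)) ↔ y = (fun i c => x i (s i (ω i) c)) :=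
      ⟨fun h => funext h, fun h i => congrFun h i⟩
    simp only [this]
  simp only [h2, ite_mul, one_mul, zero_mul, Finset.sum_ite_eq', Finset.mem_univ, if_true]

/-- Exchanging copies and sites. -/
def flip3 : (κ → Fin 3 → ZMod 3) ≃ (Fin 3 → κ → ZMod 3) where
  toFun x := fun c i => x i c
  invFun x := fun i c => x c i
  left_inv _ := rfl
  right_inv _ := rfl

theorem E_flip3 (K : (Fin 3 → κ → ZMod 3) → ℝ) :
    𝔼 x : κ → Fin 3 → ZMod 3, K (fun c i => x i c) = 𝔼 x, K x :=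
  E_equiv flip3 K

/-- The averages over `Fin 3`. -/
theorem E_three {Y : Type} [Fintype Y] (K : Y → Y → Y → ℝ) :
    𝔼 x : Fin 3 → Y, K (x 0) (x 1) (x 2) = 𝔼 a, 𝔼 b, 𝔼 c, K a b c := by
  let e : (Fin 3 → Y) ≃ Y × Y × Y :=
    { toFun := fun x => (x 0, x 1, x 2)
      invFun := fun p => ![p.1, p.2.1, p.2.2]
      left_inv := fun x => by
        funext c
        fin_cases c <;> rfl
      right_inv := fun p => rfl }
  have h1 : 𝔼 x : Fin 3 → Y, K (x 0) (x 1) (x 2) =
      𝔼 p : Y × Y × Y, K p.1 p.2.1 p.2.2 := E_equiv e (fun p => K p.1 p.2.1 p.2.2)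
  rw [h1, E_prod (fun a (q : Y × Y) => K a q.1 q.2)]
  refine Finset.expect_congr rfl fun a _ => ?_
  exact E_prod (fun b c => K a b c)

/-- Averages over pairs of sets of sites. -/
theorem E_sets (K : (κ → Bool × Bool) → ℝ) :
    𝔼 A : Finset κ, 𝔼 B : Finset κ, K (fun i => (decide (i ∈ A), decide (i ∈ B))) =
      𝔼 ω, K ω := by
  let e : Finset κ × Finset κ ≃ (κ → Bool × Bool) :=
    { toFun := fun p i => (decide (i ∈ p.1), decide (i ∈ p.2))
      invFun := fun ω => (univ.filter fun i => (ω i).1 = true, univ.filter fun i => (ω i).2 = true)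
      left_inv := fun p => by
        ext i <;> simp
      right_inv := fun ω => by
        funext i
        ext <;> simp }
  rw [← E_prod (fun A B : Finset κ => K (fun i => (decide (i ∈ A), decide (i ∈ B))))]
  exact E_equiv e K

/-- The kernel. -/
noncomputable def GG (h : (κ → ZMod 3) → ℝ) (x x' : κ → ZMod 3) : ℝ :=
  𝔼 A : Finset κ, h (mix A x' x) * h (mix A x x')

theorem GG_symm (h : (κ → ZMod 3) → ℝ) (x x' : κ → ZMod 3) : GG h x x' = GG h x' x := by
  unfold GG
  refine Finset.expect_congr rfl fun A _ => mul_comm _ _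

theorem PT_eq (h : (κ → ZMod 3) → ℝ) :
    PT h = 𝔼 x : κ → ZMod 3, 𝔼 x' : κ → ZMod 3, h x * h x' * GG h x x' := by
  have h1 : (𝔼 x : κ → ZMod 3, 𝔼 x' : κ → ZMod 3, h x * h x' * GG h x x') =
      𝔼 V : Finset κ, 𝔼 x : κ → ZMod 3, 𝔼 x' : κ → ZMod 3,
        h x * h x' * (h (mix V x' x) * h (mix V x x')) := by
    unfold GG
    simp only [Finset.mul_expect]
    rw [E_comm]
    have h2 : ∀ x : κ → ZMod 3, (𝔼 x' : κ → ZMod 3, 𝔼 V : Finset κ,
        h x' * h x * (h (mix V x x') * h (mix V x' x))) =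
        𝔼 V : Finset κ, 𝔼 x' : κ → ZMod 3,
          h x' * h x * (h (mix V x x') * h (mix V x' x)) := fun x => E_comm _
    simp only [h2]
    rw [E_comm]
    refine Finset.expect_congr rfl fun V _ => ?_
    exact E_comm _
  rw [h1]
  unfold PT
  refine Finset.expect_congr rfl fun V _ => ?_
  unfold Box
  have h3 : (𝔼 x : κ → ZMod 3, 𝔼 x' : κ → ZMod 3,
      h x * h x' * (h (mix V x' x) * h (mix V x x'))) =
      𝔼 v : κ → ZMod 3, 𝔼 p : κ → ZMod 3, 𝔼 v' : κ → ZMod 3, 𝔼 q : κ → ZMod 3,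
        h (mix V v p) * h (mix V v' q) * (h (mix V v' p) * h (mix V v q)) := by
    rw [← E_mix V]
    refine Finset.expect_congr rfl fun v _ => Finset.expect_congr rfl fun p _ => ?_
    rw [← E_mix V]
    refine Finset.expect_congr rfl fun v' _ => Finset.expect_congr rfl fun q _ => ?_
    rw [mix_mix_left, mix_mix_right, mix_mix_left, mix_mix_right]
  rw [h3]
  refine Finset.expect_congr rfl fun v _ => ?_
  rw [E_comm (fun p v' => 𝔼 q : κ → ZMod 3,
    h (mix V v p) * h (mix V v' q) * (h (mix V v' p) * h (mix V v q)))]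
  refine Finset.expect_congr rfl fun v' _ => ?_
  rw [sq, Finset.expect_mul]
  refine Finset.expect_congr rfl fun p _ => ?_
  rw [Finset.mul_expect]
  refine Finset.expect_congr rfl fun q _ => ?_
  ring

/-- Swapping copies `0, 1` on `A`. -/
def sA (A : Finset κ) : κ → Equiv.Perm (Fin 3) := fun i => if i ∈ A then Equiv.swap 0 1 else 1

/-- Swapping copies `1, 2` on `A`. -/
def sB (A : Finset κ) : κ → Equiv.Perm (Fin 3) := fun i => if i ∈ A then Equiv.swap 1 2 else 1

omit [Fintype κ] in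
theorem sA_sq (A : Finset κ) : sA A * sA A = 1 := by
  funext i
  by_cases h : i ∈ A <;> simp [sA, h]

omit [Fintype κ] in
theorem FF_sA (h : (κ → ZMod 3) → ℝ) (A : Finset κ) (x : Fin 3 → κ → ZMod 3) :
    FF h (act (sA A) x) = h (mix A (x 1) (x 0)) * h (mix A (x 0) (x 1)) * h (x 2) := by
  have h0 : act (sA A) x 0 = mix A (x 1) (x 0) := by
    funext i
    by_cases h : i ∈ A <;> simp [sA, act, h]
  have h1 : act (sA A) x 1 = mix A (x 0) (x 1) := by
    funext i
    by_cases h : i ∈ A <;> simp [sA, act, h]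
  have h2 : act (sA A) x 2 = x 2 := by
    funext i
    by_cases h : i ∈ A
    · simp only [sA, act, h, if_true]
      rw [Equiv.swap_apply_of_ne_of_ne (by decide) (by decide)]
    · simp [sA, act, h]
  unfold FF
  rw [h0, h1, h2]

omit [Fintype κ] in
theorem FF_sB (h : (κ → ZMod 3) → ℝ) (A : Finset κ) (x : Fin 3 → κ → ZMod 3) :
    FF h (act (sB A) x) = h (x 0) * (h (mix A (x 2) (x 1)) * h (mix A (x 1) (x 2))) := by
  have h0 : act (sB A) x 0 = x 0 := by
    funext i
    by_cases h : i ∈ A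
    · simp only [sB, act, h, if_true]
      rw [Equiv.swap_apply_of_ne_of_ne (by decide) (by decide)]
    · simp [sB, act, h]
  have h1 : act (sB A) x 1 = mix A (x 2) (x 1) := by
    funext i
    by_cases h : i ∈ A <;> simp [sB, act, h]
  have h2 : act (sB A) x 2 = mix A (x 1) (x 2) := by
    funext i
    by_cases h : i ∈ A <;> simp [sB, act, h]
  unfold FF
  rw [h0, h1, h2]
  ring

theorem sq_le (h : (κ → ZMod 3) → ℝ) (hh : ∀ x, |h x| ≤ 1) :
    (PT h) ^ 2 ≤ 𝔼 x : Fin 3 → κ → ZMod 3, FF h x *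
      𝔼 ω : κ → Bool × Bool, FF h (act (fun i => sq4 (ω i)) x) := by
  have h1 : PT h = 𝔼 b : κ → ZMod 3, h b * 𝔼 a : κ → ZMod 3, h a * GG h a b := by
    rw [PT_eq, E_comm]
    refine Finset.expect_congr rfl fun b _ => ?_
    rw [Finset.mul_expect]
    refine Finset.expect_congr rfl fun a _ => ?_
    ring
  have h2 : (PT h) ^ 2 ≤ 𝔼 b : κ → ZMod 3, (𝔼 a : κ → ZMod 3, h a * GG h a b) ^ 2 := by
    rw [h1]
    refine (Finset.expect_mul_sq_le_sq_mul_sq _ _ _).trans ?_
    have h3 : (𝔼 b : κ → ZMod 3, h b ^ 2) ≤ 1 := by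
      refine Finset.expect_le Finset.univ_nonempty fun b _ => ?_
      rw [← sq_abs]
      exact pow_le_one₀ (abs_nonneg _) (hh b)
    have h4 : 0 ≤ 𝔼 b : κ → ZMod 3, (𝔼 a : κ → ZMod 3, h a * GG h a b) ^ 2 :=
      Finset.expect_nonneg fun b _ => sq_nonneg _
    calc _ ≤ 1 * (𝔼 b : κ → ZMod 3, (𝔼 a : κ → ZMod 3, h a * GG h a b) ^ 2) := by
          gcongr
      _ = _ := one_mul _
  refine h2.trans (le_of_eq ?_)
  have h5 : (𝔼 b : κ → ZMod 3, (𝔼 a : κ → ZMod 3, h a * GG h a b) ^ 2) =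
      𝔼 x : Fin 3 → κ → ZMod 3, (GG h (x 0) (x 1) * h (x 2)) * (h (x 0) * GG h (x 1) (x 2)) := by
    rw [E_three (fun a b c => (GG h a b * h c) * (h a * GG h b c)), E_comm]
    refine Finset.expect_congr rfl fun b _ => ?_
    rw [sq, Finset.expect_mul]
    refine Finset.expect_congr rfl fun a _ => ?_
    rw [Finset.mul_expect]
    refine Finset.expect_congr rfl fun c _ => ?_
    rw [GG_symm h c b]
    ring
  rw [h5]
  have h6 : ∀ x : Fin 3 → κ → ZMod 3, (GG h (x 0) (x 1) * h (x 2)) * (h (x 0) * GG h (x 1) (x 2)) =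
      𝔼 A : Finset κ, 𝔼 B : Finset κ, FF h (act (sA A) x) * FF h (act (sB B) x) := by
    intro x
    unfold GG
    rw [Finset.expect_mul, Finset.mul_expect, Finset.expect_mul]
    refine Finset.expect_congr rfl fun A _ => ?_
    rw [Finset.mul_expect]
    refine Finset.expect_congr rfl fun B _ => ?_
    rw [FF_sA, FF_sB]
  simp only [h6]
  have h7 : (𝔼 x : Fin 3 → κ → ZMod 3, 𝔼 A : Finset κ, 𝔼 B : Finset κ,
      FF h (act (sA A) x) * FF h (act (sB B) x)) =
      𝔼 A : Finset κ, 𝔼 B : Finset κ, 𝔼 x : Fin 3 → κ → ZMod 3,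
        FF h x * FF h (act (sA A * sB B) x) := by
    rw [E_comm]
    refine Finset.expect_congr rfl fun A _ => ?_
    rw [E_comm]
    refine Finset.expect_congr rfl fun B _ => ?_
    rw [← E_act (sA A) (fun x => FF h x * FF h (act (sA A * sB B) x))]
    refine Finset.expect_congr rfl fun x _ => ?_
    rw [act_act, ← mul_assoc, sA_sq, one_mul]
  rw [h7]
  have h8 : ∀ A B : Finset κ, sA A * sB B =
      fun i => sq4 (decide (i ∈ A), decide (i ∈ B)) := by
    intro A B
    funext i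
    simp [sA, sB, sq4]
  simp only [h8]
  rw [E_sets (fun ω => 𝔼 x : Fin 3 → κ → ZMod 3, FF h x * FF h (act (fun i => sq4 (ω i)) x)),
    E_comm]
  refine Finset.expect_congr rfl fun x _ => ?_
  rw [Finset.mul_expect]

/-- The quadratic form of a tensor power of averages of permutation matrices. -/
theorem quad_eq {O : Type} [Fintype O] [DecidableEq O] [Nonempty O] (s : κ → O → Equiv.Perm (Fin 3))
    (F : (Fin 3 → κ → ZMod 3) → ℝ) (c : ℝ) (hc : c = 1 / Fintype.card O) :
    ∑ x : κ → Fin 3 → ZMod 3, ∑ y : κ → Fin 3 → ZMod 3, F (fun c i => x i c) *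
      (∏ i, (c • ∑ o, Pm (s i o)) (x i) (y i)) * F (fun c i => y i c) =
    Fintype.card (κ → Fin 3 → ZMod 3) * 𝔼 x : Fin 3 → κ → ZMod 3, F x *
      𝔼 ω : κ → O, F (act (fun i => s i (ω i)) x) := by
  rw [← E_flip3, Fintype.card_mul_expect]
  refine Finset.sum_congr rfl fun x _ => ?_
  have h1 : ∀ y : κ → Fin 3 → ZMod 3, F (fun c i => x i c) *
      (∏ i, (c • ∑ o, Pm (s i o)) (x i) (y i)) * F (fun c i => y i c) =
      F (fun c i => x i c) * (c ^ Fintype.card κ * ((∏ i, (∑ o, Pm (s i o)) (x i) (y i)) *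
        F (fun c i => y i c))) := by
    intro y
    have h2 : (∏ i, (c • ∑ o, Pm (s i o)) (x i) (y i)) =
        c ^ Fintype.card κ * ∏ i, (∑ o, Pm (s i o)) (x i) (y i) := by
      simp only [Matrix.smul_apply, smul_eq_mul]
      rw [Finset.prod_mul_distrib, Finset.prod_const, Finset.card_univ]
    rw [h2]
    ring
  simp only [h1]
  rw [← Finset.mul_sum, ← Finset.mul_sum, expand_prod s x (fun y => F (fun c i => y i c)),
    Fintype.expect_eq_sum_div_card]
  congr 1
  rw [Fintype.card_fun, hc]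
  push_cast
  rw [one_div, inv_pow, div_eq_inv_mul]
  rfl

end StarAux

open StarAux

theorem star {κ : Type} [Fintype κ] [DecidableEq κ] (h : (κ → ZMod 3) → ℝ)
    (hh : ∀ x, |h x| ≤ 1) :
    (PT h) ^ 2 ≤ 𝔼 U : Finset κ,
      Gam U (fun x => (h x : ℂ)) (fun x => (h x : ℂ)) (fun x => (h x : ℂ)) := by
  refine (sq_le h hh).trans ?_
  have hu := uni (ι := κ) Sm (Pm (Equiv.swap 0 2)) (Pm (Equiv.swap 1 2 * Equiv.swap 0 1))
    Sm_Sm Sm_transpose (Pm_orth _) (Pm_Sm _) (Pm_orth _) (Pm_Sm _)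
    (fun x => FF h (fun c i => x i c))
  rw [site_eq, StarAux.quad_eq (fun _ => sq4) (FF h) (1 / 4) (by norm_num)] at hu
  have hV : ∀ V : Finset κ, ∑ x : κ → Fin 3 → ZMod 3, ∑ y : κ → Fin 3 → ZMod 3,
      FF h (fun c i => x i c) * (∏ i, (if i ∈ V then Sm else
        (1 : Matrix (Fin 3 → ZMod 3) (Fin 3 → ZMod 3) ℝ)) (x i) (y i)) *
          FF h (fun c i => y i c) =
      Fintype.card (κ → Fin 3 → ZMod 3) *
        Gam V (fun x => (h x : ℂ)) (fun x => (h x : ℂ)) (fun x => (h x : ℂ)) := by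
    intro V
    have hq := StarAux.quad_eq (fun (i : κ) (π : Equiv.Perm (Fin 3)) => if i ∈ V then π else 1) (FF h)
      (1 / 6) (by rw [Fintype.card_perm, Fintype.card_fin]; norm_num [Nat.factorial])
    rw [Gam_eq]
    have h3 : ∀ i, (if i ∈ V then Sm else
        (1 : Matrix (Fin 3 → ZMod 3) (Fin 3 → ZMod 3) ℝ)) =
        (1 / 6 : ℝ) • ∑ π : Equiv.Perm (Fin 3), Pm (if i ∈ V then π else 1) := by
      intro i
      by_cases hi : i ∈ V
      · simp only [hi, if_true]
        rfl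
      · simp only [hi, if_false]
        rw [Finset.sum_const, Finset.card_univ, Fintype.card_perm, Fintype.card_fin, Pm_one,
          ← Nat.cast_smul_eq_nsmul ℝ, smul_smul]
        norm_num [Nat.factorial]
    simp only [h3]
    exact hq
  simp only [hV] at hu
  rw [← Finset.mul_expect] at hu
  have hpos : (0 : ℝ) < Fintype.card (κ → Fin 3 → ZMod 3) := by
    exact_mod_cast Fintype.card_pos
  exact le_of_mul_le_mul_left ((le_abs_self _).trans hu) hpos

end H24AP
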