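import Pool.Agent.H24AP.Cheb
import Pool.Agent.H24AP.Star
import Pool.Agent.H24AP.Polar
import Pool.Agent.H24AP.GamMax
import Pool.Agent.H24AP.Penalty
import Pool.Agent.H24AP.Greedy
import Pool.Agent.H24AP.NearProd
import Pool.Agent.H24AP.ProdEval

/-!
# A function passing the product test correlates with a product function on many sites

`star` and `cheb_half` give `U₀` with `Gam U₀ h h h ≥ ε²/2`, `|U₀| ≥ |κ|/4`; `T3_le` gives
`gam U₀ ≥ ε²/4`; `greedy` gives `U`; take a maximizer `φ` of `gam U`.  By `Gam_mono` and `penalty`,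
`2 gam U ≤ gam (U.erase i) (1 + Rr i φ)`, i.e. `1 - Rr i φ ≤ 2 (gam (U.erase i) - gam U)/gam (U.erase i)`,
so `∑ (1 - Rr i φ) ≤ 1/32`.  `nearProd` gives `u`, `c`; with `ψ = φ - c P`,
`TT φ φ = TT (cP) (cP) + TT ψ φ + TT (cP) ψ`, `Gam U ψ φ, Gam U (cP) ψ ≤ 2 gam U / 32` (`polar`), so
`gam U ≤ 2 Gam U P P + gam U / 2`.  Then `prodEval`, `cheb_pick` with `p = 2/3`.
-/

namespace H24AP

open Finset
open scoped BigOperators ComplexConjugate

section aux

variable {κ : Type} [Fintype κ] [DecidableEq κ]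

theorem findU_N2_le (h : (κ → ZMod 3) → ℂ) (hh : ∀ x, ‖h x‖ ≤ 1) : N2 h ≤ 1 := by
  unfold N2
  refine (Finset.expect_le_expect (g := fun _ => (1 : ℝ)) fun x _ => ?_).trans
    (le_of_eq (Finset.expect_const univ_nonempty _))
  exact pow_le_one₀ (norm_nonneg _) (hh x)

theorem findU_N2_nonneg (h : (κ → ZMod 3) → ℂ) : 0 ≤ N2 h :=
  Finset.expect_nonneg fun _ _ => sq_nonneg _

theorem findU_N2_smul (c : ℂ) (h : (κ → ZMod 3) → ℂ) : N2 (c • h) = ‖c‖ ^ 2 * N2 h := by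
  unfold N2
  rw [Finset.mul_expect]
  refine Finset.expect_congr rfl fun x _ => ?_
  simp [mul_pow]

theorem findU_Gam_smul (U : Finset κ) (h a : (κ → ZMod 3) → ℂ) (c : ℂ) (hc : ‖c‖ ≤ 1) :
    Gam U h (c • a) (c • a) ≤ Gam U h a a := by
  unfold Gam
  refine Finset.expect_le_expect fun x _ => ?_
  rw [TT_smul_left, TT_smul_right, norm_mul, norm_mul]
  have h0 := norm_nonneg (TT U h a a x)
  have h1 := norm_nonneg c
  have h2 : ‖c‖ * (‖c‖ * ‖TT U h a a x‖) ≤ ‖TT U h a a x‖ := by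
    calc ‖c‖ * (‖c‖ * ‖TT U h a a x‖) ≤ 1 * (1 * ‖TT U h a a x‖) := by gcongr
      _ = _ := by ring
  gcongr

theorem findU_step (U : Finset κ) (i : κ) (hi : i ∈ U) (h : (κ → ZMod 3) → ℂ)
    (φ : (κ → ZMod 3) → ℂ) (hφ : Dep U φ) (hN : N2 φ ≤ 1) (hg : gam U h = Gam U h φ φ) :
    2 * gam U h ≤ gam (U.erase i) h * (1 + Rr i φ) := by
  have h1 : Gam U h φ φ ≤ Gam (U.erase i) h φ φ := Gam_mono (Finset.erase_subset i U) h φ φ
  have h2 := penalty U i hi h (gam (U.erase i) h) (fun ψ hψ => gam_bound _ h ψ hψ) φ hφ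
  have h3 : (N2 φ) ^ 2 ≤ 1 := pow_le_one₀ (findU_N2_nonneg φ) hN
  have h4 := gam_nonneg (U.erase i) h
  calc 2 * gam U h ≤ 2 * Gam (U.erase i) h φ φ := by rw [hg]; linarith
    _ ≤ gam (U.erase i) h * ((N2 φ) ^ 2 + Rr i φ) := h2
    _ ≤ gam (U.erase i) h * (1 + Rr i φ) := by
        apply mul_le_mul_of_nonneg_left _ h4
        linarith

theorem findU_erase (U : Finset κ) (i : κ) (hi : i ∈ U) (h : (κ → ZMod 3) → ℂ) :
    gam U h ≤ gam (U.erase i) h := by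
  obtain ⟨φ, hφ, hN, hg⟩ := gam_attained U h
  have h1 := findU_step U i hi h φ hφ hN hg
  obtain ⟨v, _, hv⟩ := exists_unit i φ hN
  have h2 := findU_N2_nonneg (φ - Qs i v φ)
  have h4 := gam_nonneg (U.erase i) h
  have h5 : gam (U.erase i) h * (1 + Rr i φ) ≤ gam (U.erase i) h * 2 := by
    apply mul_le_mul_of_nonneg_left _ h4
    linarith
  linarith

theorem findU_anti (h : (κ → ZMod 3) → ℂ) : ∀ (n : ℕ) (U V : Finset κ), V ⊆ U →
    (U \ V).card = n → gam U h ≤ gam V h := by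
  intro n
  induction n with
  | zero =>
    intro U V hVU hn
    have : U ⊆ V := by
      rw [Finset.card_eq_zero, Finset.sdiff_eq_empty_iff_subset] at hn
      exact hn
    rw [Finset.Subset.antisymm this hVU]
  | succ n ih =>
    intro U V hVU hn
    have hne : (U \ V).Nonempty := by
      rw [← Finset.card_pos, hn]; exact Nat.succ_pos n
    obtain ⟨i, hi⟩ := hne
    rw [Finset.mem_sdiff] at hi
    refine (findU_erase U i hi.1 h).trans (ih (U.erase i) V ?_ ?_)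
    · intro j hj
      refine Finset.mem_erase.mpr ⟨fun hji => hi.2 (hji ▸ hj), hVU hj⟩
    · have : (U.erase i) \ V = (U \ V).erase i := by
        ext j
        simp only [Finset.mem_sdiff, Finset.mem_erase]
        tauto
      rw [this, Finset.card_erase_of_mem (Finset.mem_sdiff.mpr hi), hn]
      rfl

theorem findU_three (U : Finset κ) (h φ a ψ : (κ → ZMod 3) → ℂ) (hφ : φ = a + ψ) :
    Gam U h φ φ ≤ 2 * Gam U h a a + 4 * Gam U h a ψ + 4 * Gam U h ψ φ := by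
  unfold Gam
  rw [Finset.mul_expect, Finset.mul_expect, Finset.mul_expect, ← Finset.expect_add_distrib,
    ← Finset.expect_add_distrib]
  refine Finset.expect_le_expect fun x _ => ?_
  have e1 : TT U h φ φ x = TT U h a a x + TT U h a ψ x + TT U h ψ φ x := by
    have s1 : TT U h φ φ x = TT U h (a + ψ) φ x := by rw [← hφ]
    have s2 : TT U h a φ x = TT U h a (a + ψ) x := by rw [← hφ]
    rw [s1, TT_add_left, s2, TT_add_right]
  rw [e1]
  generalize TT U h a a x = A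
  generalize TT U h a ψ x = B
  generalize TT U h ψ φ x = C
  have n1 : ‖A + B + C‖ ≤ ‖A‖ + ‖B‖ + ‖C‖ := norm_add₃_le
  have n2 : ‖A + B + C‖ ^ 2 ≤ (‖A‖ + ‖B‖ + ‖C‖) ^ 2 := by
    have := norm_nonneg (A + B + C)
    gcongr
  nlinarith [sq_nonneg (‖A‖ - ‖B‖ - ‖C‖), sq_nonneg (‖B‖ - ‖C‖)]

end aux

theorem findU {κ : Type} [Fintype κ] [DecidableEq κ] (h : (κ → ZMod 3) → ℝ)
    (hh : ∀ x, |h x| ≤ 1) (ε : ℝ) (hε : 0 < ε) (hε1 : ε ≤ 1) (hP : ε ≤ PT h)
    (hn : 10 ^ 50 * (1 / ε) ^ 140 ≤ (Fintype.card κ : ℝ)) :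
    ∃ (U : Finset κ) (u : κ → ZMod 3 → ℂ), (∀ i, (𝔼 s, ‖u i s‖ ^ 2) = 1) ∧
      ε ^ 130 / 2 ^ 140 * (Fintype.card κ : ℝ) ≤ (U.card : ℝ) ∧
      ε ^ 2 / 32 ≤ Corr U u (fun x => (h x : ℂ)) := by
  classical
  set N : ℝ := (Fintype.card κ : ℝ) with hN
  have hNe : (10 : ℝ) ^ 50 ≤ N * ε ^ 130 := by
    have h1 : (1 : ℝ) ≤ 1 / ε := by rw [le_div_iff₀ hε]; linarith
    have h2 : (1 / ε) ^ 130 ≤ (1 / ε) ^ 140 := pow_le_pow_right₀ h1 (by norm_num)
    have h3 : (1 / ε) ^ 130 * ε ^ 130 = 1 := by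
      rw [← mul_pow, one_div_mul_cancel hε.ne', one_pow]
    have h4 : (10 : ℝ) ^ 50 * (1 / ε) ^ 130 ≤ N := by
      refine le_trans ?_ hn
      exact mul_le_mul_of_nonneg_left h2 (by positivity)
    calc (10 : ℝ) ^ 50 = 10 ^ 50 * (1 / ε) ^ 130 * ε ^ 130 := by rw [mul_assoc, h3, mul_one]
      _ ≤ N * ε ^ 130 := mul_le_mul_of_nonneg_right h4 (by positivity)
  have hN0 : 0 < N := by
    by_contra hcon
    push Not at hcon
    have : N * ε ^ 130 ≤ 0 := mul_nonpos_of_nonpos_of_nonneg hcon (by positivity)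
    have h5 : (0 : ℝ) < 10 ^ 50 := by positivity
    linarith
  set hc : (κ → ZMod 3) → ℂ := fun x => (h x : ℂ) with hhc
  have hhc1 : ∀ x, ‖hc x‖ ≤ 1 := by
    intro x
    rw [hhc]
    simp only [Complex.norm_real, Real.norm_eq_abs]
    exact hh x
  have hN2h : N2 hc ≤ 1 := findU_N2_le hc hhc1
  -- step 1
  have hstar := star h hh
  have hsq : ε ^ 2 ≤ 𝔼 U : Finset κ, Gam U hc hc hc := by
    refine le_trans ?_ hstar
    gcongr
  have hGam1 : ∀ U : Finset κ, Gam U hc hc hc ≤ 1 := by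
    intro U
    have h0 := findU_N2_nonneg hc
    refine (Gam_le U hc hc hc).trans ?_
    calc N2 hc * N2 hc * N2 hc ≤ 1 * 1 * 1 := by gcongr
      _ = 1 := by ring
  have hε130 : ε ^ 130 ≤ ε ^ 2 := pow_le_pow_of_le_one hε.le hε1 (by norm_num)
  have hε130' : ε ^ 130 ≤ ε ^ 128 := pow_le_pow_of_le_one hε.le hε1 (by norm_num)
  obtain ⟨U₀, hU₀c, hU₀⟩ := cheb_half (fun U : Finset κ => Gam U hc hc hc) hGam1 (ε ^ 2)
    (by positivity) (by
      have h1 : N * ε ^ 130 ≤ N * ε ^ 2 := mul_le_mul_of_nonneg_left hε130 hN0.le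
      have h2 : (16 : ℝ) ≤ 10 ^ 50 := by norm_num
      have h3 : ε ^ 2 * (Fintype.card κ : ℝ) = N * ε ^ 2 := by rw [hN]; ring
      rw [h3]
      linarith) hsq
  have hg0 : ε ^ 2 / 4 ≤ gam U₀ hc := by
    have h1 := T3_le U₀ hc hhc1 (gam U₀ hc) (fun φ hφ => gam_bound U₀ hc φ hφ)
    have h2 : ε ^ 2 / 2 ≤ Gam U₀ hc hc hc := hU₀
    linarith
  have hg0pos : 0 < gam U₀ hc := lt_of_lt_of_le (by positivity) hg0
  obtain ⟨U, hUU₀, hsum, hpot⟩ := greedy (fun U => gam U hc) (fun U => gam_nonneg U hc)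
    (fun U V hVU => findU_anti hc _ U V hVU rfl) U₀ hg0pos
  have hgU : gam U₀ hc ≤ gam U hc := findU_anti hc _ U₀ U hUU₀ rfl
  have hgUpos : 0 < gam U hc := lt_of_lt_of_le hg0pos hgU
  have hgU1 : gam U hc ≤ 1 := gam_le_one U hc hN2h
  -- cardinality of U
  have hcard : N / 4 * (ε ^ 128 / 4 ^ 64) ≤ (U.card : ℝ) + 1 := by
    have h1 : ((U₀.card : ℝ) + 1) * gam U₀ hc ^ 64 ≤ (U.card : ℝ) + 1 := by
      refine hpot.trans ?_
      have h2 : gam U hc ^ 64 ≤ 1 := pow_le_one₀ hgUpos.le hgU1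
      have h3 : (0 : ℝ) ≤ (U.card : ℝ) + 1 := by positivity
      calc ((U.card : ℝ) + 1) * gam U hc ^ 64 ≤ ((U.card : ℝ) + 1) * 1 :=
            mul_le_mul_of_nonneg_left h2 h3
        _ = _ := mul_one _
    have h4 : ε ^ 128 / 4 ^ 64 ≤ gam U₀ hc ^ 64 := by
      have h5 : ε ^ 128 / 4 ^ 64 = (ε ^ 2 / 4) ^ 64 := by
        rw [div_pow, ← pow_mul]
      rw [h5]
      have h6 : 0 ≤ ε ^ 2 / 4 := by positivity
      gcongr
    have h7 : N / 4 ≤ (U₀.card : ℝ) + 1 := by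
      have : N ≤ 4 * U₀.card := hU₀c
      linarith
    refine le_trans ?_ h1
    have h8 : 0 ≤ ε ^ 128 / 4 ^ 64 := by positivity
    have h9 : (0 : ℝ) ≤ (U₀.card : ℝ) + 1 := by positivity
    gcongr
  have hN128 : (10 : ℝ) ^ 50 ≤ N * ε ^ 128 :=
    hNe.trans (mul_le_mul_of_nonneg_left hε130' hN0.le)
  have hcard2 : N * ε ^ 128 / (8 * 4 ^ 64) ≤ (U.card : ℝ) := by
    have h1 : N / 4 * (ε ^ 128 / 4 ^ 64) = 2 * (N * ε ^ 128 / (8 * 4 ^ 64)) := by ring
    have h2 : 1 ≤ N * ε ^ 128 / (8 * 4 ^ 64) := by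
      rw [le_div_iff₀ (by positivity)]
      refine le_trans ?_ hN128
      norm_num
    linarith
  -- maximizer
  obtain ⟨φ, hφd, hφN, hφg⟩ := gam_attained U hc
  have hR : ∑ i ∈ U, (1 - Rr i φ) ≤ 1 / 32 := by
    have h1 : ∑ i ∈ U, (1 - Rr i φ) ≤
        ∑ i ∈ U, 2 * ((gam (U.erase i) hc - gam U hc) / gam (U.erase i) hc) := by
      refine Finset.sum_le_sum fun i hi => ?_
      have h2 := findU_step U i hi hc φ hφd hφN hφg
      have h3 : 0 < gam (U.erase i) hc := lt_of_lt_of_le hgUpos (findU_erase U i hi hc)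
      have h4 : 2 * ((gam (U.erase i) hc - gam U hc) / gam (U.erase i) hc) =
          2 - 2 * gam U hc / gam (U.erase i) hc := by
        field_simp
      rw [h4]
      have h5 : 2 * gam U hc / gam (U.erase i) hc ≤ 1 + Rr i φ := by
        rw [div_le_iff₀ h3]
        linarith
      linarith
    rw [← Finset.mul_sum] at h1
    linarith
  obtain ⟨u, hu, c, hc1, hψ⟩ := nearProd U φ hφN hφd
  set P : (κ → ZMod 3) → ℂ := prodf U u with hPdef
  set ψ : (κ → ZMod 3) → ℂ := φ - c • P with hψdef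
  have hPd : Dep U P := Dep_prodf U u
  have hcPd : Dep U (c • P) := by
    intro x y hxy
    simp only [Pi.smul_apply]
    rw [hPd x y hxy]
  have hψd : Dep U ψ := by
    intro x y hxy
    simp only [hψdef, Pi.sub_apply]
    rw [hφd x y hxy, hcPd x y hxy]
  have hψN : N2 ψ ≤ 1 / 32 := hψ.trans hR
  have hcPN : N2 (c • P) ≤ 1 := by
    rw [findU_N2_smul, hPdef, N2_prodf U u hu, mul_one]
    exact pow_le_one₀ (norm_nonneg _) hc1
  have hdec : φ = c • P + ψ := by rw [hψdef]; abel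
  have h3 := findU_three U hc φ (c • P) ψ hdec
  have hpol1 : Gam U hc (c • P) ψ ≤ 2 * gam U hc * (1 * (1 / 32)) :=
    polar U hc (gam U hc) (fun φ hφ => gam_bound U hc φ hφ) (c • P) ψ hcPd hψd 1 (1 / 32)
      (by norm_num) (by norm_num) hcPN hψN
  have hpol2 : Gam U hc ψ φ ≤ 2 * gam U hc * ((1 / 32) * 1) :=
    polar U hc (gam U hc) (fun φ hφ => gam_bound U hc φ hφ) ψ φ hψd hφd (1 / 32) 1
      (by norm_num) (by norm_num) hψN hφN
  have hsm := findU_Gam_smul U hc P c hc1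
  have hPP : ε ^ 2 / 16 ≤ Gam U hc P P := by
    rw [← hφg] at h3
    linarith
  rw [hPdef, prodEval U u hu hc] at hPP
  obtain ⟨V, hVU, hVc, hV⟩ := cheb_pick U (2 / 3) (by norm_num) (by norm_num)
    (fun V => Corr V u hc) (fun V _ => Corr_le_one V u hu hc hhc1) (ε ^ 2 / 16) (by positivity)
    (by
      have h1 : N * ε ^ 130 / (24 * 8 * 4 ^ 64) ≤ ε ^ 2 / 16 * (2 / 3 * (U.card : ℝ)) := by
        have e1 : N * ε ^ 130 / (24 * 8 * 4 ^ 64) =
            ε ^ 2 / 24 * (N * ε ^ 128 / (8 * 4 ^ 64)) := by ring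
        have e2 : ε ^ 2 / 16 * (2 / 3 * (U.card : ℝ)) = ε ^ 2 / 24 * (U.card : ℝ) := by ring
        rw [e1, e2]
        exact mul_le_mul_of_nonneg_left hcard2 (by positivity)
      refine le_trans ?_ h1
      rw [le_div_iff₀ (by positivity)]
      refine le_trans ?_ hNe
      norm_num) hPP
  refine ⟨V, u, hu, ?_, ?_⟩
  · have h1 : N * ε ^ 128 / (24 * 4 ^ 64) ≤ (V.card : ℝ) := by
      have e1 : N * ε ^ 128 / (24 * 4 ^ 64) = (N * ε ^ 128 / (8 * 4 ^ 64)) / 3 := by ring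
      rw [e1]
      linarith
    refine le_trans ?_ h1
    have h2 : ε ^ 130 ≤ ε ^ 128 := pow_le_pow_of_le_one hε.le hε1 (by norm_num)
    have h4 : ε ^ 130 / 2 ^ 140 * N ≤ N * ε ^ 128 / 2 ^ 140 := by
      rw [div_mul_eq_mul_div, mul_comm]
      gcongr
    refine h4.trans ?_
    have h5 : (24 : ℝ) * 4 ^ 64 ≤ 2 ^ 140 := by norm_num
    have h6 : 0 ≤ N * ε ^ 128 := by positivity
    exact div_le_div_of_nonneg_left h6 (by positivity) h5
  · have : ε ^ 2 / 16 / 2 ≤ Corr V u hc := hV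
    linarith

end H24AP
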