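import Pool.Agent.H24AP.ProdEval

/-!
# Unimodular product functions

`a i = 𝔼 s, ‖u i s‖ ≤ 1`, `β i = 1 - a i`.  `s ≤ Corr V u h ≤ ∏_{i ∈ V} (a i)^2`, hence
`∑_{i ∈ V} β i ≤ (1/2) log (1/s) ≤ 1/(2 s)`.  At least half of the `i ∈ V` have
`β i ≤ b = 1/(s |V|)`; let `V'` be a set of `⌊s²|V|/16⌋` of them, so `∑_{V'} β i ≤ s/16`.
`Corr V' u h ≥ s` by `Corr_anti`.  Let `ũ i = u i / ‖u i‖` (phase `arg`); then
`N2 (prodf V' u - prodf V' ũ) = 2 - 2 ∏ a i ≤ s/8` and `‖v+w‖² ≤ 2‖v‖²+2‖w‖²` gives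
`s ≤ 2 Corr V' ũ h + s/4`.
-/

namespace H24AP

open Finset
open scoped BigOperators ComplexConjugate

section unimodAux

variable {κ : Type} [Fintype κ] [DecidableEq κ]

/-- Independence. -/
private theorem um_E_prod_univ (G : κ → ZMod 3 → ℝ) :
    𝔼 x : κ → ZMod 3, ∏ i, G i (x i) = ∏ i, 𝔼 s, G i s := by
  rw [Fintype.expect_eq_sum_div_card]
  simp_rw [Fintype.expect_eq_sum_div_card]
  rw [Finset.prod_div_distrib, Finset.prod_const, Finset.prod_univ_sum]
  simp [Fintype.piFinset_univ]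

private theorem um_E_prod (V : Finset κ) (G : κ → ZMod 3 → ℝ) :
    𝔼 x : κ → ZMod 3, ∏ i ∈ V, G i (x i) = ∏ i ∈ V, 𝔼 s, G i s := by
  have h := um_E_prod_univ (fun i s => if i ∈ V then G i s else 1)
  have h1 : ∀ x : κ → ZMod 3, (∏ i, if i ∈ V then G i (x i) else 1) = ∏ i ∈ V, G i (x i) := by
    intro x
    rw [Finset.prod_ite_mem, Finset.univ_inter]
  have h2 : (∏ i, 𝔼 s, if i ∈ V then G i s else 1) = ∏ i ∈ V, 𝔼 s, G i s := by
    rw [← Finset.univ_inter V, ← Finset.prod_ite_mem, Finset.univ_inter]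
    apply Finset.prod_congr rfl
    intro i _
    by_cases hi : i ∈ V
    · simp [hi]
    · simp [hi, Fintype.expect_const]
  simp only [h1, h2] at h
  exact h

private theorem um_norm_E_le {α : Type} [Fintype α] (f : α → ℂ) :
    ‖𝔼 x, f x‖ ≤ 𝔼 x, ‖f x‖ := by
  rw [Fintype.expect_eq_sum_div_card, Fintype.expect_eq_sum_div_card, norm_div]
  have : ‖(Fintype.card α : ℂ)‖ = (Fintype.card α : ℝ) := by simp
  rw [this]
  gcongr
  exact norm_sum_le _ _

private theorem um_norm_E_sq_le {α : Type} [Fintype α] [Nonempty α] (f : α → ℂ) :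
    ‖𝔼 x, f x‖ ^ 2 ≤ 𝔼 x, ‖f x‖ ^ 2 := by
  have h1 : ‖𝔼 x, f x‖ ^ 2 ≤ (𝔼 x, ‖f x‖) ^ 2 :=
    pow_le_pow_left₀ (norm_nonneg _) (um_norm_E_le f) 2
  have h2 := Finset.expect_mul_sq_le_sq_mul_sq (univ : Finset α) (fun _ => (1 : ℝ))
    (fun x => ‖f x‖)
  simp only [one_mul, one_pow] at h2
  rw [Fintype.expect_const, one_mul] at h2
  exact h1.trans h2

/-- mean of the norm. -/
private noncomputable def um_a (u : κ → ZMod 3 → ℂ) (i : κ) : ℝ := 𝔼 s, ‖u i s‖

private theorem um_a_nonneg (u : κ → ZMod 3 → ℂ) (i : κ) : 0 ≤ um_a u i :=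
  Finset.expect_nonneg (fun _ _ => norm_nonneg _)

private theorem um_a_le (u : κ → ZMod 3 → ℂ) (hu : ∀ i, (𝔼 s, ‖u i s‖ ^ 2) = 1) (i : κ) :
    um_a u i ≤ 1 := by
  have h2 := Finset.expect_mul_sq_le_sq_mul_sq (univ : Finset (ZMod 3)) (fun _ => (1 : ℝ))
    (fun s => ‖u i s‖)
  simp only [one_mul, one_pow] at h2
  rw [Fintype.expect_const, one_mul, hu i] at h2
  have h3 : (um_a u i) ^ 2 ≤ 1 := h2
  have h4 := um_a_nonneg u i
  nlinarith

private theorem um_norm_prodf (V : Finset κ) (u : κ → ZMod 3 → ℂ) (x : κ → ZMod 3) :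
    ‖prodf V u x‖ = ∏ i ∈ V, ‖u i (x i)‖ := by
  simp [prodf, norm_prod]

private theorem um_Corr_le (V : Finset κ) (u : κ → ZMod 3 → ℂ)
    (h : (κ → ZMod 3) → ℂ) (hh : ∀ x, ‖h x‖ ≤ 1) :
    Corr V u h ≤ (∏ i ∈ V, um_a u i) ^ 2 := by
  unfold Corr
  apply Finset.expect_le univ_nonempty
  intro y _
  apply pow_le_pow_left₀ (norm_nonneg _)
  refine (um_norm_E_le _).trans ?_
  unfold um_a
  rw [← um_E_prod V (fun i s => ‖u i s‖)]
  apply Finset.expect_le_expect
  intro x _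
  rw [norm_mul, RCLike.norm_conj, um_norm_prodf]
  have h1 := hh (mix V x y)
  have h2 : 0 ≤ ∏ i ∈ V, ‖u i (x i)‖ := Finset.prod_nonneg (fun _ _ => norm_nonneg _)
  nlinarith

/-- the phase -/
private noncomputable def um_th (u : κ → ZMod 3 → ℂ) (i : κ) (t : ZMod 3) : ℝ :=
  Complex.arg (u i t)

private theorem um_polar (u : κ → ZMod 3 → ℂ) (i : κ) (t : ZMod 3) :
    u i t = (‖u i t‖ : ℂ) * Complex.exp (um_th u i t * Complex.I) :=
  (Complex.norm_mul_exp_arg_mul_I (u i t)).symm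

private theorem um_prodf_polar (V : Finset κ) (u : κ → ZMod 3 → ℂ) (x : κ → ZMod 3) :
    prodf V u x = ((∏ i ∈ V, ‖u i (x i)‖ : ℝ) : ℂ) *
      prodf V (fun i t => Complex.exp (um_th u i t * Complex.I)) x := by
  unfold prodf
  rw [Complex.ofReal_prod, ← Finset.prod_mul_distrib]
  exact Finset.prod_congr rfl (fun i _ => um_polar u i (x i))

private theorem um_norm_phase (V : Finset κ) (u : κ → ZMod 3 → ℂ) (x : κ → ZMod 3) :
    ‖prodf V (fun i t => Complex.exp (um_th u i t * Complex.I)) x‖ = 1 := by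
  unfold prodf
  rw [norm_prod]
  apply Finset.prod_eq_one
  intro i _
  exact Complex.norm_exp_ofReal_mul_I _

/-- `N2` of the difference. -/
private theorem um_diff (V : Finset κ) (u : κ → ZMod 3 → ℂ)
    (hu : ∀ i, (𝔼 s, ‖u i s‖ ^ 2) = 1) :
    𝔼 x : κ → ZMod 3, ‖prodf V u x -
        prodf V (fun i t => Complex.exp (um_th u i t * Complex.I)) x‖ ^ 2 =
      2 - 2 * ∏ i ∈ V, um_a u i := by
  have h1 : ∀ x : κ → ZMod 3, ‖prodf V u x -
        prodf V (fun i t => Complex.exp (um_th u i t * Complex.I)) x‖ ^ 2 =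
      (∏ i ∈ V, ‖u i (x i)‖ ^ 2) - 2 * (∏ i ∈ V, ‖u i (x i)‖) + 1 := by
    intro x
    have e1 : prodf V u x - prodf V (fun i t => Complex.exp (um_th u i t * Complex.I)) x =
        (((∏ i ∈ V, ‖u i (x i)‖) - 1 : ℝ) : ℂ) *
          prodf V (fun i t => Complex.exp (um_th u i t * Complex.I)) x := by
      conv_lhs => rw [um_prodf_polar V u x]
      push_cast
      ring
    rw [e1, norm_mul, um_norm_phase, mul_one, Complex.norm_real, Real.norm_eq_abs, sq_abs,
      Finset.prod_pow]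
    ring
  simp only [h1]
  rw [Finset.expect_add_distrib, Finset.expect_sub_distrib, Fintype.expect_const,
    um_E_prod V (fun i s => ‖u i s‖ ^ 2), ← Finset.mul_expect,
    um_E_prod V (fun i s => ‖u i s‖)]
  rw [Finset.prod_congr rfl (fun i _ => hu i)]
  unfold um_a
  simp
  ring

private theorem um_prod_ge (V : Finset κ) (a : κ → ℝ) (h0 : ∀ i, 0 ≤ a i) (h1 : ∀ i, a i ≤ 1) :
    1 - ∑ i ∈ V, (1 - a i) ≤ ∏ i ∈ V, a i := by
  induction V using Finset.induction_on with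
  | empty => simp
  | insert i V hi ih =>
    rw [Finset.sum_insert hi, Finset.prod_insert hi]
    have hp : ∏ i ∈ V, a i ≤ 1 := Finset.prod_le_one (fun i _ => h0 i) (fun i _ => h1 i)
    have := h0 i
    have := h1 i
    nlinarith

private theorem um_prod_le (V : Finset κ) (a : κ → ℝ) (h0 : ∀ i, 0 ≤ a i) (h1 : ∀ i, a i ≤ 1) :
    (∏ i ∈ V, a i) * (1 + ∑ i ∈ V, (1 - a i)) ≤ 1 := by
  induction V using Finset.induction_on with
  | empty => simp
  | insert i V hi ih =>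
    rw [Finset.sum_insert hi, Finset.prod_insert hi]
    have hp0 : 0 ≤ ∏ i ∈ V, a i := Finset.prod_nonneg (fun i _ => h0 i)
    have hs : 0 ≤ ∑ i ∈ V, (1 - a i) := Finset.sum_nonneg (fun i _ => by linarith [h1 i])
    have ha0 := h0 i
    have ha1 := h1 i
    have key : a i * (1 + ((1 - a i) + ∑ i ∈ V, (1 - a i))) ≤ 1 + ∑ i ∈ V, (1 - a i) := by
      nlinarith [mul_nonneg hs (by linarith : (0 : ℝ) ≤ 1 - a i)]
    calc a i * (∏ i ∈ V, a i) * (1 + (1 - a i + ∑ i ∈ V, (1 - a i)))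
        = (∏ i ∈ V, a i) * (a i * (1 + ((1 - a i) + ∑ i ∈ V, (1 - a i)))) := by ring
      _ ≤ (∏ i ∈ V, a i) * (1 + ∑ i ∈ V, (1 - a i)) := mul_le_mul_of_nonneg_left key hp0
      _ ≤ 1 := ih

end unimodAux

theorem unimod {κ : Type} [Fintype κ] [DecidableEq κ] (V : Finset κ) (u : κ → ZMod 3 → ℂ)
    (hu : ∀ i, (𝔼 s, ‖u i s‖ ^ 2) = 1) (h : (κ → ZMod 3) → ℂ) (hh : ∀ x, ‖h x‖ ≤ 1)
    (s : ℝ) (hs : 0 < s) (hC : s ≤ Corr V u h) :
    ∃ (V' : Finset κ) (θ : κ → ZMod 3 → ℝ), V' ⊆ V ∧ (∀ i t, |θ i t| ≤ Real.pi) ∧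
      s ^ 2 / 16 * V.card - 1 ≤ V'.card ∧
      s / 4 ≤ Corr V' (fun i t => Complex.exp (θ i t * Complex.I)) h := by
  classical
  set a : κ → ℝ := um_a u with ha
  have a0 : ∀ i, 0 ≤ a i := um_a_nonneg u
  have a1 : ∀ i, a i ≤ 1 := um_a_le u hu
  have hs1 : s ≤ 1 := hC.trans (Corr_le_one V u hu h hh)
  -- the sum of the deficits
  set B : ℝ := ∑ i ∈ V, (1 - a i) with hB
  have hB0 : 0 ≤ B := Finset.sum_nonneg (fun i _ => by linarith [a1 i])
  have hsp : s ≤ (∏ i ∈ V, a i) ^ 2 := hC.trans (um_Corr_le V u h hh)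
  have hp0 : 0 ≤ ∏ i ∈ V, a i := Finset.prod_nonneg (fun i _ => a0 i)
  have hpB : (∏ i ∈ V, a i) * (1 + B) ≤ 1 := um_prod_le V a a0 a1
  have hsB : s * (2 * B) ≤ 1 := by
    have h1 : ((∏ i ∈ V, a i) * (1 + B)) ^ 2 ≤ 1 := by
      have : 0 ≤ (∏ i ∈ V, a i) * (1 + B) := mul_nonneg hp0 (by linarith)
      nlinarith
    have h2 : s * (1 + B) ^ 2 ≤ 1 := by
      calc s * (1 + B) ^ 2 ≤ (∏ i ∈ V, a i) ^ 2 * (1 + B) ^ 2 := by gcongr
        _ = ((∏ i ∈ V, a i) * (1 + B)) ^ 2 := by ring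
        _ ≤ 1 := h1
    nlinarith [mul_nonneg hs.le (sq_nonneg B)]
  -- the good sites
  set Vg : Finset κ := V.filter (fun i => (1 - a i) * (s * V.card) ≤ 1) with hVg
  have hcard : (V.card : ℝ) ≤ 2 * Vg.card := by
    rcases Nat.eq_zero_or_pos V.card with h0 | hpos
    · rw [h0]; simp
    have hVp : (0 : ℝ) < V.card := by exact_mod_cast hpos
    set Vb : Finset κ := V.filter (fun i => ¬ (1 - a i) * (s * V.card) ≤ 1) with hVb
    have hsplit : Vg.card + Vb.card = V.card := by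
      rw [hVg, hVb]; exact Finset.card_filter_add_card_filter_not _
    have hb1 : (Vb.card : ℝ) ≤ (s * V.card) * B := by
      have e1 : (Vb.card : ℝ) = ∑ i ∈ Vb, (1 : ℝ) := by simp
      rw [e1]
      calc ∑ i ∈ Vb, (1 : ℝ) ≤ ∑ i ∈ Vb, (s * V.card) * (1 - a i) := by
            apply Finset.sum_le_sum
            intro i hi
            rw [hVb, Finset.mem_filter] at hi
            have := hi.2
            push Not at this
            linarith
        _ ≤ ∑ i ∈ V, (s * V.card) * (1 - a i) := by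
            apply Finset.sum_le_sum_of_subset_of_nonneg
            · rw [hVb]; exact Finset.filter_subset _ _
            · intro i _ _
              have := a1 i
              have : 0 ≤ s * V.card := by positivity
              nlinarith [a1 i]
        _ = (s * V.card) * B := by rw [hB, Finset.mul_sum]
    have hb2 : (2 : ℝ) * Vb.card ≤ V.card := by nlinarith
    have hsplit' : (Vg.card : ℝ) + Vb.card = V.card := by exact_mod_cast hsplit
    linarith
  -- the chosen sites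
  set m : ℕ := ⌊s ^ 2 / 16 * V.card⌋₊ with hm
  have hm1 : (m : ℝ) ≤ s ^ 2 / 16 * V.card := Nat.floor_le (by positivity)
  have hm2 : s ^ 2 / 16 * V.card - 1 ≤ m := by
    have := Nat.lt_floor_add_one (s ^ 2 / 16 * V.card : ℝ)
    rw [← hm] at this
    linarith
  have hmg : m ≤ Vg.card := by
    have : (m : ℝ) ≤ Vg.card := by
      have h1 : s ^ 2 ≤ 1 := by nlinarith
      have h2 : (0 : ℝ) ≤ V.card := by positivity
      nlinarith
    exact_mod_cast this
  obtain ⟨V', hV'g, hV'c⟩ := Finset.exists_subset_card_eq hmg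
  have hV'V : V' ⊆ V := hV'g.trans (Finset.filter_subset _ _)
  refine ⟨V', um_th u, hV'V, fun i t => Complex.abs_arg_le_pi _, ?_, ?_⟩
  · rw [hV'c]; exact hm2
  -- the sum over `V'`
  have hsum : ∑ i ∈ V', (1 - a i) ≤ s / 16 := by
    rcases Nat.eq_zero_or_pos V.card with h0 | hpos
    · have : V' = ∅ := by
        have h3 : V = ∅ := Finset.card_eq_zero.mp h0
        rw [h3] at hV'V
        exact Finset.subset_empty.mp hV'V
      rw [this]; simp; positivity
    have hVp : (0 : ℝ) < V.card := by exact_mod_cast hpos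
    have hsV : 0 < s * V.card := by positivity
    have e1 : ∑ i ∈ V', (1 - a i) ≤ ∑ i ∈ V', 1 / (s * V.card) := by
      apply Finset.sum_le_sum
      intro i hi
      have := (Finset.mem_filter.mp (hV'g hi)).2
      rw [le_div_iff₀ hsV]
      exact this
    refine e1.trans ?_
    rw [Finset.sum_const, hV'c, nsmul_eq_mul]
    calc (m : ℝ) * (1 / (s * V.card)) ≤ (s ^ 2 / 16 * V.card) * (1 / (s * V.card)) := by
          gcongr
      _ = s / 16 := by field_simp
  have hCV' : s ≤ Corr V' u h := hC.trans (Corr_anti hV'V u hu h)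
  have hdiff := um_diff V' u hu
  have hpg := um_prod_ge V' a a0 a1
  have hD : 𝔼 x : κ → ZMod 3, ‖prodf V' u x -
        prodf V' (fun i t => Complex.exp (um_th u i t * Complex.I)) x‖ ^ 2 ≤ s / 8 := by
    rw [hdiff]
    have : ∏ i ∈ V', um_a u i = ∏ i ∈ V', a i := rfl
    rw [this]
    linarith
  -- comparison
  have hcomp : Corr V' u h ≤
      2 * Corr V' (fun i t => Complex.exp (um_th u i t * Complex.I)) h + 2 * (s / 8) := by
    have hpt : ∀ y : κ → ZMod 3,
        ‖𝔼 x : κ → ZMod 3, h (mix V' x y) * conj (prodf V' u x)‖ ^ 2 ≤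
        2 * ‖𝔼 x : κ → ZMod 3, h (mix V' x y) *
          conj (prodf V' (fun i t => Complex.exp (um_th u i t * Complex.I)) x)‖ ^ 2 +
          2 * (s / 8) := by
      intro y
      set P := prodf V' u with hP
      set Q := prodf V' (fun i t => Complex.exp (um_th u i t * Complex.I)) with hQ
      have e1 : (𝔼 x : κ → ZMod 3, h (mix V' x y) * conj (P x)) =
          (𝔼 x : κ → ZMod 3, h (mix V' x y) * conj (Q x)) +
          𝔼 x : κ → ZMod 3, h (mix V' x y) * conj (P x - Q x) := by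
        rw [← Finset.expect_add_distrib]
        apply Finset.expect_congr rfl
        intro x _
        rw [map_sub]
        ring
      have e2 : ‖𝔼 x : κ → ZMod 3, h (mix V' x y) * conj (P x - Q x)‖ ^ 2 ≤ s / 8 := by
        refine (um_norm_E_sq_le _).trans (le_trans ?_ hD)
        apply Finset.expect_le_expect
        intro x _
        rw [norm_mul, RCLike.norm_conj, mul_pow]
        have h1 := hh (mix V' x y)
        have h2 : ‖h (mix V' x y)‖ ^ 2 ≤ 1 := by
          have := norm_nonneg (h (mix V' x y)); nlinarith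
        have h3 : 0 ≤ ‖P x - Q x‖ ^ 2 := by positivity
        nlinarith
      rw [e1]
      have h3 := norm_add_le (𝔼 x : κ → ZMod 3, h (mix V' x y) * conj (Q x))
        (𝔼 x : κ → ZMod 3, h (mix V' x y) * conj (P x - Q x))
      set A1 := ‖𝔼 x : κ → ZMod 3, h (mix V' x y) * conj (Q x)‖ with hA1
      set A2 := ‖𝔼 x : κ → ZMod 3, h (mix V' x y) * conj (P x - Q x)‖ with hA2
      have h4 : 0 ≤ ‖(𝔼 x : κ → ZMod 3, h (mix V' x y) * conj (Q x)) +
        𝔼 x : κ → ZMod 3, h (mix V' x y) * conj (P x - Q x)‖ := norm_nonneg _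
      calc ‖(𝔼 x : κ → ZMod 3, h (mix V' x y) * conj (Q x)) +
            𝔼 x : κ → ZMod 3, h (mix V' x y) * conj (P x - Q x)‖ ^ 2
          ≤ (A1 + A2) ^ 2 := pow_le_pow_left₀ h4 h3 2
        _ ≤ 2 * A1 ^ 2 + 2 * A2 ^ 2 := by nlinarith [sq_nonneg (A1 - A2)]
        _ ≤ 2 * A1 ^ 2 + 2 * (s / 8) := by linarith
    calc Corr V' u h ≤ 𝔼 y : κ → ZMod 3, (2 * ‖𝔼 x : κ → ZMod 3, h (mix V' x y) *
          conj (prodf V' (fun i t => Complex.exp (um_th u i t * Complex.I)) x)‖ ^ 2 +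
          2 * (s / 8)) := Finset.expect_le_expect (fun y _ => hpt y)
      _ = 2 * Corr V' (fun i t => Complex.exp (um_th u i t * Complex.I)) h + 2 * (s / 8) := by
          rw [Finset.expect_add_distrib, Fintype.expect_const, ← Finset.mul_expect]
          rfl
  linarith

end H24AP
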