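import Pool.Agent.H24AP.FindU
import Pool.Agent.H24AP.Unimod
import Pool.Agent.H24AP.AP

/-!
# The inverse theorem
-/

namespace H24AP

open Finset
open scoped BigOperators ComplexConjugate

theorem norm_exp_sub_le (a b : ℝ) :
    ‖Complex.exp (a * Complex.I) - Complex.exp (b * Complex.I)‖ ≤ |a - b| := by
  have h1 : Complex.exp (a * Complex.I) - Complex.exp (b * Complex.I) =
      Complex.exp (b * Complex.I) * (Complex.exp (Complex.I * ((a - b : ℝ) : ℂ)) - 1) := by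
    rw [mul_sub, ← Complex.exp_add, mul_one]
    congr 2
    push_cast; ring
  rw [h1, norm_mul, Complex.norm_exp_ofReal_mul_I, one_mul]
  exact Real.norm_exp_I_mul_ofReal_sub_one_le

/-- A phase making a complex number real and nonnegative. -/
theorem exists_phase (z : ℂ) : ∃ c : ℂ, ‖c‖ ≤ 1 ∧ (c * z).re = ‖z‖ := by
  by_cases hz : z = 0
  · exact ⟨0, by simp, by simp [hz]⟩
  · refine ⟨conj z / ‖z‖, ?_, ?_⟩
    · have : (‖z‖ : ℝ) ≠ 0 := by simpa using hz
      simp [this]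
    · have hz' : (‖z‖ : ℝ) ≠ 0 := by simpa using hz
      have : conj z / (‖z‖ : ℂ) * z = ((‖z‖ : ℝ) : ℂ) := by
        have h2 : conj z * z = ((‖z‖ : ℝ) : ℂ) ^ 2 := by
          rw [mul_comm, Complex.mul_conj, Complex.normSq_eq_norm_sq]; push_cast; rfl
        have h3 : ((‖z‖ : ℝ) : ℂ) ≠ 0 := by exact_mod_cast hz'
        field_simp
        rw [h2]
      rw [this, Complex.ofReal_re]

/-- Linear functional for one fibre. -/
theorem fibre_bound {μ : Type} [Fintype μ] [DecidableEq μ] (F : (μ → ZMod 3) → ℝ)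
    (hF : ∀ t, |F t| ≤ 1) (Θ : (μ → ZMod 3) → ℝ) (δ : ℝ) (hΘ : ∀ t, |Θ t - Θ 0| ≤ δ)
    (lam : ℝ) (hl : 0 ≤ lam) (hm : 𝔼 t, F t ≤ lam) (c : ℂ) (hc : ‖c‖ ≤ 1) :
    𝔼 t, ((c * ((F t : ℂ) * conj (Complex.exp (Θ t * Complex.I)))).re + F t) ≤
      2 * lam + δ := by
  have h1 : 𝔼 t, ((c * ((F t : ℂ) * conj (Complex.exp (Θ t * Complex.I)))).re + F t) =
      (c * 𝔼 t, ((F t : ℂ) * conj (Complex.exp (Θ t * Complex.I)))).re + 𝔼 t, F t := by
    rw [Finset.expect_add_distrib, Finset.mul_expect, Complex.re_expect]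
  have h2 : 𝔼 t, ((F t : ℂ) * conj (Complex.exp (Θ t * Complex.I))) =
      (𝔼 t, (F t : ℂ)) * conj (Complex.exp (Θ 0 * Complex.I)) +
        𝔼 t, ((F t : ℂ) * (conj (Complex.exp (Θ t * Complex.I)) -
          conj (Complex.exp (Θ 0 * Complex.I)))) := by
    rw [Finset.expect_mul, ← Finset.expect_add_distrib]
    refine Finset.expect_congr rfl (fun t _ => by ring)
  have h3 : ‖𝔼 t, ((F t : ℂ) * conj (Complex.exp (Θ t * Complex.I)))‖ ≤ |𝔼 t, F t| + δ := by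
    rw [h2]
    refine (norm_add_le _ _).trans (add_le_add ?_ ?_)
    · rw [norm_mul, RCLike.norm_conj, Complex.norm_exp_ofReal_mul_I, mul_one,
        ← Complex.ofReal_expect, Complex.norm_real, Real.norm_eq_abs]
    · refine (RCLike.norm_expect_le (K := ℂ)).trans ?_
      refine Finset.expect_le univ_nonempty (fun t _ => ?_)
      rw [norm_mul, ← map_sub, RCLike.norm_conj, Complex.norm_real, Real.norm_eq_abs]
      calc |F t| * ‖Complex.exp (Θ t * Complex.I) - Complex.exp (Θ 0 * Complex.I)‖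
          ≤ 1 * |Θ t - Θ 0| := mul_le_mul (hF t) (norm_exp_sub_le _ _) (norm_nonneg _) (by norm_num)
        _ ≤ δ := by rw [one_mul]; exact hΘ t
  rw [h1]
  have h4 : (c * 𝔼 t, ((F t : ℂ) * conj (Complex.exp (Θ t * Complex.I)))).re ≤
      |𝔼 t, F t| + δ := by
    refine (Complex.re_le_norm _).trans ?_
    rw [norm_mul]
    calc _ ≤ 1 * ‖𝔼 t, ((F t : ℂ) * conj (Complex.exp (Θ t * Complex.I)))‖ :=
          mul_le_mul_of_nonneg_right hc (norm_nonneg _)
      _ ≤ _ := by rw [one_mul]; exact h3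
  have h5 : |𝔼 t, F t| + 𝔼 t, F t ≤ 2 * lam := by
    rcases le_total 0 (𝔼 t, F t) with h | h
    · rw [abs_of_nonneg h]; linarith
    · rw [abs_of_nonpos h]; linarith
  linarith

/-- `V` is a set of sites with large correlation.  For each `y` apply `AP` on the sites `↥V` with
`δ = s/8`, `Φ t = Re (c_y F t e^{-iΘ t}) + F t`, `F t = h ((DEmb.sub V y).app t)`, where `c_y` is a
phase with `Re (c_y 𝔼 F e^{-iΘ}) = |𝔼 F e^{-iΘ}|`; average over `y`; `s ≤ Corr ≤ 𝔼_y |..|`. -/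
theorem corr_incr {κ : Type} [Fintype κ] [DecidableEq κ] (h : (κ → ZMod 3) → ℝ)
    (hh : ∀ x, |h x| ≤ 1) (V : Finset κ) (θ : κ → ZMod 3 → ℝ) (hθ : ∀ i t, |θ i t| ≤ Real.pi)
    (s : ℝ) (hs : 0 < s) (hs1 : s ≤ 1)
    (hC : s ≤ Corr V (fun i t => Complex.exp (θ i t * Complex.I)) (fun x => (h x : ℂ)))
    (hm : 10 ^ 30 * (8 / s) ^ 3 ≤ (V.card : ℝ)) (lam : ℝ) (hl : 0 ≤ lam) (hl2 : lam ≤ 1 / 2)
    (hyp : ∀ (μ : Type) [Fintype μ] [DecidableEq μ] (e : DEmb μ κ),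
      V.card ≤ 30 ^ 4 * Fintype.card μ → 𝔼 t, h (e.app t) ≤ lam) :
    𝔼 x, h x ≤ 2 * lam + s / 4 - s := by
  classical
  -- fibre data
  let Θ : (V → ZMod 3) → ℝ := fun t => ∑ i : V, θ i (t i)
  let F : (κ → ZMod 3) → (V → ZMod 3) → ℝ := fun y t => h ((DEmb.sub V y).app t)
  let Z : (κ → ZMod 3) → ℂ := fun y =>
    𝔼 t, ((F y t : ℂ) * conj (Complex.exp (Θ t * Complex.I)))
  have hprod : ∀ x : κ → ZMod 3,
      prodf V (fun i t => Complex.exp (θ i t * Complex.I)) x =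
        Complex.exp (Θ (fun i : V => x i) * Complex.I) := by
    intro x
    simp only [prodf, Θ]
    rw [← Finset.prod_coe_sort V (fun i => Complex.exp (θ i (x i) * Complex.I)),
      ← Complex.exp_sum]
    congr 1
    push_cast
    rw [Finset.sum_mul]
  have hZ : ∀ y, 𝔼 x : κ → ZMod 3, ((h (mix V x y) : ℂ)) *
      conj (prodf V (fun i t => Complex.exp (θ i t * Complex.I)) x) = Z y := by
    intro y
    have := E_restrict V (fun t : V → ZMod 3 =>
      ((F y t : ℂ) * conj (Complex.exp (Θ t * Complex.I))))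
    simp only [Z]
    rw [← this]
    refine Finset.expect_congr rfl (fun x _ => ?_)
    simp only [F]
    rw [hprod, DEmb.sub_app]
  have hZ1 : ∀ y, ‖Z y‖ ≤ 1 := by
    intro y
    refine (RCLike.norm_expect_le (K := ℂ)).trans ?_
    refine Finset.expect_le univ_nonempty (fun t _ => ?_)
    rw [norm_mul, RCLike.norm_conj, Complex.norm_exp_ofReal_mul_I, mul_one, Complex.norm_real]
    exact hh _
  have hCorr : s ≤ 𝔼 y, ‖Z y‖ := by
    refine hC.trans ?_
    unfold Corr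
    refine Finset.expect_le_expect (fun y _ => ?_)
    rw [hZ]
    nlinarith [norm_nonneg (Z y), hZ1 y]
  have hfib : ∀ y, ‖Z y‖ + 𝔼 t, F y t ≤ 2 * lam + s / 8 + s / 8 := by
    intro y
    obtain ⟨c, hc, hcz⟩ := exists_phase (Z y)
    have key := AP (ι := V) (fun i => θ i) (fun i t => hθ i t) (s / 8) (by positivity)
      (by linarith) (by
        rw [Fintype.card_coe]
        refine le_trans (le_of_eq ?_) hm
        congr 2
        field_simp)
      (fun t => (c * ((F y t : ℂ) * conj (Complex.exp (Θ t * Complex.I)))).re + F y t)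
      (2 * lam + s / 8) (by positivity) (by linarith)
      (by
        intro t
        have h1 : (c * ((F y t : ℂ) * conj (Complex.exp (Θ t * Complex.I)))).re ≤ 1 := by
          refine (Complex.re_le_norm _).trans ?_
          rw [norm_mul, norm_mul, RCLike.norm_conj, Complex.norm_exp_ofReal_mul_I, mul_one,
            Complex.norm_real]
          calc ‖c‖ * ‖F y t‖ ≤ 1 * 1 := mul_le_mul hc (hh _) (norm_nonneg _) (by norm_num)
            _ = 1 := by norm_num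
        have h2 : F y t ≤ 1 := (abs_le.mp (hh _)).2
        linarith)
      (by
        intro μ _ _ e hcard hosc
        have h3 := hyp μ ((DEmb.sub V y).comp e) (by
          rw [Fintype.card_coe] at hcard
          exact hcard)
        simp only [DEmb.comp_app] at h3
        exact fibre_bound (fun t => F y (e.app t)) (fun t => hh _) (fun t => Θ (e.app t)) (s / 8)
          hosc lam hl h3 c hc)
    have h1 : 𝔼 t, ((c * ((F y t : ℂ) * conj (Complex.exp (Θ t * Complex.I)))).re + F y t) =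
        (c * Z y).re + 𝔼 t, F y t := by
      simp only [Z]
      rw [Finset.expect_add_distrib, Finset.mul_expect, Complex.re_expect]
    rw [h1, hcz] at key
    linarith
  have hmean : 𝔼 y, 𝔼 t, F y t = 𝔼 x, h x := by
    have h1 : ∀ y, 𝔼 t, F y t = 𝔼 x : κ → ZMod 3, h (mix V x y) := by
      intro y
      rw [← E_restrict V (F y)]
      refine Finset.expect_congr rfl (fun x _ => ?_)
      simp only [F]
      rw [DEmb.sub_app]
    simp only [h1]
    rw [E_comm, E_mix]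
  have htot : 𝔼 y, (‖Z y‖ + 𝔼 t, F y t) ≤ 2 * lam + s / 8 + s / 8 :=
    Finset.expect_le univ_nonempty (fun y _ => hfib y)
  rw [Finset.expect_add_distrib, hmean] at htot
  linarith

theorem inv {κ : Type} [Fintype κ] [DecidableEq κ] (h : (κ → ZMod 3) → ℝ)
    (hh : ∀ x, |h x| ≤ 1) (ε : ℝ) (hε : 0 < ε) (hε1 : ε ≤ 1) (hP : ε ≤ PT h)
    (hn : 10 ^ 120 * (1 / ε) ^ 200 ≤ (Fintype.card κ : ℝ)) (lam : ℝ) (hl : 0 ≤ lam)
    (hl2 : lam ≤ ε ^ 2 / 1024)
    (hyp : ∀ (μ : Type) [Fintype μ] [DecidableEq μ] (e : DEmb μ κ),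
      (ε / 2) ^ 200 * (Fintype.card κ : ℝ) ≤ (Fintype.card μ : ℝ) → 𝔼 t, h (e.app t) ≤ lam) :
    𝔼 x, h x ≤ -(ε ^ 2 / 256) := by
  classical
  have hr1 : 1 ≤ 1 / ε := by rw [le_div_iff₀ hε]; linarith
  have hr0 : 0 < 1 / ε := by positivity
  have hεr : ε * (1 / ε) = 1 := by field_simp
  set N : ℝ := (Fintype.card κ : ℝ) with hN
  have hN0 : 0 ≤ N := by positivity
  obtain ⟨U, u, hu, hUc, hCU⟩ := findU h hh ε hε hε1 hP (by
    refine le_trans ?_ hn
    exact mul_le_mul (by norm_num) (pow_le_pow_right₀ hr1 (by norm_num)) (by positivity)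
      (by positivity))
  obtain ⟨V, θ, hVU, hθ, hVc, hCV⟩ := unimod U u hu (fun x => (h x : ℂ))
    (by intro x; rw [Complex.norm_real]; exact hh x) (ε ^ 2 / 32) (by positivity) hCU
  -- sizes
  have hbig : 10 ^ 120 * (1 / ε) ^ 6 ≤ ε ^ 134 * N := by
    have h1 : ε ^ 134 * (10 ^ 120 * (1 / ε) ^ 200) = 10 ^ 120 * (1 / ε) ^ 66 := by
      have : (1 / ε) ^ 200 = (1 / ε) ^ 134 * (1 / ε) ^ 66 := by rw [← pow_add]
      rw [this]
      calc ε ^ 134 * (10 ^ 120 * ((1 / ε) ^ 134 * (1 / ε) ^ 66))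
          = 10 ^ 120 * ((ε * (1 / ε)) ^ 134 * (1 / ε) ^ 66) := by rw [mul_pow]; ring
        _ = 10 ^ 120 * (1 / ε) ^ 66 := by rw [hεr, one_pow, one_mul]
    calc (10 : ℝ) ^ 120 * (1 / ε) ^ 6 ≤ 10 ^ 120 * (1 / ε) ^ 66 :=
          mul_le_mul_of_nonneg_left (pow_le_pow_right₀ hr1 (by norm_num)) (by positivity)
      _ = ε ^ 134 * (10 ^ 120 * (1 / ε) ^ 200) := h1.symm
      _ ≤ ε ^ 134 * N := mul_le_mul_of_nonneg_left hn (by positivity)
  have hVc2 : ε ^ 134 * N / 2 ^ 154 - 1 ≤ (V.card : ℝ) := by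
    refine le_trans ?_ hVc
    have h2 : (ε ^ 2 / 32) ^ 2 / 16 * (ε ^ 130 / 2 ^ 140 * N) = ε ^ 134 * N / 2 ^ 154 := by
      rw [div_pow]
      ring
    rw [← h2]
    have h3 : (ε ^ 2 / 32) ^ 2 / 16 * (ε ^ 130 / 2 ^ 140 * N) ≤
        (ε ^ 2 / 32) ^ 2 / 16 * (U.card : ℝ) :=
      mul_le_mul_of_nonneg_left hUc (by positivity)
    linarith
  have hX : 10 ^ 70 * (1 / ε) ^ 6 ≤ ε ^ 134 * N / 2 ^ 154 := by
    rw [le_div_iff₀ (by positivity)]
    refine le_trans ?_ hbig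
    have : (10 : ℝ) ^ 70 * 2 ^ 154 ≤ 10 ^ 120 := by norm_num
    calc (10 : ℝ) ^ 70 * (1 / ε) ^ 6 * 2 ^ 154 = (10 ^ 70 * 2 ^ 154) * (1 / ε) ^ 6 := by ring
      _ ≤ 10 ^ 120 * (1 / ε) ^ 6 := mul_le_mul_of_nonneg_right this (by positivity)
  have hr6 : 1 ≤ (1 / ε) ^ 6 := one_le_pow₀ hr1
  set X : ℝ := ε ^ 134 * N / 2 ^ 154 with hXdef
  have hX1 : (10 : ℝ) ^ 70 ≤ X := by nlinarith [hX, hr6]
  have hs0 : 0 < ε ^ 2 / 128 := by positivity
  have hm : 10 ^ 30 * (8 / (ε ^ 2 / 128)) ^ 3 ≤ (V.card : ℝ) := by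
    have h4 : (8 / (ε ^ 2 / 128)) ^ 3 = 2 ^ 30 * (1 / ε) ^ 6 := by
      field_simp
      norm_num
    rw [h4]
    have h5 : (10 : ℝ) ^ 30 * (2 ^ 30 * (1 / ε) ^ 6) + 1 ≤ 10 ^ 70 * (1 / ε) ^ 6 := by
      have : (10 : ℝ) ^ 30 * 2 ^ 30 + 1 ≤ 10 ^ 70 := by norm_num
      nlinarith
    linarith
  have hmu : ∀ (μ : Type) [Fintype μ] [DecidableEq μ] (_ : DEmb μ κ),
      V.card ≤ 30 ^ 4 * Fintype.card μ → (ε / 2) ^ 200 * N ≤ (Fintype.card μ : ℝ) := by
    intro μ _ _ _ hμ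
    have h6 : (V.card : ℝ) ≤ 30 ^ 4 * (Fintype.card μ : ℝ) := by exact_mod_cast hμ
    have h7 : (ε / 2) ^ 200 * N ≤ X / 2 ^ 46 := by
      rw [hXdef, div_pow]
      have h8 : ε ^ 200 ≤ ε ^ 134 := pow_le_pow_of_le_one hε.le hε1 (by norm_num)
      have h9 : ε ^ 200 / 2 ^ 200 * N ≤ ε ^ 134 / 2 ^ 200 * N := by gcongr
      refine h9.trans (le_of_eq ?_)
      rw [show (2 : ℝ) ^ 200 = 2 ^ 154 * 2 ^ 46 by rw [← pow_add]]
      rw [div_div, div_mul_eq_mul_div]
    have h10 : X / 2 ^ 46 ≤ (X - 1) / 30 ^ 4 := by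
      rw [div_le_div_iff₀ (by positivity) (by positivity)]
      have h11 : (30 : ℝ) ^ 4 * 2 ≤ 2 ^ 46 := by norm_num
      have h12 : X ≤ 2 * (X - 1) := by
        have : (2 : ℝ) ≤ 10 ^ 70 := by norm_num
        linarith
      have hX0 : 0 ≤ X - 1 := by
        have : (1 : ℝ) ≤ 10 ^ 70 := by norm_num
        linarith
      calc X * 30 ^ 4 ≤ 2 * (X - 1) * 30 ^ 4 := mul_le_mul_of_nonneg_right h12 (by positivity)
        _ = (X - 1) * (30 ^ 4 * 2) := by ring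
        _ ≤ (X - 1) * 2 ^ 46 := mul_le_mul_of_nonneg_left h11 hX0
    have h13 : (X - 1) / 30 ^ 4 ≤ (Fintype.card μ : ℝ) := by
      rw [div_le_iff₀ (by positivity)]
      linarith
    linarith
  have key := corr_incr h hh V θ hθ (ε ^ 2 / 128) hs0 (by nlinarith) (by
    refine le_trans (le_of_eq ?_) hCV
    ring) hm lam hl (by nlinarith) (by
      intro μ _ _ e hμ
      exact hyp μ e (hmu μ e hμ))
  refine key.trans ?_
  nlinarith

end H24AP
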