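import Pool.Agent.H24AP.Basic

/-!
# Second half of step B

`K_f v v' = 𝔼 p, f (mix V v p) * f (mix V v' p)`, `g y = f (y - 1)`.  Left side
`= 𝔼 v v', K_f v v' * K_g v v'` (Fubini), `≤ (1/2) 𝔼 (K_f^2 + K_g^2)`, and `𝔼 K_g^2 = 𝔼 K_f^2` by
shifting all variables; so it is at most `Box V f`.  Then `K_f = 𝔼 a, K_{f_a}` where
`f_a x = f (mix U x a)` (`E_mix`, `mix_sub`), so `K_f^2 ≤ 𝔼 a, K_{f_a}^2`.
-/

namespace H24AP

open Finset
open scoped BigOperators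

theorem stepB2_sq {α : Type} [Fintype α] (F : α → ℝ) :
    (𝔼 v, F v) ^ 2 = 𝔼 v, 𝔼 w, F v * F w := by
  rw [sq, Finset.expect_mul]
  refine Finset.expect_congr rfl fun v _ => ?_
  rw [Finset.mul_expect]

theorem stepB2_jensen {α : Type} [Fintype α] [Nonempty α] (F : α → ℝ) :
    (𝔼 v, F v) ^ 2 ≤ 𝔼 v, F v ^ 2 := by
  have h0 : 0 ≤ 𝔼 v, (F v - 𝔼 w, F w) ^ 2 :=
    Finset.expect_nonneg fun v _ => sq_nonneg _
  have h1 : 𝔼 v, (F v - 𝔼 w, F w) ^ 2 = 𝔼 v, F v ^ 2 - (𝔼 w, F w) ^ 2 := by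
    have e : ∀ v, (F v - 𝔼 w, F w) ^ 2 =
        F v ^ 2 - 2 * (𝔼 w, F w) * F v + (𝔼 w, F w) ^ 2 := fun v => by ring
    simp only [e]
    rw [Finset.expect_add_distrib, Finset.expect_sub_distrib, ← Finset.mul_expect]
    simp
    ring
  linarith

theorem stepB2_box {ι : Type} [Fintype ι] [DecidableEq ι] (f : (ι → ZMod 3) → ℝ)
    (V : Finset ι) :
    𝔼 p : ι → ZMod 3, 𝔼 q : ι → ZMod 3,
        (𝔼 v : ι → ZMod 3, f (mix V v p) * f (mix V v q - 1)) ^ 2 ≤ Box V f := by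
  let K : (ι → ZMod 3) → (ι → ZMod 3) → ℝ :=
    fun v w => 𝔼 p : ι → ZMod 3, f (mix V v p) * f (mix V w p)
  let L : (ι → ZMod 3) → (ι → ZMod 3) → ℝ :=
    fun v w => 𝔼 q : ι → ZMod 3, f (mix V v q - 1) * f (mix V w q - 1)
  have hm : ∀ v q : ι → ZMod 3, mix V v q - 1 = mix V (v + (-1)) (q + (-1)) := by
    intro v q; funext i
    by_cases h : i ∈ V <;> simp [mix, h, sub_eq_add_neg]
  have hL : ∀ v w, L v w = K (v + (-1)) (w + (-1)) := by
    intro v w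
    show 𝔼 q : ι → ZMod 3, f (mix V v q - 1) * f (mix V w q - 1) = _
    simp only [hm]
    exact E_shift (-1) (fun q => f (mix V (v + (-1)) q) * f (mix V (w + (-1)) q))
  have h1 : 𝔼 p : ι → ZMod 3, 𝔼 q : ι → ZMod 3,
        (𝔼 v : ι → ZMod 3, f (mix V v p) * f (mix V v q - 1)) ^ 2 =
      𝔼 v, 𝔼 w, K v w * L v w := by
    have a1 : ∀ p q : ι → ZMod 3,
        (𝔼 v : ι → ZMod 3, f (mix V v p) * f (mix V v q - 1)) ^ 2 =
          𝔼 v : ι → ZMod 3, 𝔼 w : ι → ZMod 3,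
            (f (mix V v p) * f (mix V w p)) * (f (mix V v q - 1) * f (mix V w q - 1)) := by
      intro p q
      rw [stepB2_sq]
      refine Finset.expect_congr rfl fun v _ => Finset.expect_congr rfl fun w _ => ?_
      ring
    simp only [a1]
    have a2 : ∀ v w : ι → ZMod 3, K v w * L v w = 𝔼 p : ι → ZMod 3, 𝔼 q : ι → ZMod 3,
        (f (mix V v p) * f (mix V w p)) * (f (mix V v q - 1) * f (mix V w q - 1)) := by
      intro v w
      show (𝔼 p : ι → ZMod 3, f (mix V v p) * f (mix V w p)) * L v w = _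
      rw [Finset.expect_mul]
      refine Finset.expect_congr rfl fun p _ => ?_
      show _ * (𝔼 q : ι → ZMod 3, f (mix V v q - 1) * f (mix V w q - 1)) = _
      rw [Finset.mul_expect]
    simp only [a2]
    -- exchange averages
    have b1 : ∀ p : ι → ZMod 3, (𝔼 q : ι → ZMod 3, 𝔼 v : ι → ZMod 3, 𝔼 w : ι → ZMod 3,
        (f (mix V v p) * f (mix V w p)) * (f (mix V v q - 1) * f (mix V w q - 1))) =
        𝔼 v : ι → ZMod 3, 𝔼 w : ι → ZMod 3, 𝔼 q : ι → ZMod 3,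
        (f (mix V v p) * f (mix V w p)) * (f (mix V v q - 1) * f (mix V w q - 1)) := by
      intro p
      rw [E_comm]
      refine Finset.expect_congr rfl fun v _ => ?_
      rw [E_comm]
    simp only [b1]
    rw [E_comm]
    refine Finset.expect_congr rfl fun v _ => ?_
    rw [E_comm]
  rw [h1]
  have h2 : 𝔼 v, 𝔼 w, K v w * L v w ≤ 𝔼 v, 𝔼 w, (K v w ^ 2 / 2 + L v w ^ 2 / 2) := by
    refine Finset.expect_le_expect fun v _ => Finset.expect_le_expect fun w _ => ?_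
    nlinarith [sq_nonneg (K v w - L v w)]
  refine h2.trans (le_of_eq ?_)
  have h3 : 𝔼 v : ι → ZMod 3, 𝔼 w : ι → ZMod 3, L v w ^ 2 / 2 =
      𝔼 v : ι → ZMod 3, 𝔼 w : ι → ZMod 3, K v w ^ 2 / 2 := by
    simp only [hL]
    have c1 : ∀ v : ι → ZMod 3, (𝔼 w : ι → ZMod 3, K (v + (-1)) (w + (-1)) ^ 2 / 2) =
        𝔼 w : ι → ZMod 3, K (v + (-1)) w ^ 2 / 2 := fun v =>
      E_shift (-1) (fun w => K (v + (-1)) w ^ 2 / 2)
    simp only [c1]
    exact E_shift (-1) (fun v => 𝔼 w : ι → ZMod 3, K v w ^ 2 / 2)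
  simp only [Finset.expect_add_distrib]
  rw [h3, ← Finset.expect_add_distrib]
  show _ = 𝔼 v : ι → ZMod 3, 𝔼 w : ι → ZMod 3, K v w ^ 2
  refine Finset.expect_congr rfl fun v _ => ?_
  rw [← Finset.expect_add_distrib]
  refine Finset.expect_congr rfl fun w _ => ?_
  ring

theorem stepB2 {ι : Type} [Fintype ι] [DecidableEq ι] (f : (ι → ZMod 3) → ℝ)
    (U V : Finset ι) (hVU : V ⊆ U) :
    𝔼 p : ι → ZMod 3, 𝔼 q : ι → ZMod 3,
        (𝔼 v : ι → ZMod 3, f (mix V v p) * f (mix V v q - 1)) ^ 2 ≤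
      𝔼 a : ι → ZMod 3, Box V (fun x => f (mix U x a)) := by
  refine (stepB2_box f V).trans ?_
  have h1 : ∀ v w : ι → ZMod 3,
      (𝔼 p : ι → ZMod 3, f (mix V v p) * f (mix V w p)) =
        𝔼 a : ι → ZMod 3, 𝔼 p : ι → ZMod 3,
          f (mix U (mix V v p) a) * f (mix U (mix V w p) a) := by
    intro v w
    rw [E_comm, ← E_mix U (fun p => f (mix V v p) * f (mix V w p))]
    refine Finset.expect_congr rfl fun p _ => Finset.expect_congr rfl fun a _ => ?_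
    rw [mix_sub hVU, mix_sub hVU]
  have h2 : Box V f ≤ 𝔼 v : ι → ZMod 3, 𝔼 w : ι → ZMod 3, 𝔼 a : ι → ZMod 3,
      (𝔼 p : ι → ZMod 3, f (mix U (mix V v p) a) * f (mix U (mix V w p) a)) ^ 2 := by
    refine Finset.expect_le_expect fun v _ => Finset.expect_le_expect fun w _ => ?_
    rw [h1 v w]
    exact stepB2_jensen _
  refine h2.trans (le_of_eq ?_)
  have h3 : ∀ v : ι → ZMod 3, (𝔼 w : ι → ZMod 3, 𝔼 a : ι → ZMod 3,
      (𝔼 p : ι → ZMod 3, f (mix U (mix V v p) a) * f (mix U (mix V w p) a)) ^ 2) =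
      𝔼 a : ι → ZMod 3, 𝔼 w : ι → ZMod 3,
      (𝔼 p : ι → ZMod 3, f (mix U (mix V v p) a) * f (mix U (mix V w p) a)) ^ 2 := by
    intro v
    rw [E_comm]
  simp only [h3]
  rw [E_comm]
  rfl

end H24AP
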