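import Pool.Agent.H24AP.Basic

/-!
# The product test of a restriction
-/

namespace H24AP

open Finset
open scoped BigOperators

/-- Traces of finite sets on `U` and on its complement. -/
def traceEquiv {ι : Type} [DecidableEq ι] (U : Finset ι) :
    Finset ι ≃ Finset U × Finset {i : ι // ¬ i ∈ U} where
  toFun A := (A.subtype (fun i => i ∈ U), A.subtype (fun i => ¬ i ∈ U))
  invFun p := p.1.map (Function.Embedding.subtype _) ∪ p.2.map (Function.Embedding.subtype _)
  left_inv A := by
    ext i
    by_cases h : i ∈ U <;> simp [h]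
  right_inv p := by
    ext i
    · obtain ⟨i, hi⟩ := i
      simp [hi]
    · obtain ⟨i, hi⟩ := i
      simp [hi]

theorem E_trace {ι : Type} [Fintype ι] [DecidableEq ι] (U : Finset ι) (F : Finset U → ℝ) :
    𝔼 A : Finset ι, F (A.subtype (fun i => i ∈ U)) = 𝔼 V, F V := by
  have h3 : 𝔼 A : Finset ι, F (A.subtype (fun i => i ∈ U)) =
      𝔼 p : Finset U × Finset {i : ι // ¬ i ∈ U}, F p.1 :=
    E_equiv (traceEquiv U) (fun p => F p.1)
  rw [h3, E_prod (fun (t : Finset U) (_ : Finset {i : ι // ¬ i ∈ U}) => F t)]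
  simp

/-- `E_restrict`, `sub_app`; the average over `A' : Finset U` is the average over `A : Finset ι`
of the trace of `A` on `U`. -/
theorem PT_sub {ι : Type} [Fintype ι] [DecidableEq ι] (f : (ι → ZMod 3) → ℝ)
    (U : Finset ι) (a : ι → ZMod 3) :
    PT (fun t : U → ZMod 3 => f ((DEmb.sub U a).app t)) =
      𝔼 A : Finset ι, Box (U ∩ A) (fun x => f (mix U x a)) := by
  have hmix : ∀ (A : Finset ι) (v p : ι → ZMod 3),
      mix (A.subtype (fun i => i ∈ U)) (fun i : U => v i) (fun i : U => p i) =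
        fun i : U => mix (U ∩ A) v p i := by
    intro A v p
    funext i
    obtain ⟨i, hi⟩ := i
    by_cases h : i ∈ A <;> simp [mix, hi, h]
  rw [PT, ← E_trace]
  refine Finset.expect_congr rfl fun A _ => ?_
  rw [Box, Box, ← E_restrict U]
  refine Finset.expect_congr rfl fun v _ => ?_
  rw [← E_restrict U]
  refine Finset.expect_congr rfl fun v' _ => ?_
  rw [← E_restrict U]
  congr 1
  refine Finset.expect_congr rfl fun p _ => ?_
  rw [hmix, hmix, DEmb.sub_app, DEmb.sub_app]

theorem PT_nonneg {ι : Type} [Fintype ι] [DecidableEq ι] (h : (ι → ZMod 3) → ℝ) : 0 ≤ PT h :=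
  Finset.expect_nonneg fun _ _ => Finset.expect_nonneg fun _ _ =>
    Finset.expect_nonneg fun _ _ => sq_nonneg _

theorem PT_le_one {ι : Type} [Fintype ι] [DecidableEq ι] (h : (ι → ZMod 3) → ℝ)
    (hh : ∀ x, |h x| ≤ 1) : PT h ≤ 1 := by
  refine Finset.expect_le Finset.univ_nonempty fun V _ => ?_
  refine Finset.expect_le Finset.univ_nonempty fun v _ => ?_
  refine Finset.expect_le Finset.univ_nonempty fun v' _ => ?_
  have h1 : |𝔼 p : ι → ZMod 3, h (mix V v p) * h (mix V v' p)| ≤ 1 := by
    refine (Finset.abs_expect_le _ _).trans ?_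
    refine Finset.expect_le Finset.univ_nonempty fun p _ => ?_
    rw [abs_mul]
    exact mul_le_one₀ (hh _) (abs_nonneg _) (hh _)
  exact (sq_le_one_iff_abs_le_one _).2 h1

end H24AP
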