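import Pool.Agent.H24AP.StepB1
import Pool.Agent.H24AP.StepB2
import Pool.Agent.H24AP.StepB3

/-!
# Step B
-/

namespace H24AP

open Finset
open scoped BigOperators

/-- `Lam f f f = 𝔼 z, f z * (𝔼 D, f (z + ind D) * f (z + ind D + ind D))`, Cauchy-Schwarz
(`Finset.expect_mul_sq_le_sq_mul_sq`), then `stepB1`, `stepB2`, `PT_sub`. -/
theorem stepB {ι : Type} [Fintype ι] [DecidableEq ι] (f : (ι → ZMod 3) → ℝ) :
    (Lam f f f) ^ 2 ≤ (𝔼 x, f x ^ 2) *
      𝔼 U : Finset ι, 𝔼 a : ι → ZMod 3,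
        PT (fun t : U → ZMod 3 => f ((DEmb.sub U a).app t)) := by
  have h1 : Lam f f f =
      𝔼 z : ι → ZMod 3, f z * (𝔼 D : Finset ι, f (z + ind D) * f (z + ind D + ind D)) := by
    unfold Lam
    refine Finset.expect_congr rfl fun z _ => ?_
    rw [Finset.mul_expect]
    refine Finset.expect_congr rfl fun D _ => ?_
    ring
  have h2 : (Lam f f f) ^ 2 ≤ (𝔼 x, f x ^ 2) *
      𝔼 z : ι → ZMod 3, (𝔼 D : Finset ι, f (z + ind D) * f (z + ind D + ind D)) ^ 2 := by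
    rw [h1]
    exact Finset.expect_mul_sq_le_sq_mul_sq _ _ _
  have h3 : (𝔼 U : Finset ι, 𝔼 A : Finset ι, 𝔼 p : ι → ZMod 3, 𝔼 q : ι → ZMod 3,
        (𝔼 v : ι → ZMod 3, f (mix (U ∩ A) v p) * f (mix (U ∩ A) v q - 1)) ^ 2) ≤
      𝔼 U : Finset ι, 𝔼 a : ι → ZMod 3,
        PT (fun t : U → ZMod 3 => f ((DEmb.sub U a).app t)) := by
    refine Finset.expect_le_expect fun U _ => ?_
    have h4 : (𝔼 a : ι → ZMod 3, PT (fun t : U → ZMod 3 => f ((DEmb.sub U a).app t))) =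
        𝔼 A : Finset ι, 𝔼 a : ι → ZMod 3, Box (U ∩ A) (fun x => f (mix U x a)) := by
      rw [Finset.expect_comm]
      refine Finset.expect_congr rfl fun a _ => ?_
      exact PT_sub f U a
    rw [h4]
    refine Finset.expect_le_expect fun A _ => ?_
    exact stepB2 f U (U ∩ A) Finset.inter_subset_left
  have h5 : 0 ≤ 𝔼 x : ι → ZMod 3, f x ^ 2 :=
    Finset.expect_nonneg fun x _ => sq_nonneg _
  exact h2.trans (mul_le_mul_of_nonneg_left ((stepB1 f).trans h3) h5)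

end H24AP
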