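import Pool.Agent.H24AP.Expand
import Pool.Agent.H24AP.Case1
import Pool.Agent.H24AP.StepB
import Pool.Agent.H24AP.Inv

/-!
# The density increment
-/

namespace H24AP

open Finset
open scoped BigOperators

/-- Renaming the coordinates of a cube. -/
def DEmb.reindex {κ μ ι : Type} (e : DEmb κ ι) (σ : κ ≃ μ) : DEmb μ ι where
  y := e.y
  blk := fun i => (e.blk i).map σ
  surj := by
    intro j
    obtain ⟨i, hi⟩ := e.surj (σ.symm j)
    exact ⟨i, by simp [hi]⟩

theorem DEmb.reindex_app {κ μ ι : Type} (e : DEmb κ ι) (σ : κ ≃ μ) (t : μ → ZMod 3) :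
    (e.reindex σ).app t = e.app (fun k => t (σ k)) := by
  funext i
  simp only [DEmb.app, DEmb.reindex]
  cases h : e.blk i with
  | none => simp
  | some k => simp

theorem DEmb.reindex_E {κ μ ι : Type} [Fintype κ] [DecidableEq κ] [Fintype μ] [DecidableEq μ]
    (e : DEmb κ ι) (σ : κ ≃ μ) (F : (ι → ZMod 3) → ℝ) :
    𝔼 t, F ((e.reindex σ).app t) = 𝔼 t, F (e.app t) := by
  simp only [DEmb.reindex_app]
  exact E_equiv (Equiv.arrowCongr σ.symm (Equiv.refl (ZMod 3))) (fun t => F (e.app t))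

theorem DEmb.sub_E {ι : Type} [Fintype ι] [DecidableEq ι] (U : Finset ι) (y : ι → ZMod 3)
    (F : (ι → ZMod 3) → ℝ) :
    𝔼 t : U → ZMod 3, F ((DEmb.sub U y).app t) = 𝔼 x : ι → ZMod 3, F (mix U x y) := by
  rw [← E_restrict U (fun t => F ((DEmb.sub U y).app t))]
  refine Finset.expect_congr rfl (fun x _ => ?_)
  rw [DEmb.sub_app]

theorem incr {ι : Type} [Fintype ι] [DecidableEq ι] (a : (ι → ZMod 3) → ℝ) (ha : IsFree a)
    (α : ℝ) (hα0 : 0 < α) (hα : 𝔼 x, a x = α)
    (hn : (4 / α) ^ 1000 ≤ (Fintype.card ι : ℝ)) :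
    ∃ (m : ℕ) (e : DEmb (Fin m) ι), (α / 2) ^ 1002 * (Fintype.card ι : ℝ) ≤ m ∧
      α + α ^ 15 / 10 ^ 10 ≤ 𝔼 t, a (e.app t) := by
  classical
  by_contra hcon
  push Not at hcon
  set n : ℝ := (Fintype.card ι : ℝ) with hndef
  have H : ∀ (μ : Type) [Fintype μ] [DecidableEq μ] (e : DEmb μ ι),
      (α / 2) ^ 1002 * n ≤ (Fintype.card μ : ℝ) → 𝔼 t, a (e.app t) < α + α ^ 15 / 10 ^ 10 := by
    intro μ _ _ e hμ
    have := hcon (Fintype.card μ) (e.reindex (Fintype.equivFin μ)) hμ
    rwa [DEmb.reindex_E] at this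
  have h01 : ∀ x, 0 ≤ a x ∧ a x ≤ 1 := by
    intro x
    rcases ha.zo x with h | h <;> rw [h] <;> norm_num
  have hα1 : α ≤ 1 := by
    rw [← hα]
    exact Finset.expect_le univ_nonempty (fun x _ => (h01 x).2)
  -- size bookkeeping
  have hq : 1 ≤ 4 / α := by rw [le_div_iff₀ hα0]; linarith
  have hpow : ∀ k : ℕ, k ≤ 1000 → (4 / α) ^ k ≤ n := fun k hk =>
    (pow_le_pow_right₀ hq hk).trans hn
  have hn0 : 0 < n := lt_of_lt_of_le (by positivity) hn
  have hhalf : (α / 2) ^ 1002 ≤ (α / 2) ^ 1000 * (1 / 4) := by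
    have h1 : (α / 2) ^ 1002 = (α / 2) ^ 1000 * (α / 2) ^ 2 := by rw [← pow_add]
    rw [h1]
    refine mul_le_mul_of_nonneg_left ?_ (by positivity)
    nlinarith
  have hle1 : (α / 2) ^ 1000 ≤ 1 := pow_le_one₀ (by positivity) (by linarith)
  -- the restricted function
  set f : (ι → ZMod 3) → ℝ := fun x => a x - α with hf
  have hf1 : ∀ x, |f x| ≤ 1 := by
    intro x
    rw [abs_le]
    have := h01 x
    constructor <;> simp only [f] <;> linarith
  have hfmean : 𝔼 x, f x = 0 := by
    simp only [f]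
    rw [Finset.expect_sub_distrib, hα, Fintype.expect_const]
    ring
  have hexp := expand a ha α hα
  have hsmall : α / 2 ^ Fintype.card ι ≤ α ^ 3 / 4 := by
    have h1 : (4 / α) ^ 2 ≤ n := hpow 2 (by norm_num)
    have h2 : n ≤ (2 : ℝ) ^ Fintype.card ι := by
      have := (Nat.lt_two_pow_self (n := Fintype.card ι)).le
      rw [hndef]
      exact_mod_cast this
    have h3 : (4 / α) ^ 2 ≤ (2 : ℝ) ^ Fintype.card ι := h1.trans h2
    rw [div_le_iff₀ (by positivity)]
    have h4 : α ^ 3 / 4 * (4 / α) ^ 2 = 4 * α := by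
      field_simp
    have h5 : α ^ 3 / 4 * (4 / α) ^ 2 ≤ α ^ 3 / 4 * 2 ^ Fintype.card ι :=
      mul_le_mul_of_nonneg_left h3 (by positivity)
    linarith
  have hlam : α ^ 15 / 10 ^ 10 ≤ α ^ 2 / 48 := by
    have h1 : α ^ 15 ≤ α ^ 2 := pow_le_pow_of_le_one hα0.le hα1 (by norm_num)
    have h2 : 0 ≤ α ^ 2 := by positivity
    rw [div_le_div_iff₀ (by positivity) (by positivity)]
    nlinarith
  have hsub : ∀ (U : Finset ι) (y : ι → ZMod 3), n ≤ 4 * U.card →
      𝔼 x, a (mix U x y) < α + α ^ 15 / 10 ^ 10 := by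
    intro U y hU
    have := H U (DEmb.sub U y) (by
      rw [Fintype.card_coe]
      calc (α / 2) ^ 1002 * n ≤ ((α / 2) ^ 1000 * (1 / 4)) * n :=
            mul_le_mul_of_nonneg_right hhalf hn0.le
        _ ≤ (1 * (1 / 4)) * n := by gcongr
        _ ≤ U.card := by linarith)
    rwa [DEmb.sub_E U y a] at this
  rcases le_or_gt (α ^ 2 / 12) (W f) with hW | hW
  · -- case 1
    obtain ⟨V, y, hV, hVa⟩ := case1 a h01 α hα (α ^ 2 / 12) (by positivity) hW (by
      have h1 : (4 / α) ^ 4 ≤ n := hpow 4 (by norm_num)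
      have h2 : α ^ 2 / 12 * (4 / α) ^ 4 ≤ α ^ 2 / 12 * n :=
        mul_le_mul_of_nonneg_left h1 (by positivity)
      have h3 : (16 : ℝ) ≤ α ^ 2 / 12 * (4 / α) ^ 4 := by
        have h4 : α ^ 2 / 12 * (4 / α) ^ 4 = 64 / 3 / α ^ 2 := by
          field_simp
          ring
        rw [h4, le_div_iff₀ (by positivity)]
        nlinarith
      linarith)
    have h5 := hsub V y hV
    linarith
  · -- case 2
    have hLam : α ^ 3 / 2 ≤ |Lam f f f| := by
      have h1 : 3 * α * W f ≤ 3 * α * (α ^ 2 / 12) :=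
        mul_le_mul_of_nonneg_left hW.le (by positivity)
      nlinarith
    have hf2 : 𝔼 x, f x ^ 2 ≤ α := by
      have h1 : ∀ x, f x ^ 2 = a x - 2 * α * a x + α ^ 2 := by
        intro x
        simp only [f]
        rcases ha.zo x with h | h <;> rw [h] <;> ring
      simp only [h1]
      rw [Finset.expect_add_distrib, Finset.expect_sub_distrib, ← Finset.mul_expect, hα,
        Fintype.expect_const]
      nlinarith
    have hB := stepB f
    set Q : ℝ := 𝔼 U : Finset ι, 𝔼 y : ι → ZMod 3,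
        PT (fun t : U → ZMod 3 => f ((DEmb.sub U y).app t)) with hQ
    have hQ0 : 0 ≤ Q := Finset.expect_nonneg (fun U _ => Finset.expect_nonneg (fun y _ => PT_nonneg _))
    have hQ1 : α ^ 5 / 4 ≤ Q := by
      have h1 : (α ^ 3 / 2) ^ 2 ≤ (Lam f f f) ^ 2 := by
        rw [← sq_abs (Lam f f f)]
        exact pow_le_pow_left₀ (by positivity) hLam 2
      have h2 : (𝔼 x, f x ^ 2) * Q ≤ α * Q := mul_le_mul_of_nonneg_right hf2 hQ0
      have h3 : α * (α ^ 5 / 4) ≤ α * Q := by nlinarith
      exact le_of_mul_le_mul_left h3 hα0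
    obtain ⟨U, hUc, hU⟩ := cheb_half (fun U : Finset ι => 𝔼 y : ι → ZMod 3,
        PT (fun t : U → ZMod 3 => f ((DEmb.sub U y).app t)))
      (fun U => Finset.expect_le univ_nonempty (fun y _ => PT_le_one _ (fun t => hf1 _)))
      (α ^ 5 / 4) (by positivity) (by
        have h1 : (4 / α) ^ 5 ≤ n := hpow 5 (by norm_num)
        have h2 : α ^ 5 / 4 * (4 / α) ^ 5 ≤ α ^ 5 / 4 * n :=
          mul_le_mul_of_nonneg_left h1 (by positivity)
        have h3 : α ^ 5 / 4 * (4 / α) ^ 5 = 256 := by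
          field_simp
          norm_num
        linarith) hQ1
    set ε : ℝ := α ^ 5 / 16 with hε
    have hε0 : 0 < ε := by positivity
    have hα5 : α ^ 5 ≤ 1 := pow_le_one₀ hα0.le hα1
    have hε1 : ε ≤ 1 := by rw [hε]; linarith
    set lam : ℝ := α ^ 15 / 10 ^ 10 with hlamdef
    have hlam0 : 0 ≤ lam := by positivity
    have hlamε : lam < ε ^ 3 / 256 := by
      have h1 : ε ^ 3 / 256 = α ^ 15 / 1048576 := by rw [hε]; ring
      have h2 : 0 < α ^ 15 := by positivity
      rw [h1, hlamdef]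
      rw [div_lt_div_iff₀ (by positivity) (by positivity)]
      nlinarith
    have hmean : ∀ (μ : Type) [Fintype μ] [DecidableEq μ] (e : DEmb μ ι),
        (α / 2) ^ 1002 * n ≤ (Fintype.card μ : ℝ) → 𝔼 t, f (e.app t) ≤ lam := by
      intro μ _ _ e hμ
      have h1 := H μ e hμ
      simp only [f]
      rw [Finset.expect_sub_distrib, Fintype.expect_const]
      linarith
    have hUn : n / 4 ≤ (U.card : ℝ) := by linarith
    have hεpow : (ε / 2) ^ 200 = (α / 2) ^ 1000 := by
      have h1 : ε / 2 = (α / 2) ^ 5 := by rw [hε]; ring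
      rw [h1, ← pow_mul]
    -- the bound for every fibre
    have hfib : ∀ y : ι → ZMod 3,
        𝔼 t : U → ZMod 3, f ((DEmb.sub U y).app t) ≤
          lam - (PT (fun t : U → ZMod 3 => f ((DEmb.sub U y).app t)) - ε) * (ε ^ 2 / 256) := by
      intro y
      have hPT1 := PT_le_one (fun t : U → ZMod 3 => f ((DEmb.sub U y).app t)) (fun t => hf1 _)
      rcases le_or_gt ε (PT (fun t : U → ZMod 3 => f ((DEmb.sub U y).app t))) with hP | hP
      · have key := inv (fun t : U → ZMod 3 => f ((DEmb.sub U y).app t)) (fun t => hf1 _) ε hε0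
          hε1 hP (by
            rw [Fintype.card_coe]
            refine le_trans ?_ hUn
            rw [le_div_iff₀ (by norm_num)]
            refine le_trans ?_ hn
            have h1 : (1 / ε) = (4 / α) ^ 5 * (1 / 64) := by
              rw [hε]
              field_simp
              norm_num
            rw [h1, mul_pow, ← pow_mul]
            have h2 : (10 : ℝ) ^ 120 * (1 / 64) ^ 200 * 4 ≤ 1 := by norm_num
            have h3 : 0 < (4 / α) ^ (5 * 200) := by positivity
            calc (10 : ℝ) ^ 120 * ((4 / α) ^ (5 * 200) * (1 / 64) ^ 200) * 4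
                = (4 / α) ^ (5 * 200) * (10 ^ 120 * (1 / 64) ^ 200 * 4) := by ring
              _ ≤ (4 / α) ^ (5 * 200) * 1 := mul_le_mul_of_nonneg_left h2 h3.le
              _ = (4 / α) ^ 1000 := by rw [mul_one, show 5 * 200 = 1000 from rfl])
          lam hlam0 (by nlinarith) (by
            intro μ _ _ e hμ
            have h1 := hmean μ ((DEmb.sub U y).comp e) (by
              refine le_trans ?_ hμ
              rw [Fintype.card_coe, hεpow]
              calc (α / 2) ^ 1002 * n ≤ ((α / 2) ^ 1000 * (1 / 4)) * n :=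
                    mul_le_mul_of_nonneg_right hhalf hn0.le
                _ = (α / 2) ^ 1000 * (n / 4) := by ring
                _ ≤ (α / 2) ^ 1000 * U.card := mul_le_mul_of_nonneg_left hUn (by positivity))
            simp only [DEmb.comp_app] at h1
            exact h1)
        have h5 : 0 ≤ ε ^ 2 / 256 := by positivity
        nlinarith
      · have h1 := hmean U (DEmb.sub U y) (by
          rw [Fintype.card_coe]
          calc (α / 2) ^ 1002 * n ≤ ((α / 2) ^ 1000 * (1 / 4)) * n :=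
                mul_le_mul_of_nonneg_right hhalf hn0.le
            _ ≤ (1 * (1 / 4)) * n := by gcongr
            _ ≤ U.card := by linarith)
        have h5 : 0 ≤ ε ^ 2 / 256 := by positivity
        nlinarith
    have htot : 𝔼 y : ι → ZMod 3, 𝔼 t : U → ZMod 3, f ((DEmb.sub U y).app t) = 0 := by
      have h1 : ∀ y : ι → ZMod 3, 𝔼 t : U → ZMod 3, f ((DEmb.sub U y).app t) =
          𝔼 x : ι → ZMod 3, f (mix U x y) := fun y => DEmb.sub_E U y f
      simp only [h1]
      rw [E_comm, E_mix, hfmean]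
    have havg : 𝔼 y : ι → ZMod 3, 𝔼 t : U → ZMod 3, f ((DEmb.sub U y).app t) ≤
        𝔼 y : ι → ZMod 3, (lam -
          (PT (fun t : U → ZMod 3 => f ((DEmb.sub U y).app t)) - ε) * (ε ^ 2 / 256)) :=
      Finset.expect_le_expect (fun y _ => hfib y)
    rw [htot, Finset.expect_sub_distrib, ← Finset.expect_mul, Finset.expect_sub_distrib,
      Fintype.expect_const, Fintype.expect_const] at havg
    have h6 : 2 * ε ≤ 𝔼 y : ι → ZMod 3,
        PT (fun t : U → ZMod 3 => f ((DEmb.sub U y).app t)) := by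
      refine le_trans (le_of_eq ?_) hU
      rw [hε]; ring
    have h7 : ε * (ε ^ 2 / 256) ≤ (𝔼 y : ι → ZMod 3,
        PT (fun t : U → ZMod 3 => f ((DEmb.sub U y).app t)) - ε) * (ε ^ 2 / 256) :=
      mul_le_mul_of_nonneg_right (by linarith) (by positivity)
    nlinarith

end H24AP
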