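import Pool.Agent.H24AP.Uni

/-!
# The bilinear terms

Instance of `uni` with `X = ZMod 3`, `E = J/3` (all entries `1/3`), `O₁ = O₂ = P`, the
permutation matrix of one of the two rotations, so that `(3E - P)/2 = (1 + P^{-1})/2`.
-/

namespace H24AP

open Finset
open scoped BigOperators

section lam2aux

/-- The rotation matrix. -/
def rotP : Matrix (ZMod 3) (ZMod 3) ℝ := fun x y => if y = x + 2 then 1 else 0

/-- The averaging matrix. -/
noncomputable def avgE : Matrix (ZMod 3) (ZMod 3) ℝ := fun _ _ => 1 / 3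

theorem avgE_mul : avgE * avgE = avgE := by
  ext x y
  simp only [Matrix.mul_apply, avgE, Finset.sum_const, Finset.card_univ, ZMod.card]
  norm_num

theorem avgE_t : avgE.transpose = avgE := by
  ext x y; simp [avgE]

theorem rotP_avgE : rotP * avgE = avgE := by
  ext x y
  simp [Matrix.mul_apply, avgE, rotP]

theorem rotP_orth : rotP.transpose * rotP = 1 := by
  ext x y
  rw [Matrix.mul_apply]
  simp only [Matrix.transpose_apply, rotP, Matrix.one_apply]
  have : ∀ z : ZMod 3, ((if x = z + 2 then (1 : ℝ) else 0) * if y = z + 2 then 1 else 0) =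
      if z = x - 2 then (if x = y then 1 else 0) else 0 := by
    intro z
    by_cases h : z = x - 2
    · subst h
      by_cases h2 : x = y
      · subst h2; simp
      · have h3 : ¬ (y = x) := fun h4 => h2 h4.symm
        simp [h2, h3]
    · have h3 : ¬ (x = z + 2) := by
        intro h4; apply h; rw [h4]; ring
      simp [h, h3]
  simp only [this]
  simp

theorem site_mat (x y : ZMod 3) :
    ((1 / 2 : ℝ) • ((3 : ℝ) • avgE - (1 / 2 : ℝ) • (rotP + rotP))) x y =
      (1 / 2 : ℝ) * ((if y = x + 1 then 1 else 0) + (if y = x then 1 else 0)) := by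
  have h : ∀ x y : ZMod 3, (y = x + 2 ∧ ¬ y = x + 1 ∧ ¬ y = x) ∨
      (¬ y = x + 2 ∧ y = x + 1 ∧ ¬ y = x) ∨ (¬ y = x + 2 ∧ ¬ y = x + 1 ∧ y = x) := by decide
  simp only [Matrix.smul_apply, Matrix.sub_apply, Matrix.add_apply, avgE, rotP, smul_eq_mul]
  rcases h x y with ⟨h1, h2, h3⟩ | ⟨h1, h2, h3⟩ | ⟨h1, h2, h3⟩
  · rw [if_pos h1, if_neg h2, if_neg h3]; norm_num
  · rw [if_neg h1, if_pos h2, if_neg h3]; norm_num
  · rw [if_neg h1, if_neg h2, if_pos h3]; norm_num

variable {ι : Type} [Fintype ι] [DecidableEq ι]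

theorem prod_ind (x y : ι → ZMod 3) (D : Finset ι) :
    (∏ i ∈ D, (if y i = x i + 1 then (1 : ℝ) else 0)) *
      ∏ i ∈ univ \ D, (if y i = x i then (1 : ℝ) else 0) =
      if y = x + ind D then 1 else 0 := by
  by_cases h : y = x + ind D
  · rw [if_pos h, Finset.prod_eq_one, Finset.prod_eq_one, one_mul]
    · intro i hi
      have hi' : i ∉ D := by simpa using hi
      rw [if_pos]; rw [h]; simp [ind, hi']
    · intro i hi
      rw [if_pos]; rw [h]; simp [ind, hi]
  · rw [if_neg h]
    by_contra hne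
    apply h
    funext i
    by_cases hi : i ∈ D
    · have h1 : (∏ i ∈ D, (if y i = x i + 1 then (1 : ℝ) else 0)) ≠ 0 := left_ne_zero_of_mul hne
      have h2 := (Finset.prod_ne_zero_iff.1 h1) i hi
      have h3 : y i = x i + 1 := by
        by_contra h4; exact h2 (if_neg h4)
      rw [h3]; simp [ind, hi]
    · have h1 : (∏ i ∈ univ \ D, (if y i = x i then (1 : ℝ) else 0)) ≠ 0 :=
        right_ne_zero_of_mul hne
      have h2 := (Finset.prod_ne_zero_iff.1 h1) i (by simp [hi])
      have h3 : y i = x i := by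
        by_contra h4; exact h2 (if_neg h4)
      rw [h3]; simp [ind, hi]

theorem kernel_left (f : (ι → ZMod 3) → ℝ) (x : ι → ZMod 3) :
    ∑ y, (∏ i, ((1 / 2 : ℝ) • ((3 : ℝ) • avgE - (1 / 2 : ℝ) • (rotP + rotP))) (x i) (y i)) * f y =
      𝔼 D : Finset ι, f (x + ind D) := by
  have h1 : ∀ y : ι → ZMod 3,
      (∏ i, ((1 / 2 : ℝ) • ((3 : ℝ) • avgE - (1 / 2 : ℝ) • (rotP + rotP))) (x i) (y i)) =
      (1 / 2 : ℝ) ^ (Fintype.card ι) * ∑ D : Finset ι, if y = x + ind D then 1 else 0 := by
    intro y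
    simp only [site_mat]
    rw [Finset.prod_mul_distrib, Finset.prod_const, Finset.card_univ, Finset.prod_add]
    congr 1
    rw [Finset.powerset_univ]
    exact Finset.sum_congr rfl (fun D _ => prod_ind x y D)
  simp only [h1, mul_assoc, Finset.sum_mul, ← Finset.mul_sum]
  rw [Finset.sum_comm]
  simp only [ite_mul, one_mul, zero_mul, Finset.sum_ite_eq', Finset.mem_univ, if_true]
  rw [Fintype.expect_eq_sum_div_card, Fintype.card_finset]
  push_cast
  rw [one_div, inv_pow]
  ring

theorem kernel_right (f : (ι → ZMod 3) → ℝ) (V : Finset ι) (x : ι → ZMod 3) :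
    ∑ y, (∏ i, (if i ∈ V then avgE else (1 : Matrix (ZMod 3) (ZMod 3) ℝ)) (x i) (y i)) * f y =
      𝔼 z : ι → ZMod 3, f (mix V z x) := by
  have h1 : ∀ y : ι → ZMod 3,
      (∏ i, (if i ∈ V then avgE else (1 : Matrix (ZMod 3) (ZMod 3) ℝ)) (x i) (y i)) =
      (1 / 3 : ℝ) ^ (Fintype.card ι) * ∑ z : ι → ZMod 3, if y = mix V z x then 1 else 0 := by
    intro y
    have h2 : ∀ z : ι → ZMod 3, (if y = mix V z x then (1 : ℝ) else 0) =
        ∏ i, if y i = (if i ∈ V then z i else x i) then (1 : ℝ) else 0 := by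
      intro z
      by_cases h : y = mix V z x
      · rw [if_pos h, Finset.prod_eq_one]
        intro i _
        rw [if_pos]; rw [h]; simp [mix]
      · rw [if_neg h]
        obtain ⟨i, hi⟩ := Function.ne_iff.1 h
        symm
        apply Finset.prod_eq_zero (Finset.mem_univ i)
        rw [if_neg]
        simpa [mix] using hi
    simp only [h2]
    have h3 : ∑ z : ι → ZMod 3, ∏ i, (if y i = (if i ∈ V then z i else x i) then (1 : ℝ) else 0) =
        ∏ i, ∑ t : ZMod 3, if y i = (if i ∈ V then t else x i) then (1 : ℝ) else 0 := by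
      rw [Finset.prod_univ_sum]
      simp
    rw [h3, ← Finset.card_univ, ← Finset.prod_const, ← Finset.prod_mul_distrib]
    apply Finset.prod_congr rfl
    intro i _
    by_cases hi : i ∈ V
    · simp [hi, avgE]
    · simp only [hi, if_false, Matrix.one_apply, Finset.sum_const, Finset.card_univ, ZMod.card]
      by_cases hxy : x i = y i
      · simp [hxy]
      · simp [hxy, Ne.symm hxy]
  simp only [h1, mul_assoc, Finset.sum_mul, ← Finset.mul_sum]
  rw [Finset.sum_comm]
  simp only [ite_mul, one_mul, zero_mul, Finset.sum_ite_eq', Finset.mem_univ, if_true]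
  rw [Fintype.expect_eq_sum_div_card, Fintype.card_fun, ZMod.card]
  push_cast
  rw [one_div, inv_pow]
  ring

end lam2aux

theorem lam2 {ι : Type} [Fintype ι] [DecidableEq ι] (f : (ι → ZMod 3) → ℝ) :
    |𝔼 x : ι → ZMod 3, 𝔼 D : Finset ι, f x * f (x + ind D)| ≤ W f := by
  have hu := uni avgE rotP rotP avgE_mul avgE_t rotP_orth rotP_avgE rotP_orth rotP_avgE f
  have hc : (0 : ℝ) < (Fintype.card (ι → ZMod 3) : ℝ) := by
    exact_mod_cast Fintype.card_pos
  have hL : ∑ x, ∑ y, f x *
        (∏ i, ((1 / 2 : ℝ) • ((3 : ℝ) • avgE - (1 / 2 : ℝ) • (rotP + rotP))) (x i) (y i)) * f y =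
      Fintype.card (ι → ZMod 3) * 𝔼 x : ι → ZMod 3, 𝔼 D : Finset ι, f x * f (x + ind D) := by
    rw [Fintype.expect_eq_sum_div_card, mul_div_cancel₀ _ hc.ne']
    apply Finset.sum_congr rfl
    intro x _
    rw [← Finset.mul_expect, ← kernel_left, Finset.mul_sum]
    simp only [mul_assoc]
  have hR : ∀ V : Finset ι, ∑ x, ∑ y, f x *
        (∏ i, (if i ∈ V then avgE else (1 : Matrix (ZMod 3) (ZMod 3) ℝ)) (x i) (y i)) * f y =
      Fintype.card (ι → ZMod 3) * 𝔼 y : ι → ZMod 3, (𝔼 x : ι → ZMod 3, f (mix V x y)) ^ 2 := by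
    intro V
    have h1 : ∑ x, ∑ y, f x *
        (∏ i, (if i ∈ V then avgE else (1 : Matrix (ZMod 3) (ZMod 3) ℝ)) (x i) (y i)) * f y =
        Fintype.card (ι → ZMod 3) * 𝔼 x : ι → ZMod 3, (f x * 𝔼 z : ι → ZMod 3, f (mix V z x)) := by
      rw [Fintype.expect_eq_sum_div_card (f := fun x : ι → ZMod 3 =>
        f x * 𝔼 z : ι → ZMod 3, f (mix V z x)), mul_div_cancel₀ _ hc.ne']
      apply Finset.sum_congr rfl
      intro x _
      rw [← kernel_right, Finset.mul_sum]
      simp only [mul_assoc]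
    rw [h1]
    congr 1
    rw [← E_mix V (fun x : ι → ZMod 3 => f x * 𝔼 z : ι → ZMod 3, f (mix V z x)), E_comm]
    apply Finset.expect_congr rfl
    intro y _
    simp only [mix_mix_right]
    rw [← Finset.expect_mul, sq]
  rw [hL] at hu
  simp only [hR] at hu
  rw [← Finset.mul_expect, abs_mul, abs_of_pos hc] at hu
  exact le_of_mul_le_mul_left hu hc

end H24AP
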