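import Pool.Agent.H24AP.Live

/-!
# One level of the partition

Classes: `i ↦ (⌊(θ i 1 - θ i 0) g/ρ⌋, ⌊(θ i 2 - θ i 0) g/ρ⌋)`, `(2g+1)^2` classes; take `K` with
`3 K + 2 (2g+1)^2 ≤ m < 3 K + 3 + 2 (2g+1)^2` and `triples`.  For `x` with `|live T x| ≥ K/9` let
`κ = live T x`, `e : DEmb κ ι` with `e.app t = shf T x t` (`y = x`, `blk i = some k` if `i = T k j`
with `k` live) and `θ' k s = ∑ j, θ (T k j) (x (T k j) + s)`.  Since `j ↦ x (T k j)` is a bijection
onto `ZMod 3` and the three sites are in one class, `|θ' k s - θ' k 0| ≤ 4 ρ/g`.  For the other `x`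
(probability at most `18/K ≤ 60/m`) use `Φ ≤ B`.
-/

namespace H24AP

open Finset
open scoped BigOperators

/-- Three sites in one class give an almost constant block angle. -/
theorem block_angle (ρ : ℝ) (hρ : 0 < ρ) (g : ℕ) (hg : 1 ≤ g) (θ : Fin 3 → ZMod 3 → ℝ)
    (hθ : ∀ j j' s, |(θ j s - θ j 0) - (θ j' s - θ j' 0)| ≤ ρ / g)
    (a : Fin 3 → ZMod 3) (ha : Function.Injective a) (s : ZMod 3) :
    |∑ j, θ j (a j + s) - ∑ j, θ j (a j + 0)| ≤ 4 * ρ / g := by
  have hbij : Function.Bijective a := by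
    rw [Fintype.bijective_iff_injective_and_card]
    exact ⟨ha, by simp [ZMod.card]⟩
  have hbij2 : Function.Bijective (fun j => a j + s) :=
    (Equiv.addRight s).bijective.comp hbij
  have h1 : ∑ j, (θ 0 (a j + s) - θ 0 0) = ∑ t : ZMod 3, (θ 0 t - θ 0 0) :=
    Function.Bijective.sum_comp hbij2 (fun t => θ 0 t - θ 0 0)
  have h2 : ∑ j, (θ 0 (a j) - θ 0 0) = ∑ t : ZMod 3, (θ 0 t - θ 0 0) :=
    Function.Bijective.sum_comp hbij (fun t => θ 0 t - θ 0 0)
  have key : ∑ j, θ j (a j + s) - ∑ j, θ j (a j + 0) =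
      ((θ 1 (a 1 + s) - θ 1 0) - (θ 0 (a 1 + s) - θ 0 0)) +
      ((θ 2 (a 2 + s) - θ 2 0) - (θ 0 (a 2 + s) - θ 0 0)) -
      ((θ 1 (a 1) - θ 1 0) - (θ 0 (a 1) - θ 0 0)) -
      ((θ 2 (a 2) - θ 2 0) - (θ 0 (a 2) - θ 0 0)) := by
    simp only [add_zero]
    rw [Fin.sum_univ_three] at *
    rw [Fin.sum_univ_three] at *
    linarith
  have e1 := abs_le.1 (hθ 1 0 (a 1 + s))
  have e2 := abs_le.1 (hθ 2 0 (a 2 + s))
  have e3 := abs_le.1 (hθ 1 0 (a 1))
  have e4 := abs_le.1 (hθ 2 0 (a 2))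
  have e5 : 4 * ρ / g = 4 * (ρ / g) := by ring
  rw [key, e5, abs_le]
  constructor <;> linarith [e1.1, e1.2, e2.1, e2.2, e3.1, e3.2, e4.1, e4.2]

namespace Level

variable {ι : Type} [Fintype ι] [DecidableEq ι] {K : ℕ}

/-- the class of a site -/
noncomputable def cls (g : ℕ) (ρ : ℝ) (θ : ι → ZMod 3 → ℝ) (i : ι) : ℤ × ℤ :=
  (⌊(θ i 1 - θ i 0) * (g / ρ)⌋, ⌊(θ i 2 - θ i 0) * (g / ρ)⌋)

theorem floor_mem (g : ℕ) (ρ : ℝ) (hρ : 0 < ρ) (v : ℝ) (hv : |v| ≤ ρ) :
    ⌊v * (g / ρ)⌋ ∈ Finset.Icc (-(g : ℤ)) g := by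
  have hg : (0 : ℝ) ≤ g := Nat.cast_nonneg g
  have h := abs_le.1 hv
  have h1 : v * (g / ρ) ≤ g := by
    calc v * (g / ρ) ≤ ρ * (g / ρ) := mul_le_mul_of_nonneg_right h.2 (by positivity)
      _ = g := by field_simp
  have h2 : -(g : ℝ) ≤ v * (g / ρ) := by
    calc -(g : ℝ) = -ρ * (g / ρ) := by field_simp
      _ ≤ v * (g / ρ) := mul_le_mul_of_nonneg_right h.1 (by positivity)
  rw [Finset.mem_Icc]
  constructor
  · rw [Int.le_floor]; push_cast; exact h2
  · have h3 : (⌊v * (g / ρ)⌋ : ℝ) ≤ g := (Int.floor_le _).trans h1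
    exact_mod_cast h3

theorem close_of_floor (g : ℕ) (hg : 1 ≤ g) (ρ : ℝ) (hρ : 0 < ρ) (v w : ℝ)
    (h : ⌊v * (g / ρ)⌋ = ⌊w * (g / ρ)⌋) : |v - w| ≤ ρ / g := by
  have h1 := Int.abs_sub_lt_one_of_floor_eq_floor h
  have hg' : (0 : ℝ) < g := by exact_mod_cast hg
  have h2 : v * (g / ρ) - w * (g / ρ) = (v - w) * (g / ρ) := by ring
  rw [h2, abs_mul, abs_of_pos (by positivity : (0 : ℝ) < g / ρ)] at h1
  have h3 : |v - w| * (g / ρ) * (ρ / g) ≤ 1 * (ρ / g) :=
    mul_le_mul_of_nonneg_right h1.le (by positivity)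
  have h4 : |v - w| * (g / ρ) * (ρ / g) = |v - w| := by field_simp
  linarith

theorem zmod3_cases (s : ZMod 3) : s = 0 ∨ s = 1 ∨ s = 2 := by
  revert s; decide

theorem cls_close (g : ℕ) (hg : 1 ≤ g) (ρ : ℝ) (hρ : 0 < ρ) (θ : ι → ZMod 3 → ℝ) (i i' : ι)
    (h : cls g ρ θ i = cls g ρ θ i') (s : ZMod 3) :
    |(θ i s - θ i 0) - (θ i' s - θ i' 0)| ≤ ρ / g := by
  have hg' : (0 : ℝ) < g := by exact_mod_cast hg
  have h1 := congrArg Prod.fst h
  have h2 := congrArg Prod.snd h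
  rcases zmod3_cases s with rfl | rfl | rfl
  · simp only [sub_self, abs_zero]; positivity
  · exact close_of_floor g hg ρ hρ _ _ h1
  · exact close_of_floor g hg ρ hρ _ _ h2

open Classical in
/-- the cube embedding given by the live triples -/
noncomputable def emb (T : Fin K → Fin 3 → ι)
    (hT : ∀ k j k' j', T k j = T k' j' → k = k' ∧ j = j') (x : ι → ZMod 3) :
    DEmb (live T x) ι where
  y := x
  blk := fun i => if h : ∃ k : live T x, ∃ j, T k j = i then some h.choose else none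
  surj := by
    intro k
    refine ⟨T k 0, ?_⟩
    have h : ∃ k' : live T x, ∃ j, T k' j = T k 0 := ⟨k, 0, rfl⟩
    rw [dif_pos h]
    congr 1
    obtain ⟨j, hj⟩ := h.choose_spec
    exact Subtype.ext (hT _ _ _ _ hj).1

theorem emb_blk (T : Fin K → Fin 3 → ι)
    (hT : ∀ k j k' j', T k j = T k' j' → k = k' ∧ j = j') (x : ι → ZMod 3)
    (k : live T x) (j : Fin 3) : (emb T hT x).blk (T k j) = some k := by
  have h : ∃ k' : live T x, ∃ j', T k' j' = T k j := ⟨k, j, rfl⟩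
  show (if h : ∃ k' : live T x, ∃ j', T k' j' = T k j then some h.choose else none) = some k
  rw [dif_pos h]
  congr 1
  obtain ⟨j', hj'⟩ := h.choose_spec
  exact Subtype.ext (hT _ _ _ _ hj').1

theorem emb_blk_none (T : Fin K → Fin 3 → ι)
    (hT : ∀ k j k' j', T k j = T k' j' → k = k' ∧ j = j') (x : ι → ZMod 3)
    (i : ι) (hi : ¬ ∃ k : live T x, ∃ j, T k j = i) : (emb T hT x).blk i = none := by
  show (if h : ∃ k' : live T x, ∃ j', T k' j' = i then some h.choose else none) = none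
  rw [dif_neg hi]

theorem app_mem (T : Fin K → Fin 3 → ι)
    (hT : ∀ k j k' j', T k j = T k' j' → k = k' ∧ j = j') (x : ι → ZMod 3)
    (k : live T x) (j : Fin 3) (t : live T x → ZMod 3) :
    (emb T hT x).app t (T k j) = x (T k j) + t k := by
  simp only [DEmb.app, emb_blk]
  rfl

theorem app_not_mem (T : Fin K → Fin 3 → ι)
    (hT : ∀ k j k' j', T k j = T k' j' → k = k' ∧ j = j') (x : ι → ZMod 3)
    (i : ι) (hi : ¬ ∃ k : live T x, ∃ j, T k j = i) (t : live T x → ZMod 3) :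
    (emb T hT x).app t i = x i := by
  simp only [DEmb.app, emb_blk_none T hT x i hi]
  show x i + 0 = x i
  simp

theorem shf_eq (T : Fin K → Fin 3 → ι)
    (hT : ∀ k j k' j', T k j = T k' j' → k = k' ∧ j = j') (x : ι → ZMod 3)
    (t : Fin K → ZMod 3) :
    shf T x t = (emb T hT x).app (fun k : live T x => t k) := by
  funext i
  by_cases hi : ∃ k : live T x, ∃ j, T k j = i
  · obtain ⟨k, j, rfl⟩ := hi
    rw [app_mem]
    simp only [shf]
    congr 1
    rw [Finset.sum_eq_single k.1]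
    · rw [Finset.sum_eq_single j]
      · simp
      · intro j' _ hj'
        rw [if_neg]
        intro h
        exact hj' (hT _ _ _ _ h).2
      · simp
    · intro k' _ hk'
      apply Finset.sum_eq_zero
      intro j' _
      rw [if_neg]
      intro h
      exact hk' (hT _ _ _ _ h).1
    · intro h
      exact absurd k.2 h
  · rw [app_not_mem T hT x i hi]
    simp only [shf]
    rw [Finset.sum_eq_zero]
    · simp
    · intro k hk
      apply Finset.sum_eq_zero
      intro j _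
      rw [if_neg]
      intro h
      exact hi ⟨⟨k, hk⟩, j, h⟩

theorem sum_angles (T : Fin K → Fin 3 → ι)
    (hT : ∀ k j k' j', T k j = T k' j' → k = k' ∧ j = j') (x : ι → ZMod 3)
    (θ : ι → ZMod 3 → ℝ) :
    ∃ c : ℝ, ∀ t : live T x → ZMod 3, ∑ i, θ i ((emb T hT x).app t i) =
      c + ∑ k : live T x, ∑ j, θ (T k j) (x (T k j) + t k) := by
  classical
  let f : (live T x) × Fin 3 → ι := fun p => T p.1 p.2
  have hf : Function.Injective f := by
    rintro ⟨k, j⟩ ⟨k', j'⟩ h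
    have h' := hT _ _ _ _ h
    exact Prod.ext (Subtype.ext h'.1) h'.2
  refine ⟨∑ i ∈ (univ : Finset ι) \ univ.image f, θ i (x i), fun t => ?_⟩
  have h1 : ∑ i, θ i ((emb T hT x).app t i) =
      ∑ i ∈ (univ : Finset ι) \ univ.image f, θ i ((emb T hT x).app t i) +
      ∑ i ∈ univ.image f, θ i ((emb T hT x).app t i) :=
    (Finset.sum_sdiff (Finset.subset_univ _)).symm
  rw [h1]
  congr 1
  · apply Finset.sum_congr rfl
    intro i hi
    rw [app_not_mem T hT x i]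
    rintro ⟨k, j, rfl⟩
    rw [Finset.mem_sdiff] at hi
    exact hi.2 (Finset.mem_image.2 ⟨(k, j), Finset.mem_univ _, rfl⟩)
  · rw [Finset.sum_image (fun a _ b _ h => hf h), Fintype.sum_prod_type]
    apply Finset.sum_congr rfl
    intro k _
    apply Finset.sum_congr rfl
    intro j _
    show θ (T k j) ((emb T hT x).app t (T k j)) = _
    rw [app_mem]

end Level

open Level

theorem level {ι : Type} [Fintype ι] [DecidableEq ι] (g : ℕ) (hg : 1 ≤ g) (ρ : ℝ) (hρ : 0 < ρ)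
    (θ : ι → ZMod 3 → ℝ) (hθ : ∀ i s, |θ i s - θ i 0| ≤ ρ)
    (hm : 100 * (2 * g + 1) ^ 2 ≤ Fintype.card ι)
    (Φ : (ι → ZMod 3) → ℝ) (lam B : ℝ) (hlB : lam ≤ B) (hΦ : ∀ x, Φ x ≤ B)
    (hyp : ∀ (κ : Type) [Fintype κ] [DecidableEq κ] (e : DEmb κ ι) (θ' : κ → ZMod 3 → ℝ),
      Fintype.card ι ≤ 30 * Fintype.card κ →
      (∀ j s, |θ' j s - θ' j 0| ≤ 4 * ρ / g) →
      (∃ c : ℝ, ∀ t, ∑ i, θ i (e.app t i) = c + ∑ j, θ' j (t j)) →
      𝔼 t, Φ (e.app t) ≤ lam) :
    𝔼 x, Φ x ≤ lam + 60 / Fintype.card ι * (B - lam) := by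
  classical
  obtain ⟨m, hmdef⟩ : ∃ m, m = Fintype.card ι := ⟨_, rfl⟩
  obtain ⟨q, hq⟩ : ∃ q, q = (2 * g + 1) ^ 2 := ⟨_, rfl⟩
  have hq9 : 9 ≤ q := by
    rw [hq]
    calc 9 = 3 ^ 2 := by norm_num
      _ ≤ (2 * g + 1) ^ 2 := Nat.pow_le_pow_left (by omega) 2
  rw [← hmdef, ← hq] at hm
  -- the classes
  let C := (Finset.Icc (-(g : ℤ)) g) × (Finset.Icc (-(g : ℤ)) g)
  let c : ι → C := fun i =>
    (⟨⌊(θ i 1 - θ i 0) * (g / ρ)⌋, floor_mem g ρ hρ _ (hθ i 1)⟩,
     ⟨⌊(θ i 2 - θ i 0) * (g / ρ)⌋, floor_mem g ρ hρ _ (hθ i 2)⟩)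
  have hC : Fintype.card C = q := by
    simp only [C, Fintype.card_prod, Fintype.card_coe, Int.card_Icc]
    rw [hq, sq]
    have : ((g : ℤ) + 1 - -(g : ℤ)).toNat = 2 * g + 1 := by omega
    rw [this]
  obtain ⟨K, hK⟩ : ∃ K, K = (m - 2 * q) / 3 := ⟨_, rfl⟩
  have hK1 : 3 * K + 2 * q ≤ m := by omega
  have hK2 : m ≤ 3 * K + 2 * q + 2 := by omega
  obtain ⟨T, hT, -, hTc⟩ := triples (Finset.univ : Finset ι) c K
    (by rw [hC, Finset.card_univ, ← hmdef]; exact hK1)
  have hcls : ∀ k j j' s, |(θ (T k j) s - θ (T k j) 0) - (θ (T k j') s - θ (T k j') 0)| ≤ ρ / g := by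
    intro k j j' s
    apply cls_close g hg ρ hρ θ
    have h := hTc k j j'
    have h1 := congrArg (fun p : C => (p.1 : ℤ)) h
    have h2 := congrArg (fun p : C => (p.2 : ℤ)) h
    exact Prod.ext h1 h2
  have hKpos : 0 < K := by omega
  -- average over the live shifts
  rw [← E_shf T hT Φ]
  have hx : ∀ x : ι → ZMod 3, 𝔼 t : Fin K → ZMod 3, Φ (shf T x t) ≤
      lam + (B - lam) * (if ((live T x).card : ℝ) < K / 9 then (1 : ℝ) else 0) := by
    intro x
    split_ifs with hlive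
    · have : 𝔼 t : Fin K → ZMod 3, Φ (shf T x t) ≤ 𝔼 _t : Fin K → ZMod 3, B :=
        Finset.expect_le_expect fun t _ => hΦ _
      rw [Fintype.expect_const] at this
      linarith
    · push Not at hlive
      have h1 : 𝔼 t : Fin K → ZMod 3, Φ (shf T x t) =
          𝔼 t : live T x → ZMod 3, Φ ((emb T hT x).app t) := by
        rw [← E_restrict (live T x) (fun t => Φ ((emb T hT x).app t))]
        apply Finset.expect_congr rfl
        intro t _
        rw [shf_eq T hT x t]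
      rw [h1]
      have h2 := hyp (live T x) (emb T hT x)
        (fun k s => ∑ j, θ (T k j) (x (T k j) + s)) ?_ ?_ ?_
      · linarith
      · rw [Fintype.card_coe, ← hmdef]
        have h3 : (K : ℝ) ≤ 9 * ((live T x).card : ℝ) := by linarith
        have h4 : K ≤ 9 * (live T x).card := by exact_mod_cast h3
        omega
      · intro k s
        have hinj : Function.Injective (fun j => x (T k j)) := by
          exact (Finset.mem_filter.1 k.2).2
        exact block_angle ρ hρ g hg (fun j => θ (T k j)) (fun j j' s => hcls k j j' s)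
          (fun j => x (T k j)) hinj s
      · exact sum_angles T hT x θ
  have hsum : 𝔼 x : ι → ZMod 3, 𝔼 t : Fin K → ZMod 3, Φ (shf T x t) ≤
      𝔼 x : ι → ZMod 3, (lam + (B - lam) * (if ((live T x).card : ℝ) < K / 9 then (1 : ℝ) else 0)) :=
    Finset.expect_le_expect fun x _ => hx x
  refine hsum.trans ?_
  rw [Finset.expect_add_distrib, Fintype.expect_const, ← Finset.mul_expect]
  have hl := live_large T hT hKpos
  have hBl : 0 ≤ B - lam := by linarith
  have h5 := mul_le_mul_of_nonneg_left hl hBl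
  have hmpos : (0 : ℝ) < m := by
    have : 0 < m := by omega
    exact_mod_cast this
  have hKr : (0 : ℝ) < K := by exact_mod_cast hKpos
  have h6 : (18 : ℝ) / K ≤ 60 / m := by
    rw [div_le_div_iff₀ hKr hmpos]
    have : 18 * m ≤ 60 * K := by omega
    exact_mod_cast this
  have h7 : (B - lam) * (18 / K) ≤ (B - lam) * (60 / m) := mul_le_mul_of_nonneg_left h6 hBl
  rw [← hmdef]
  calc lam + (B - lam) * 𝔼 x : ι → ZMod 3, (if ((live T x).card : ℝ) < K / 9 then (1 : ℝ) else 0)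
      ≤ lam + (B - lam) * (60 / m) := by linarith
    _ = lam + 60 / m * (B - lam) := by ring

end H24AP
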