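import Mathlib

/-!
# Disjoint monochromatic triples

Induction on `K`: if `s` has more than `2 |C|` elements some class has three elements in `s`
(`Finset.exists_lt_card_fiber_of_mul_lt_card_of_maps_to`); remove them.
-/

namespace H24AP

open Finset

theorem triples {ι C : Type} [DecidableEq ι] [Fintype C] [DecidableEq C] (s : Finset ι)
    (c : ι → C) (K : ℕ) (hK : 3 * K + 2 * Fintype.card C ≤ s.card) :
    ∃ T : Fin K → Fin 3 → ι, (∀ k j k' j', T k j = T k' j' → k = k' ∧ j = j') ∧
      (∀ k j, T k j ∈ s) ∧ ∀ k j j', c (T k j) = c (T k j') := by
  induction K generalizing s with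
  | zero => exact ⟨fun k => k.elim0, fun k => k.elim0, fun k => k.elim0, fun k => k.elim0⟩
  | succ K ih =>
    have hlt : (univ : Finset C).card * 2 < s.card := by
      rw [Finset.card_univ]; omega
    obtain ⟨y, -, hy⟩ := Finset.exists_lt_card_fiber_of_mul_lt_card_of_maps_to
      (f := c) (fun a _ => mem_univ (c a)) hlt
    obtain ⟨t, hts, htc⟩ := Finset.exists_subset_card_eq (n := 3) (s := s.filter (fun x => c x = y))
      (by omega)
    have hts' : t ⊆ s := fun x hx => (mem_filter.1 (hts hx)).1
    have hcard : (s \ t).card + 3 = s.card := by
      rw [← htc]; exact Finset.card_sdiff_add_card_eq_card hts'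
    obtain ⟨T, h1, h2, h3⟩ := ih (s \ t) (by omega)
    let e : Fin 3 ≃ t := (Fintype.equivFinOfCardEq (by simpa using htc)).symm
    refine ⟨Fin.cons (fun j => (e j : ι)) T, ?_, ?_, ?_⟩
    · intro k j k' j'
      refine Fin.cases ?_ ?_ k
      · refine Fin.cases ?_ ?_ k'
        · intro h
          simp only [Fin.cons_zero] at h
          exact ⟨rfl, e.injective (Subtype.ext h)⟩
        · intro i h
          simp only [Fin.cons_zero, Fin.cons_succ] at h
          exfalso
          have := h2 i j'
          rw [← h] at this
          exact (mem_sdiff.1 this).2 (e j).2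
      · intro i
        refine Fin.cases ?_ ?_ k'
        · intro h
          simp only [Fin.cons_zero, Fin.cons_succ] at h
          exfalso
          have := h2 i j
          rw [h] at this
          exact (mem_sdiff.1 this).2 (e j').2
        · intro i' h
          simp only [Fin.cons_succ] at h
          obtain ⟨h4, h5⟩ := h1 i j i' j' h
          exact ⟨by rw [h4], h5⟩
    · intro k j
      refine Fin.cases ?_ ?_ k
      · simp only [Fin.cons_zero]
        exact hts' (e j).2
      · intro i
        simp only [Fin.cons_succ]
        exact (mem_sdiff.1 (h2 i j)).1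
    · intro k j j'
      refine Fin.cases ?_ ?_ k
      · simp only [Fin.cons_zero]
        rw [(mem_filter.1 (hts (e j).2)).2, (mem_filter.1 (hts (e j').2)).2]
      · intro i
        simp only [Fin.cons_succ]
        exact h3 i j j'

end H24AP
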