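import Pool.Agent.H24AP.Cheb
import Pool.Agent.H24AP.Triples

/-!
# Live triples

A triple `T k` is live for `x` if `j ↦ x (T k j)` is injective (so `x` takes all three values on
it).
-/

namespace H24AP

open Finset
open scoped BigOperators

variable {ι : Type} [Fintype ι] [DecidableEq ι] {K : ℕ}

/-- The live triples. -/
def live (T : Fin K → Fin 3 → ι) (x : ι → ZMod 3) : Finset (Fin K) :=
  univ.filter (fun k => Function.Injective (fun j => x (T k j)))

/-- Shifting `x` by `t k` on the live triples. -/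
noncomputable def shf (T : Fin K → Fin 3 → ι) (x : ι → ZMod 3) (t : Fin K → ZMod 3) :
    ι → ZMod 3 :=
  fun i => x i + ∑ k ∈ live T x, ∑ j, if T k j = i then t k else 0

omit [Fintype ι] in
theorem Live_shf_T (T : Fin K → Fin 3 → ι)
    (hT : ∀ k j k' j', T k j = T k' j' → k = k' ∧ j = j') (x : ι → ZMod 3)
    (t : Fin K → ZMod 3) (k : Fin K) (j : Fin 3) :
    shf T x t (T k j) = x (T k j) + if k ∈ live T x then t k else 0 := by
  unfold shf
  congr 1
  have h1 : ∀ k' ∈ live T x, (∑ j', if T k' j' = T k j then t k' else 0) =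
      if k' = k then t k else 0 := by
    intro k' _
    by_cases hk : k' = k
    · subst hk
      rw [if_pos rfl, Finset.sum_eq_single j]
      · rw [if_pos rfl]
      · intro j' _ hj'
        rw [if_neg]
        intro h
        exact hj' (hT _ _ _ _ h).2
      · intro h
        exact absurd (Finset.mem_univ j) h
    · rw [if_neg hk]
      refine Finset.sum_eq_zero fun j' _ => ?_
      rw [if_neg]
      intro h
      exact hk (hT _ _ _ _ h).1
  rw [Finset.sum_congr rfl h1, Finset.sum_ite_eq']

omit [Fintype ι] in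
theorem Live_live_shf (T : Fin K → Fin 3 → ι)
    (hT : ∀ k j k' j', T k j = T k' j' → k = k' ∧ j = j') (x : ι → ZMod 3)
    (t : Fin K → ZMod 3) : live T (shf T x t) = live T x := by
  have h : ∀ k, Function.Injective (fun j => shf T x t (T k j)) ↔
      Function.Injective (fun j => x (T k j)) := by
    intro k
    simp only [Live_shf_T T hT x t k]
    constructor
    · intro h a b hab
      exact h (by simpa using hab)
    · intro h a b hab
      exact h (by simpa using hab)
  ext k
  simp only [live, Finset.mem_filter, Finset.mem_univ, true_and]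
  exact h k

omit [Fintype ι] in
theorem Live_shf_neg (T : Fin K → Fin 3 → ι)
    (hT : ∀ k j k' j', T k j = T k' j' → k = k' ∧ j = j') (x : ι → ZMod 3)
    (t : Fin K → ZMod 3) : shf T (shf T x t) (-t) = x := by
  funext i
  have h1 : shf T (shf T x t) (-t) i =
      shf T x t i + ∑ k ∈ live T (shf T x t), ∑ j, if T k j = i then (-t) k else 0 := rfl
  rw [h1, Live_live_shf T hT]
  have h2 : shf T x t i = x i + ∑ k ∈ live T x, ∑ j, if T k j = i then t k else 0 := rfl
  rw [h2, add_assoc, ← Finset.sum_add_distrib]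
  have h3 : ∀ k ∈ live T x, ((∑ j, if T k j = i then t k else 0) +
      ∑ j, if T k j = i then (-t) k else 0) = 0 := by
    intro k _
    rw [← Finset.sum_add_distrib]
    refine Finset.sum_eq_zero fun j _ => ?_
    by_cases h : T k j = i
    · simp [h]
    · simp [h]
  rw [Finset.sum_eq_zero h3, add_zero]

/-- The bijection. -/
noncomputable def Live_equiv (T : Fin K → Fin 3 → ι)
    (hT : ∀ k j k' j', T k j = T k' j' → k = k' ∧ j = j') (t : Fin K → ZMod 3) :
    (ι → ZMod 3) ≃ (ι → ZMod 3) where
  toFun x := shf T x t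
  invFun x := shf T x (-t)
  left_inv x := Live_shf_neg T hT x t
  right_inv x := by
    have := Live_shf_neg T hT x (-t)
    rwa [neg_neg] at this

/-- For fixed `t` the map `x ↦ shf T x t` is a bijection (inverse: `x ↦ shf T x (-t)`, because the
live triples do not change). -/
theorem E_shf (T : Fin K → Fin 3 → ι) (hT : ∀ k j k' j', T k j = T k' j' → k = k' ∧ j = j')
    (Φ : (ι → ZMod 3) → ℝ) :
    𝔼 x : ι → ZMod 3, 𝔼 t : Fin K → ZMod 3, Φ (shf T x t) = 𝔼 x, Φ x := by
  rw [E_comm]
  have h : ∀ t : Fin K → ZMod 3, 𝔼 x : ι → ZMod 3, Φ (shf T x t) = 𝔼 x, Φ x := fun t =>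
    E_equiv (Live_equiv T hT t) Φ
  simp only [h]
  simp

/-! ### second moment -/

/-- Resampling one coordinate. -/
theorem Live_update {κ α : Type} [Fintype κ] [DecidableEq κ] [Fintype α] [Nonempty α]
    (i : κ) (F : (κ → α) → ℝ) :
    𝔼 s : α, 𝔼 x, F (Function.update x i s) = 𝔼 x, F x := by
  classical
  have h : 𝔼 x : κ → α, 𝔼 y, F (mix {i} x y) = 𝔼 x, F x := E_mix {i} F
  have h2 : ∀ x y : κ → α, mix {i} x y = Function.update y i (x i) := by
    intro x y; funext j
    by_cases hj : j = i
    · subst hj; simp [mix]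
    · simp [mix, hj]
  simp only [h2] at h
  rw [← h]
  let e : (κ → α) ≃ α × ({j : κ // j ≠ i} → α) := Equiv.funSplitAt i α
  have h3 : 𝔼 x : κ → α, (𝔼 y, F (Function.update y i (x i))) =
      𝔼 p : α × ({j : κ // j ≠ i} → α), 𝔼 y, F (Function.update y i p.1) :=
    E_equiv e (fun p => 𝔼 y, F (Function.update y i p.1))
  rw [h3, E_prod (fun (s : α) (_ : {j : κ // j ≠ i} → α) =>
    𝔼 y, F (Function.update y i s))]
  simp

/-- variance of a sum of independent centred variables -/
theorem Live_var {κ α : Type} [Fintype κ] [DecidableEq κ] [Fintype α] [Nonempty α]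
    (h : α → ℝ) (h0 : 𝔼 s, h s = 0) :
    𝔼 y : κ → α, (∑ k, h (y k)) ^ 2 = Fintype.card κ * 𝔼 s, h s ^ 2 := by
  classical
  have h1 : ∀ y : κ → α, (∑ k, h (y k)) ^ 2 = ∑ k, ∑ l, h (y k) * h (y l) := by
    intro y
    rw [sq, Finset.sum_mul_sum]
  simp only [h1]
  rw [Finset.expect_sum_comm]
  have h2 : ∀ k : κ, 𝔼 y : κ → α, ∑ l, h (y k) * h (y l) = 𝔼 s, h s ^ 2 := by
    intro k
    rw [Finset.expect_sum_comm, Finset.sum_eq_single k]
    · rw [← Live_update k]
      simp only [Function.update_self]
      simp [sq]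
    · intro l _ hl
      rw [← Live_update k]
      simp only [Function.update_self, Function.update_of_ne hl]
      rw [E_comm]
      have h3 : ∀ y : κ → α, 𝔼 s, h s * h (y l) = 0 := by
        intro y
        rw [← Finset.expect_mul, h0, zero_mul]
      simp only [h3]
      simp
    · intro hk
      exact absurd (Finset.mem_univ k) hk
  rw [Finset.sum_congr rfl fun k _ => h2 k, Finset.sum_const, Finset.card_univ, nsmul_eq_mul]

/-- the uniform measure restricted to disjoint triples is uniform -/
theorem Live_restrict (T : Fin K → Fin 3 → ι)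
    (hT : ∀ k j k' j', T k j = T k' j' → k = k' ∧ j = j')
    (F : (Fin K → Fin 3 → ZMod 3) → ℝ) :
    𝔼 x : ι → ZMod 3, F (fun k j => x (T k j)) = 𝔼 y, F y := by
  classical
  have hinj : Function.Injective (fun p : Fin K × Fin 3 => T p.1 p.2) := by
    intro p p' h
    have := hT _ _ _ _ h
    exact Prod.ext this.1 this.2
  let U : Finset ι := univ.image (fun p : Fin K × Fin 3 => T p.1 p.2)
  let e : (Fin K × Fin 3) ≃ U :=
    Equiv.ofBijective (fun p => ⟨T p.1 p.2, Finset.mem_image_of_mem _ (Finset.mem_univ p)⟩) (by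
      constructor
      · intro p p' h
        exact hinj (congrArg Subtype.val h)
      · rintro ⟨i, hi⟩
        obtain ⟨p, _, hp⟩ := Finset.mem_image.1 hi
        exact ⟨p, Subtype.ext hp⟩)
  let E : (U → ZMod 3) ≃ (Fin K → Fin 3 → ZMod 3) :=
    (Equiv.arrowCongr e.symm (Equiv.refl _)).trans (Equiv.curry _ _ _)
  have h1 := E_restrict U (fun y : U → ZMod 3 => F (E y))
  rw [E_equiv E F] at h1
  exact h1

theorem Live_card6 : (univ.filter (fun s : Fin 3 → ZMod 3 => Function.Injective s)).card = 6 := by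
  decide

theorem Live_E : 𝔼 s : Fin 3 → ZMod 3, (if Function.Injective s then (1 : ℝ) else 0) = 2 / 9 := by
  rw [Finset.expect_eq_sum_div_card, Finset.sum_ite, Finset.sum_const_zero, add_zero,
    Finset.sum_const, Live_card6]
  simp
  norm_num

/-- Few points have few live triples: the restriction of a uniform `x` to the triples is uniform
(`T` is injective), a triple is live with probability `6/27 = 2/9`; second moment or `cheb`. -/
theorem live_large (T : Fin K → Fin 3 → ι)
    (hT : ∀ k j k' j', T k j = T k' j' → k = k' ∧ j = j') (hK : 0 < K) :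
    𝔼 x : ι → ZMod 3, (if ((live T x).card : ℝ) < K / 9 then (1 : ℝ) else 0) ≤ 18 / K := by
  classical
  have hK0 : (0 : ℝ) < K := by exact_mod_cast hK
  let h : (Fin 3 → ZMod 3) → ℝ := fun s => (if Function.Injective s then (1 : ℝ) else 0) - 2 / 9
  have h0 : 𝔼 s, h s = 0 := by
    simp only [h]
    rw [Finset.expect_sub_distrib, Live_E]
    simp
  have h2 : 𝔼 s, h s ^ 2 = 14 / 81 := by
    have e1 : ∀ s, h s ^ 2 = 5 / 9 * (if Function.Injective s then (1 : ℝ) else 0) + 4 / 81 := by
      intro s
      simp only [h]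
      split_ifs <;> norm_num
    simp only [e1]
    rw [Finset.expect_add_distrib, ← Finset.mul_expect, Live_E]
    simp
    norm_num
  have hvar := Live_var (κ := Fin K) h h0
  rw [h2, Fintype.card_fin] at hvar
  have hcard : ∀ x : ι → ZMod 3, ∑ k, h (fun j => x (T k j)) =
      ((live T x).card : ℝ) - K * (2 / 9) := by
    intro x
    simp only [h]
    rw [Finset.sum_sub_distrib, Finset.sum_const, Finset.card_univ, Fintype.card_fin,
      nsmul_eq_mul, Finset.sum_ite, Finset.sum_const_zero, add_zero, Finset.sum_const,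
      nsmul_eq_mul, mul_one]
    rfl
  have hres := Live_restrict T hT (fun y => (∑ k, h (y k)) ^ 2)
  rw [hvar] at hres
  have hpt : ∀ x : ι → ZMod 3, (if ((live T x).card : ℝ) < K / 9 then (1 : ℝ) else 0) ≤
      81 / (K : ℝ) ^ 2 * (∑ k, h (fun j => x (T k j))) ^ 2 := by
    intro x
    rw [hcard]
    split_ifs with hx
    · have h3 : (K : ℝ) / 9 ≤ K * (2 / 9) - (live T x).card := by linarith
      have h4 : ((K : ℝ) / 9) ^ 2 ≤ (K * (2 / 9) - (live T x).card) ^ 2 :=
        pow_le_pow_left₀ (by positivity) h3 2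
      have h5 : (((live T x).card : ℝ) - K * (2 / 9)) ^ 2 =
          (K * (2 / 9) - (live T x).card) ^ 2 := by ring
      rw [h5]
      calc (1 : ℝ) = 81 / (K : ℝ) ^ 2 * ((K : ℝ) / 9) ^ 2 := by field_simp; norm_num
        _ ≤ _ := mul_le_mul_of_nonneg_left h4 (by positivity)
    · positivity
  calc 𝔼 x : ι → ZMod 3, (if ((live T x).card : ℝ) < K / 9 then (1 : ℝ) else 0)
      ≤ 𝔼 x : ι → ZMod 3, 81 / (K : ℝ) ^ 2 * (∑ k, h (fun j => x (T k j))) ^ 2 :=
        Finset.expect_le_expect fun x _ => hpt x
    _ = 81 / (K : ℝ) ^ 2 * (K * (14 / 81)) := by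
        rw [← Finset.mul_expect, hres]
    _ ≤ 18 / K := by
        have : 81 / (K : ℝ) ^ 2 * (K * (14 / 81)) = 14 / K := by field_simp
        rw [this]
        exact div_le_div_of_nonneg_right (by norm_num) hK0.le

end H24AP
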