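import Pool.Agent.H24AP.Uni

/-!
# First half of step B

Let `g y = f (y - 1)`.  The left side is
`𝔼 z D D', f(z+d) g(z+2d+1) f(z+d') g(z+2d'+1)`.  Push forward (lemma `push`) along
`(z,d,d') ↦ ((z+d, z+2d'+1), (z+d', z+2d+1))` (row, column) in `(ZMod 3 × ZMod 3)^2`: the site
matrix is `(1/12) (1 - 2 R + 3 F)` where `R` is the projection to the diagonal pairs and
`F ((a,b),(a',b')) = (1/3) [a=b][a'=b']`.  This is `(1/6) * (1/2) (3 F - (2R - 1))`; apply `uni`
with `E = F`, `O₁ = O₂ = 2R - 1` and `Ψ (x,y) = f x * g y`.  The result is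
`(1/6)^n 𝔼 V, 3^|V| 9^(n-|V|) T_V = ∑_V (1/4)^|V| (3/4)^(n-|V|) T_V`, and `U ∩ A` is a
Bernoulli(1/4) set.
-/

namespace H24AP

open Finset
open scoped BigOperators

/-- Pushing a product sum forward along site-dependent maps of the alphabet. -/
theorem b1_push {Ω Ξ ι : Type} [Fintype Ω] [DecidableEq Ω] [Fintype Ξ] [DecidableEq Ξ]
    [Fintype ι] [DecidableEq ι] (τ : ι → Ω → Ξ) (w : ι → Ω → ℝ) (Φ : (ι → Ξ) → ℝ) :
    ∑ ω : ι → Ω, (∏ i, w i (ω i)) * Φ (fun i => τ i (ω i)) =
      ∑ ξ : ι → Ξ, (∏ i, ∑ o with τ i o = ξ i, w i o) * Φ ξ := by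
  have h : ∀ ξ : ι → Ξ, ∏ i, ∑ o with τ i o = ξ i, w i o =
      ∑ ω ∈ Fintype.piFinset (fun i => univ.filter (fun o => τ i o = ξ i)), ∏ i, w i (ω i) :=
    fun ξ => Finset.prod_univ_sum _ _
  simp_rw [h, Finset.sum_mul]
  rw [Finset.sum_comm' (s' := fun ω : ι → Ω => {fun i => τ i (ω i)}) (t' := univ)]
  · simp
  · intro ξ ω
    simp only [mem_univ, Fintype.mem_piFinset, mem_filter, true_and, mem_singleton, and_true]
    constructor
    · intro h; funext i; exact (h i).symm
    · rintro rfl i; rfl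

/-- Normalized version with a site-dependent factor pulled out. -/
theorem b1_pushE {Ω Ξ ι : Type} [Fintype Ω] [DecidableEq Ω] [Fintype Ξ] [DecidableEq Ξ]
    [Fintype ι] [DecidableEq ι] (τ : ι → Ω → Ξ) (m : ι → Ξ → ℝ) (Φ : (ι → Ξ) → ℝ)
    (hm : ∀ i ξ, ((univ.filter (fun o => τ i o = ξ)).card : ℝ) / Fintype.card Ω = m i ξ) :
    𝔼 ω : ι → Ω, Φ (fun i => τ i (ω i)) = ∑ ξ : ι → Ξ, (∏ i, m i (ξ i)) * Φ ξ := by
  have h := b1_push τ (fun _ _ => 1 / (Fintype.card Ω : ℝ)) Φ
  have h1 : ∀ i ξ, ∑ o with τ i o = ξ, (1 / (Fintype.card Ω : ℝ)) = m i ξ := by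
    intro i ξ
    rw [← hm i ξ, Finset.sum_const, nsmul_eq_mul]
    ring
  simp_rw [h1] at h
  rw [← h, Fintype.expect_eq_sum_div_card, Finset.sum_div]
  refine Finset.sum_congr rfl fun ω _ => ?_
  rw [Finset.prod_const, Finset.card_univ, Fintype.card_fun]
  push_cast
  rw [one_div, inv_pow]
  ring

/-- Averages over two functions. -/
theorem b1_pair {ι A B : Type} [Fintype ι] [DecidableEq ι] [Fintype A] [Fintype B]
    (F : (ι → A) → (ι → B) → ℝ) :
    𝔼 x : ι → A, 𝔼 y : ι → B, F x y =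
      𝔼 ω : ι → A × B, F (fun i => (ω i).1) (fun i => (ω i).2) := by
  let e : (ι → A × B) ≃ (ι → A) × (ι → B) :=
    { toFun := fun ω => (fun i => (ω i).1, fun i => (ω i).2)
      invFun := fun p i => (p.1 i, p.2 i)
      left_inv := fun ω => rfl
      right_inv := fun p => rfl }
  rw [← E_prod]
  exact (E_equiv e (fun p : (ι → A) × (ι → B) => F p.1 p.2)).symm

/-- Finite sets as zero-one functions. -/
theorem b1_fin {ι : Type} [Fintype ι] [DecidableEq ι] (F : Finset ι → ℝ) :
    𝔼 D, F D = 𝔼 b : ι → Bool, F (univ.filter (fun i => b i = true)) := by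
  let e : (ι → Bool) ≃ Finset ι :=
    { toFun := fun b => univ.filter (fun i => b i = true)
      invFun := fun D i => decide (i ∈ D)
      left_inv := fun b => by funext i; simp
      right_inv := fun D => by ext i; simp }
  exact (E_equiv e F).symm

/-- The alphabet. -/
abbrev B1X : Type := ZMod 3 × ZMod 3

/-- The zero-one element of `ZMod 3` of a Boolean. -/
def b1z (b : Bool) : ZMod 3 := if b = true then 1 else 0

/-- The site map. -/
def b1tau (o : ZMod 3 × Bool × Bool) : B1X × B1X :=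
  ((o.1 + b1z o.2.1, o.1 + b1z o.2.2 + b1z o.2.2 + 1),
    (o.1 + b1z o.2.2, o.1 + b1z o.2.1 + b1z o.2.1 + 1))

/-- The site map of the right side. -/
def b1sig (V : Bool) (o : (ZMod 3 × ZMod 3) × (ZMod 3 × ZMod 3)) : B1X × B1X :=
  if V = true then ((o.1.1, o.1.1), (o.1.2, o.1.2)) else ((o.2.1, o.2.2), (o.2.1, o.2.2))

theorem b1_count : ∀ x y : B1X,
    ((univ.filter (fun o : ZMod 3 × Bool × Bool => b1tau o = (x, y))).card : ℤ) =
      (if x = y then 1 else 0) - 2 * (if x = y ∧ x.1 = x.2 then 1 else 0) +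
        (if x.1 = x.2 ∧ y.1 = y.2 then 1 else 0) := by
  decide

theorem b1_countT : ∀ x y : B1X,
    (univ.filter (fun o : (ZMod 3 × ZMod 3) × (ZMod 3 × ZMod 3) =>
      b1sig true o = (x, y))).card = if x.1 = x.2 ∧ y.1 = y.2 then 9 else 0 := by
  decide

theorem b1_countF : ∀ x y : B1X,
    (univ.filter (fun o : (ZMod 3 × ZMod 3) × (ZMod 3 × ZMod 3) =>
      b1sig false o = (x, y))).card = if x = y then 9 else 0 := by
  decide

/-- The projection to the constant function on the diagonal. -/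
noncomputable def b1F : Matrix B1X B1X ℝ :=
  Matrix.of fun x y => if x.1 = x.2 ∧ y.1 = y.2 then 1 / 3 else 0

/-- The reflection in the diagonal. -/
noncomputable def b1O : Matrix B1X B1X ℝ :=
  Matrix.diagonal fun x => if x.1 = x.2 then 1 else -1

theorem b1F_apply (x y : B1X) : b1F x y = if x.1 = x.2 ∧ y.1 = y.2 then 1 / 3 else 0 := rfl

theorem b1F_idem : b1F * b1F = b1F := by
  ext x y
  rw [Matrix.mul_apply]
  have h : ∀ z : B1X, b1F x z * b1F z y =
      (if x.1 = x.2 ∧ y.1 = y.2 then (1 / 9 : ℝ) else 0) * (if z.1 = z.2 then 1 else 0) := by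
    intro z
    simp only [b1F_apply]
    by_cases h1 : x.1 = x.2 <;> by_cases h2 : y.1 = y.2 <;> by_cases h3 : z.1 = z.2 <;>
      simp [h1, h2, h3] <;> norm_num
  simp_rw [h]
  rw [← Finset.mul_sum]
  have h2 : ∑ z : B1X, (if z.1 = z.2 then (1 : ℝ) else 0) = 3 := by
    rw [← Finset.sum_filter]
    have h3 : (univ.filter (fun z : B1X => z.1 = z.2)).card = 3 := by decide
    rw [Finset.sum_const, h3]
    norm_num
  rw [h2, b1F_apply]
  split_ifs <;> norm_num

theorem b1F_symm : b1F.transpose = b1F := by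
  ext x y
  rw [Matrix.transpose_apply, b1F_apply, b1F_apply]
  refine if_congr ?_ rfl rfl
  exact and_comm

theorem b1O_sq : b1O.transpose * b1O = 1 := by
  unfold b1O
  rw [Matrix.diagonal_transpose, Matrix.diagonal_mul_diagonal, ← Matrix.diagonal_one]
  congr 1
  funext x
  split_ifs <;> norm_num

theorem b1O_F : b1O * b1F = b1F := by
  ext x y
  unfold b1O
  rw [Matrix.diagonal_mul, b1F_apply]
  by_cases h : x.1 = x.2
  · rw [if_pos h, one_mul]
  · simp [h]

theorem b1_site (x y : B1X) :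
    ((univ.filter (fun o : ZMod 3 × Bool × Bool => b1tau o = (x, y))).card : ℝ) /
        Fintype.card (ZMod 3 × Bool × Bool) =
      (1 / 6) * ((1 / 2 : ℝ) • ((3 : ℝ) • b1F - (1 / 2 : ℝ) • (b1O + b1O))) x y := by
  have h := b1_count x y
  have h' : ((univ.filter (fun o : ZMod 3 × Bool × Bool => b1tau o = (x, y))).card : ℝ) =
      (if x = y then 1 else 0) - 2 * (if x = y ∧ x.1 = x.2 then 1 else 0) +
        (if x.1 = x.2 ∧ y.1 = y.2 then 1 else 0) := by
    exact_mod_cast h
  have hc : Fintype.card (ZMod 3 × Bool × Bool) = 12 := by decide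
  rw [h', hc, Matrix.smul_apply, Matrix.sub_apply, Matrix.smul_apply, Matrix.smul_apply,
    Matrix.add_apply, b1F_apply]
  simp only [b1O, Matrix.diagonal_apply, smul_eq_mul]
  by_cases h1 : x = y
  · by_cases h2 : x.1 = x.2 <;> by_cases h3 : y.1 = y.2 <;> simp [h1, h2, h3] <;> norm_num
  · by_cases h2 : x.1 = x.2 <;> by_cases h3 : y.1 = y.2 <;> simp [h1, h2, h3] <;> norm_num

/-- The test function. -/
noncomputable def b1Psi {ι : Type} (f : (ι → ZMod 3) → ℝ) (x : ι → B1X) : ℝ :=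
  f (fun i => (x i).1) * f ((fun i => (x i).2) - 1)

variable {ι : Type} [Fintype ι] [DecidableEq ι]

/-- Sums over pairs of words. -/
theorem b1_split {X : Type} [Fintype X] (G : (ι → X × X) → ℝ) :
    ∑ ξ : ι → X × X, G ξ = ∑ x : ι → X, ∑ y : ι → X, G (fun i => (x i, y i)) := by
  let e : (ι → X) × (ι → X) ≃ (ι → X × X) :=
    { toFun := fun p i => (p.1 i, p.2 i)
      invFun := fun ω => (fun i => (ω i).1, fun i => (ω i).2)
      left_inv := fun p => rfl
      right_inv := fun ω => rfl }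
  rw [← Fintype.sum_prod_type', ← e.sum_comp]
  rfl

theorem b1_left (f : (ι → ZMod 3) → ℝ) :
    𝔼 z : ι → ZMod 3, (𝔼 D : Finset ι, f (z + ind D) * f (z + ind D + ind D)) ^ 2 =
      (1 / 6) ^ Fintype.card ι * ∑ x : ι → B1X, ∑ y : ι → B1X, b1Psi f x *
        (∏ i, ((1 / 2 : ℝ) • ((3 : ℝ) • b1F - (1 / 2 : ℝ) • (b1O + b1O))) (x i) (y i)) *
          b1Psi f y := by
  have h1 : ∀ z : ι → ZMod 3,
      (𝔼 D : Finset ι, f (z + ind D) * f (z + ind D + ind D)) ^ 2 =
      𝔼 c : ι → Bool × Bool,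
        (f (fun i => z i + b1z (c i).1) * f (fun i => z i + b1z (c i).1 + b1z (c i).1)) *
        (f (fun i => z i + b1z (c i).2) * f (fun i => z i + b1z (c i).2 + b1z (c i).2)) := by
    intro z
    have e1 : 𝔼 D : Finset ι, f (z + ind D) * f (z + ind D + ind D) =
        𝔼 b : ι → Bool, f (fun i => z i + b1z (b i)) * f (fun i => z i + b1z (b i) + b1z (b i)) := by
      rw [b1_fin]
      refine Finset.expect_congr rfl fun b _ => ?_
      have e2 : ind (univ.filter (fun i => b i = true)) = fun i => b1z (b i) := by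
        funext i
        simp [ind, b1z]
      rw [e2]
      rfl
    rw [e1, sq, Finset.expect_mul_expect]
    exact b1_pair (fun b b' : ι → Bool =>
      (f (fun i => z i + b1z (b i)) * f (fun i => z i + b1z (b i) + b1z (b i))) *
        (f (fun i => z i + b1z (b' i)) * f (fun i => z i + b1z (b' i) + b1z (b' i))))
  simp_rw [h1]
  rw [b1_pair (fun (z : ι → ZMod 3) (c : ι → Bool × Bool) =>
    (f (fun i => z i + b1z (c i).1) * f (fun i => z i + b1z (c i).1 + b1z (c i).1)) *
        (f (fun i => z i + b1z (c i).2) * f (fun i => z i + b1z (c i).2 + b1z (c i).2)))]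
  have h2 := b1_pushE (ι := ι) (fun _ => b1tau)
    (fun _ ξ => (1 / 6) * ((1 / 2 : ℝ) • ((3 : ℝ) • b1F - (1 / 2 : ℝ) • (b1O + b1O))) ξ.1 ξ.2)
    (fun ξ => b1Psi f (fun i => (ξ i).1) * b1Psi f (fun i => (ξ i).2))
    (fun _ ξ => b1_site ξ.1 ξ.2)
  have h3 : ∀ ω : ι → ZMod 3 × Bool × Bool,
      (f (fun i => (ω i).1 + b1z (ω i).2.1) *
          f (fun i => (ω i).1 + b1z (ω i).2.1 + b1z (ω i).2.1)) *
        (f (fun i => (ω i).1 + b1z (ω i).2.2) *
          f (fun i => (ω i).1 + b1z (ω i).2.2 + b1z (ω i).2.2)) =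
      b1Psi f (fun i => (b1tau (ω i)).1) * b1Psi f (fun i => (b1tau (ω i)).2) := by
    intro ω
    unfold b1Psi b1tau
    have a1 : ((fun i => (ω i).1 + b1z (ω i).2.2 + b1z (ω i).2.2 + 1) - 1 : ι → ZMod 3) =
        fun i => (ω i).1 + b1z (ω i).2.2 + b1z (ω i).2.2 := by
      funext i
      simp
    have a2 : ((fun i => (ω i).1 + b1z (ω i).2.1 + b1z (ω i).2.1 + 1) - 1 : ι → ZMod 3) =
        fun i => (ω i).1 + b1z (ω i).2.1 + b1z (ω i).2.1 := by
      funext i
      simp
    simp only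
    rw [a1, a2]
    ring
  simp_rw [h3]
  rw [h2, b1_split, Finset.mul_sum]
  refine Finset.sum_congr rfl fun x _ => ?_
  rw [Finset.mul_sum]
  refine Finset.sum_congr rfl fun y _ => ?_
  simp only
  rw [Finset.prod_mul_distrib, Finset.prod_const, Finset.card_univ]
  ring

/-- The right side for one set of sites. -/
noncomputable def b1T (f : (ι → ZMod 3) → ℝ) (V : Finset ι) : ℝ :=
  𝔼 p : ι → ZMod 3, 𝔼 q : ι → ZMod 3,
    (𝔼 v : ι → ZMod 3, f (mix V v p) * f (mix V v q - 1)) ^ 2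

theorem b1_right (f : (ι → ZMod 3) → ℝ) (V : Finset ι) :
    b1T f V = (∏ i, if i ∈ V then (1 / 3 : ℝ) else 1 / 9) *
      ∑ x : ι → B1X, ∑ y : ι → B1X, b1Psi f x *
        (∏ i, (if i ∈ V then b1F else (1 : Matrix B1X B1X ℝ)) (x i) (y i)) * b1Psi f y := by
  have h1 : b1T f V = 𝔼 c : ι → (ZMod 3 × ZMod 3) × (ZMod 3 × ZMod 3),
      (f (mix V (fun i => (c i).1.1) (fun i => (c i).2.1)) *
        f (mix V (fun i => (c i).1.1) (fun i => (c i).2.2) - 1)) *
      (f (mix V (fun i => (c i).1.2) (fun i => (c i).2.1)) *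
        f (mix V (fun i => (c i).1.2) (fun i => (c i).2.2) - 1)) := by
    unfold b1T
    have e1 : ∀ p q : ι → ZMod 3, (𝔼 v : ι → ZMod 3, f (mix V v p) * f (mix V v q - 1)) ^ 2 =
        𝔼 c : ι → ZMod 3 × ZMod 3,
          (f (mix V (fun i => (c i).1) p) * f (mix V (fun i => (c i).1) q - 1)) *
          (f (mix V (fun i => (c i).2) p) * f (mix V (fun i => (c i).2) q - 1)) := by
      intro p q
      rw [sq, Finset.expect_mul_expect]
      exact b1_pair (fun v v' : ι → ZMod 3 =>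
        (f (mix V v p) * f (mix V v q - 1)) * (f (mix V v' p) * f (mix V v' q - 1)))
    simp_rw [e1]
    rw [b1_pair (fun p q : ι → ZMod 3 => 𝔼 c : ι → ZMod 3 × ZMod 3,
          (f (mix V (fun i => (c i).1) p) * f (mix V (fun i => (c i).1) q - 1)) *
          (f (mix V (fun i => (c i).2) p) * f (mix V (fun i => (c i).2) q - 1))), E_comm]
    exact b1_pair (fun (c : ι → ZMod 3 × ZMod 3) (r : ι → ZMod 3 × ZMod 3) =>
          (f (mix V (fun i => (c i).1) (fun i => (r i).1)) *
            f (mix V (fun i => (c i).1) (fun i => (r i).2) - 1)) *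
          (f (mix V (fun i => (c i).2) (fun i => (r i).1)) *
            f (mix V (fun i => (c i).2) (fun i => (r i).2) - 1)))
  have h2 := b1_pushE (ι := ι) (fun i => b1sig (decide (i ∈ V)))
    (fun i ξ => (if i ∈ V then (1 / 3 : ℝ) else 1 / 9) *
      (if i ∈ V then b1F else (1 : Matrix B1X B1X ℝ)) ξ.1 ξ.2)
    (fun ξ => b1Psi f (fun i => (ξ i).1) * b1Psi f (fun i => (ξ i).2))
    (fun i ξ => by
      obtain ⟨x, y⟩ := ξ
      have hc : Fintype.card ((ZMod 3 × ZMod 3) × (ZMod 3 × ZMod 3)) = 81 := by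
        simp [Fintype.card_prod, ZMod.card]
      rw [hc]
      by_cases hi : i ∈ V
      · simp only [hi, decide_true, if_true]
        rw [b1_countT, b1F_apply]
        split_ifs <;> norm_num
      · simp only [hi, decide_false, if_false]
        rw [b1_countF, Matrix.one_apply]
        split_ifs <;> norm_num)
  have h3 : ∀ c : ι → (ZMod 3 × ZMod 3) × (ZMod 3 × ZMod 3),
      (f (mix V (fun i => (c i).1.1) (fun i => (c i).2.1)) *
        f (mix V (fun i => (c i).1.1) (fun i => (c i).2.2) - 1)) *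
      (f (mix V (fun i => (c i).1.2) (fun i => (c i).2.1)) *
        f (mix V (fun i => (c i).1.2) (fun i => (c i).2.2) - 1)) =
      b1Psi f (fun i => (b1sig (decide (i ∈ V)) (c i)).1) *
        b1Psi f (fun i => (b1sig (decide (i ∈ V)) (c i)).2) := by
    intro c
    unfold b1Psi
    have a1 : (fun i => (b1sig (decide (i ∈ V)) (c i)).1.1) =
        mix V (fun i => (c i).1.1) (fun i => (c i).2.1) := by
      funext i
      by_cases hi : i ∈ V <;> simp [b1sig, mix, hi]
    have a2 : (fun i => (b1sig (decide (i ∈ V)) (c i)).1.2) =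
        mix V (fun i => (c i).1.1) (fun i => (c i).2.2) := by
      funext i
      by_cases hi : i ∈ V <;> simp [b1sig, mix, hi]
    have a3 : (fun i => (b1sig (decide (i ∈ V)) (c i)).2.1) =
        mix V (fun i => (c i).1.2) (fun i => (c i).2.1) := by
      funext i
      by_cases hi : i ∈ V <;> simp [b1sig, mix, hi]
    have a4 : (fun i => (b1sig (decide (i ∈ V)) (c i)).2.2) =
        mix V (fun i => (c i).1.2) (fun i => (c i).2.2) := by
      funext i
      by_cases hi : i ∈ V <;> simp [b1sig, mix, hi]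
    rw [a1, a2, a3, a4]
  rw [h1]
  simp_rw [h3]
  rw [h2, b1_split, Finset.mul_sum]
  refine Finset.sum_congr rfl fun x _ => ?_
  rw [Finset.mul_sum]
  refine Finset.sum_congr rfl fun y _ => ?_
  simp only
  rw [Finset.prod_mul_distrib]
  ring

theorem b1_bern (T : Finset ι → ℝ) :
    𝔼 V : Finset ι, (∏ i, if i ∈ V then (1 / 2 : ℝ) else 3 / 2) * T V =
      𝔼 U : Finset ι, 𝔼 A : Finset ι, T (U ∩ A) := by
  have h1 : 𝔼 V : Finset ι, (∏ i, if i ∈ V then (1 / 2 : ℝ) else 3 / 2) * T V =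
      ∑ b : ι → Bool, (∏ i, if b i = true then (1 / 4 : ℝ) else 3 / 4) *
        T (univ.filter (fun i => b i = true)) := by
    rw [b1_fin, Fintype.expect_eq_sum_div_card, Finset.sum_div]
    refine Finset.sum_congr rfl fun b _ => ?_
    have hc : ((Fintype.card (ι → Bool) : ℕ) : ℝ) = ∏ _i : ι, (2 : ℝ) := by
      rw [Fintype.card_fun, Fintype.card_bool, Finset.prod_const, Finset.card_univ]
      push_cast
      rfl
    rw [hc, mul_div_right_comm, ← Finset.prod_div_distrib]
    congr 1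
    refine Finset.prod_congr rfl fun i _ => ?_
    simp only [mem_filter, mem_univ, true_and]
    split_ifs <;> norm_num
  have h2 : 𝔼 U : Finset ι, 𝔼 A : Finset ι, T (U ∩ A) =
      𝔼 ω : ι → Bool × Bool, T (univ.filter (fun i => ((ω i).1 && (ω i).2) = true)) := by
    rw [b1_fin]
    simp_rw [b1_fin]
    rw [b1_pair (fun b b' : ι → Bool => T (univ.filter (fun i => b i = true) ∩
      univ.filter (fun i => b' i = true)))]
    refine Finset.expect_congr rfl fun ω _ => ?_
    congr 1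
    ext i
    simp
  have h3 := b1_pushE (ι := ι) (fun _ (o : Bool × Bool) => (o.1 && o.2))
    (fun _ ξ => if ξ = true then (1 / 4 : ℝ) else 3 / 4)
    (fun ξ => T (univ.filter (fun i => ξ i = true)))
    (fun _ ξ => by
      have hc : Fintype.card (Bool × Bool) = 4 := by decide
      rw [hc]
      cases ξ with
      | true =>
        have : (univ.filter (fun o : Bool × Bool => (o.1 && o.2) = true)).card = 1 := by decide
        rw [this]
        norm_num
      | false =>
        have : (univ.filter (fun o : Bool × Bool => (o.1 && o.2) = false)).card = 3 := by decide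
        rw [this]
        norm_num)
  rw [h1, h2, h3]

theorem stepB1 {ι : Type} [Fintype ι] [DecidableEq ι] (f : (ι → ZMod 3) → ℝ) :
    𝔼 z : ι → ZMod 3, (𝔼 D : Finset ι, f (z + ind D) * f (z + ind D + ind D)) ^ 2 ≤
      𝔼 U : Finset ι, 𝔼 A : Finset ι, 𝔼 p : ι → ZMod 3, 𝔼 q : ι → ZMod 3,
        (𝔼 v : ι → ZMod 3, f (mix (U ∩ A) v p) * f (mix (U ∩ A) v q - 1)) ^ 2 := by
  have h1 := uni b1F b1O b1O b1F_idem b1F_symm b1O_sq b1O_F b1O_sq b1O_F (b1Psi f)
  have h2 := (le_abs_self _).trans h1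
  rw [b1_left]
  have h3 : (𝔼 U : Finset ι, 𝔼 A : Finset ι, 𝔼 p : ι → ZMod 3, 𝔼 q : ι → ZMod 3,
        (𝔼 v : ι → ZMod 3, f (mix (U ∩ A) v p) * f (mix (U ∩ A) v q - 1)) ^ 2) =
      𝔼 V : Finset ι, (∏ i, if i ∈ V then (1 / 2 : ℝ) else 3 / 2) * b1T f V :=
    (b1_bern (b1T f)).symm
  rw [h3]
  refine (mul_le_mul_of_nonneg_left h2 (by positivity)).trans (le_of_eq ?_)
  rw [Finset.mul_expect]
  refine Finset.expect_congr rfl fun V _ => ?_
  rw [b1_right, ← mul_assoc, ← Finset.prod_mul_distrib]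
  congr 1
  rw [← Finset.card_univ, ← Finset.prod_const]
  refine Finset.prod_congr rfl fun i _ => ?_
  split_ifs <;> norm_num

end H24AP
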