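import Pool.Agent.H24AP.Basic

/-!
# The tensor lemma

`E` is a symmetric idempotent, `O₁`, `O₂` are orthogonal and fix the range of `E`.
Put `C_j = 2 E - O_j` (orthogonal, commutes with `E`), `D = E + 2^{-1/2} (1 - E)`, so
`D^2 = (1 + E)/2` and `D C_j D = (3 E - O_j)/2`.
The tensor power of `(3E - (O₁+O₂)/2)/2` is the average over `j : ι → {1,2}` of
`ten D * ten C_j * ten D`, and `ten C_j` is orthogonal; Cauchy-Schwarz.  Finally
`ten ((1+E)/2)` is the average over `V` of `ten (if i ∈ V then E else 1)`.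
-/

namespace H24AP

open Finset
open scoped BigOperators Matrix

section tenlemmas

variable {X ι : Type} [Fintype X] [DecidableEq X] [Fintype ι] [DecidableEq ι]

omit [DecidableEq X] in
theorem ten_mul (A B : ι → Matrix X X ℝ) : ten A * ten B = ten (fun i => A i * B i) := by
  ext x z
  simp only [ten, Matrix.mul_apply]
  rw [Finset.prod_univ_sum]
  rw [Fintype.piFinset_univ]
  exact Finset.sum_congr rfl fun y _ => by rw [← Finset.prod_mul_distrib]

omit [DecidableEq ι] [Fintype X] in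
theorem ten_one : ten (fun _ : ι => (1 : Matrix X X ℝ)) = 1 := by
  classical
  ext x y
  simp only [ten, Matrix.one_apply]
  rw [Finset.prod_ite_zero]
  simp [funext_iff]

omit [Fintype X] [DecidableEq X] [DecidableEq ι] in
theorem ten_transpose (A : ι → Matrix X X ℝ) :
    (ten A).transpose = ten (fun i => (A i).transpose) := by
  ext x y
  rfl

omit [Fintype X] [DecidableEq X] in
theorem prod_half (f g : ι → ℝ) :
    ∏ i, ((f i + g i) / 2) = 𝔼 J : Finset ι, ∏ i, (if i ∈ J then f i else g i) := by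
  rw [Fintype.expect_eq_sum_div_card, Fintype.card_finset]
  rw [Finset.prod_div_distrib, Finset.prod_const, Finset.card_univ, Finset.prod_add,
    Finset.powerset_univ]
  push_cast
  congr 1
  refine Finset.sum_congr rfl fun J _ => ?_
  rw [Finset.prod_ite]
  congr 1
  · congr 1
    ext i; simp
  · congr 1
    ext i; simp

omit [DecidableEq X] in
theorem quad_expect {κ : Type} [Fintype κ] (M : κ → Matrix X X ℝ) (Ψ : X → ℝ) :
    ∑ x, ∑ y, Ψ x * (𝔼 J, M J x y) * Ψ y = 𝔼 J, ∑ x, ∑ y, Ψ x * M J x y * Ψ y := by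
  rw [Finset.expect_sum_comm]
  refine Finset.sum_congr rfl fun x _ => ?_
  rw [Finset.expect_sum_comm]
  refine Finset.sum_congr rfl fun y _ => ?_
  rw [Finset.mul_expect, Finset.expect_mul]

omit [DecidableEq X] in
theorem quad_eq (M : Matrix X X ℝ) (Ψ : X → ℝ) :
    ∑ x, ∑ y, Ψ x * M x y * Ψ y = Ψ ⬝ᵥ (M *ᵥ Ψ) := by
  simp only [dotProduct, Matrix.mulVec, Finset.mul_sum, mul_assoc]

theorem orth_quad (D C : Matrix X X ℝ) (hD : D.transpose = D) (hC : C.transpose * C = 1)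
    (Ψ : X → ℝ) :
    |Ψ ⬝ᵥ ((D * C * D) *ᵥ Ψ)| ≤ Ψ ⬝ᵥ ((D * D) *ᵥ Ψ) := by
  set v := D *ᵥ Ψ with hv
  set w := C *ᵥ v with hw
  have h1 : Ψ ⬝ᵥ ((D * C * D) *ᵥ Ψ) = v ⬝ᵥ w := by
    rw [← Matrix.mulVec_mulVec, ← Matrix.mulVec_mulVec, Matrix.dotProduct_mulVec,
      ← Matrix.mulVec_transpose, hD]
  have h2 : Ψ ⬝ᵥ ((D * D) *ᵥ Ψ) = v ⬝ᵥ v := by
    rw [← Matrix.mulVec_mulVec, Matrix.dotProduct_mulVec, ← Matrix.mulVec_transpose, hD]
  have h3 : w ⬝ᵥ w = v ⬝ᵥ v := by
    have : w ⬝ᵥ w = (C.transpose *ᵥ w) ⬝ᵥ v := by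
      rw [hw, Matrix.dotProduct_mulVec, ← Matrix.mulVec_transpose]
    rw [this, hw, Matrix.mulVec_mulVec, hC, Matrix.one_mulVec]
  rw [h1, h2, abs_le]
  have h4 : 0 ≤ (v - w) ⬝ᵥ (v - w) := by
    simp only [dotProduct]
    exact Finset.sum_nonneg fun i _ => mul_self_nonneg _
  have h5 : 0 ≤ (v + w) ⬝ᵥ (v + w) := by
    simp only [dotProduct]
    exact Finset.sum_nonneg fun i _ => mul_self_nonneg _
  have h6 : w ⬝ᵥ v = v ⬝ᵥ w := dotProduct_comm _ _
  simp only [sub_dotProduct, dotProduct_sub, add_dotProduct, dotProduct_add] at h4 h5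
  constructor <;> linarith

end tenlemmas

theorem uni {X ι : Type} [Fintype X] [DecidableEq X] [Fintype ι] [DecidableEq ι]
    (E O₁ O₂ : Matrix X X ℝ) (hE : E * E = E) (hEt : E.transpose = E)
    (h1 : O₁.transpose * O₁ = 1) (h1E : O₁ * E = E)
    (h2 : O₂.transpose * O₂ = 1) (h2E : O₂ * E = E) (Ψ : (ι → X) → ℝ) :
    |∑ x, ∑ y, Ψ x *
        (∏ i, ((1 / 2 : ℝ) • ((3 : ℝ) • E - (1 / 2 : ℝ) • (O₁ + O₂))) (x i) (y i)) * Ψ y| ≤
      𝔼 V : Finset ι, ∑ x, ∑ y, Ψ x *
        (∏ i, (if i ∈ V then E else (1 : Matrix X X ℝ)) (x i) (y i)) * Ψ y := by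
  -- scalar
  obtain ⟨c, hc⟩ : ∃ c : ℝ, c * c = 1 / 2 :=
    ⟨Real.sqrt (1 / 2), Real.mul_self_sqrt (by norm_num)⟩
  set D : Matrix X X ℝ := E + c • (1 - E) with hDdef
  have hDt : D.transpose = D := by
    rw [hDdef, Matrix.transpose_add, Matrix.transpose_smul, Matrix.transpose_sub,
      Matrix.transpose_one, hEt]
  have hDD : D * D = (1 / 2 : ℝ) • (1 + E) := by
    have e1 : E * (1 - E) = 0 := by rw [mul_sub, mul_one, hE, sub_self]
    have e2 : (1 - E) * E = 0 := by rw [sub_mul, one_mul, hE, sub_self]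
    have e3 : (1 - E) * (1 - E) = 1 - E := by rw [sub_mul, one_mul, e1, sub_zero]
    rw [hDdef, add_mul, mul_add, mul_add, hE, Matrix.mul_smul, e1, smul_zero, add_zero,
      Matrix.smul_mul, e2, smul_zero, zero_add, Matrix.smul_mul, Matrix.mul_smul, e3,
      smul_smul, hc]
    ext i j
    simp only [Matrix.add_apply, Matrix.smul_apply, Matrix.sub_apply, smul_eq_mul]
    ring
  -- facts about one orthogonal matrix
  have key : ∀ O : Matrix X X ℝ, O.transpose * O = 1 → O * E = E →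
      ((2 : ℝ) • E - O).transpose * ((2 : ℝ) • E - O) = 1 ∧
      D * ((2 : ℝ) • E - O) * D = (1 / 2 : ℝ) • ((3 : ℝ) • E - O) := by
    intro O hO hOE
    have hEO' : O.transpose * E = E := by
      calc O.transpose * E = O.transpose * (O * E) := by rw [hOE]
        _ = E := by rw [← mul_assoc, hO, one_mul]
    have hEO : E * O = E := by
      have := congrArg Matrix.transpose hEO'
      rwa [Matrix.transpose_mul, Matrix.transpose_transpose, hEt] at this
    refine ⟨?_, ?_⟩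
    · rw [Matrix.transpose_sub, Matrix.transpose_smul, hEt, sub_mul, mul_sub, mul_sub,
        Matrix.smul_mul, Matrix.mul_smul, hE, Matrix.smul_mul, hEO, Matrix.mul_smul, hEO', hO]
      ext i j
      simp only [Matrix.add_apply, Matrix.smul_apply, Matrix.sub_apply, smul_eq_mul]
      ring
    · have hCE : ((2 : ℝ) • E - O) * E = E := by
        rw [sub_mul, Matrix.smul_mul, hE, hOE]
        ext i j
        simp only [Matrix.smul_apply, Matrix.sub_apply, smul_eq_mul]
        ring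
      have hEC : E * ((2 : ℝ) • E - O) = E := by
        rw [mul_sub, Matrix.mul_smul, hE, hEO]
        ext i j
        simp only [Matrix.smul_apply, Matrix.sub_apply, smul_eq_mul]
        ring
      have hcomm : D * ((2 : ℝ) • E - O) = ((2 : ℝ) • E - O) * D := by
        generalize (2 : ℝ) • E - O = C at hCE hEC
        rw [hDdef, add_mul, mul_add, Matrix.smul_mul, Matrix.mul_smul, sub_mul, mul_sub, hCE,
          hEC, one_mul, mul_one]
      rw [hcomm, mul_assoc, hDD, Matrix.mul_smul, mul_add, mul_one, hCE]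
      ext i j
      simp only [Matrix.add_apply, Matrix.smul_apply, Matrix.sub_apply, smul_eq_mul]
      ring
  obtain ⟨c1, d1⟩ := key O₁ h1 h1E
  obtain ⟨c2, d2⟩ := key O₂ h2 h2E
  -- left-hand side as an average
  have hL : ∀ x y : ι → X,
      (∏ i, ((1 / 2 : ℝ) • ((3 : ℝ) • E - (1 / 2 : ℝ) • (O₁ + O₂))) (x i) (y i)) =
      𝔼 J : Finset ι, (ten (fun _ : ι => D) *
        ten (fun i : ι => if i ∈ J then (2 : ℝ) • E - O₁ else (2 : ℝ) • E - O₂) *
        ten (fun _ : ι => D)) x y := by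
    intro x y
    have e1 : ∀ i, ((1 / 2 : ℝ) • ((3 : ℝ) • E - (1 / 2 : ℝ) • (O₁ + O₂))) (x i) (y i) =
        (((1 / 2 : ℝ) • ((3 : ℝ) • E - O₁)) (x i) (y i) +
          ((1 / 2 : ℝ) • ((3 : ℝ) • E - O₂)) (x i) (y i)) / 2 := by
      intro i
      simp only [Matrix.add_apply, Matrix.smul_apply, Matrix.sub_apply, smul_eq_mul]
      ring
    rw [Finset.prod_congr rfl fun i _ => e1 i, prod_half]
    refine Finset.expect_congr rfl fun J _ => ?_
    rw [ten_mul, ten_mul]
    simp only [ten]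
    refine Finset.prod_congr rfl fun i _ => ?_
    by_cases hi : i ∈ J
    · rw [if_pos hi, if_pos hi, d1]
    · rw [if_neg hi, if_neg hi, d2]
  have hR : ∀ x y : ι → X, (ten (fun _ : ι => D) * ten (fun _ : ι => D)) x y =
      𝔼 V : Finset ι, ∏ i, (if i ∈ V then E else (1 : Matrix X X ℝ)) (x i) (y i) := by
    intro x y
    rw [ten_mul, hDD]
    simp only [ten]
    have e1 : ∀ i, ((1 / 2 : ℝ) • (1 + E)) (x i) (y i) =
        (E (x i) (y i) + (1 : Matrix X X ℝ) (x i) (y i)) / 2 := by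
      intro i
      simp only [Matrix.add_apply, Matrix.smul_apply, smul_eq_mul]
      ring
    rw [Finset.prod_congr rfl fun i _ => e1 i, prod_half]
    refine Finset.expect_congr rfl fun J _ => ?_
    refine Finset.prod_congr rfl fun i _ => ?_
    by_cases hi : i ∈ J
    · rw [if_pos hi, if_pos hi]
    · rw [if_neg hi, if_neg hi]
  have hRq : 𝔼 V : Finset ι, ∑ x, ∑ y, Ψ x *
        (∏ i, (if i ∈ V then E else (1 : Matrix X X ℝ)) (x i) (y i)) * Ψ y =
      Ψ ⬝ᵥ ((ten (fun _ : ι => D) * ten (fun _ : ι => D)) *ᵥ Ψ) := by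
    rw [← quad_eq, ← quad_expect (fun V : Finset ι => (fun x y : ι → X =>
      ∏ i, (if i ∈ V then E else (1 : Matrix X X ℝ)) (x i) (y i)))]
    refine Finset.sum_congr rfl fun x _ => Finset.sum_congr rfl fun y _ => ?_
    rw [hR]
  have hLq : ∑ x, ∑ y, Ψ x *
        (∏ i, ((1 / 2 : ℝ) • ((3 : ℝ) • E - (1 / 2 : ℝ) • (O₁ + O₂))) (x i) (y i)) * Ψ y =
      𝔼 J : Finset ι, Ψ ⬝ᵥ ((ten (fun _ : ι => D) *
        ten (fun i : ι => if i ∈ J then (2 : ℝ) • E - O₁ else (2 : ℝ) • E - O₂) *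
        ten (fun _ : ι => D)) *ᵥ Ψ) := by
    simp only [hL]
    rw [quad_expect]
    exact Finset.expect_congr rfl fun J _ => quad_eq _ _
  rw [hLq, hRq]
  have hDten : (ten (fun _ : ι => D)).transpose = ten (fun _ : ι => D) := by
    rw [ten_transpose, hDt]
  have hbound : ∀ J : Finset ι, |Ψ ⬝ᵥ ((ten (fun _ : ι => D) *
        ten (fun i : ι => if i ∈ J then (2 : ℝ) • E - O₁ else (2 : ℝ) • E - O₂) *
        ten (fun _ : ι => D)) *ᵥ Ψ)| ≤
      Ψ ⬝ᵥ ((ten (fun _ : ι => D) * ten (fun _ : ι => D)) *ᵥ Ψ) := by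
    intro J
    apply orth_quad _ _ hDten
    rw [ten_transpose, ten_mul]
    have : (fun i : ι => (if i ∈ J then (2 : ℝ) • E - O₁ else (2 : ℝ) • E - O₂).transpose *
        (if i ∈ J then (2 : ℝ) • E - O₁ else (2 : ℝ) • E - O₂)) =
        fun _ => (1 : Matrix X X ℝ) := by
      funext i
      by_cases hi : i ∈ J
      · rw [if_pos hi, c1]
      · rw [if_neg hi, c2]
    rw [this, ten_one]
  refine (Finset.abs_expect_le _ _).trans ?_
  refine (Finset.expect_le_expect fun J _ => hbound J).trans ?_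
  exact le_of_eq (Finset.expect_const univ_nonempty _)

/-- Pushing a product sum forward along a map of the alphabet. -/
theorem push {Ω Ξ ι : Type} [Fintype Ω] [DecidableEq Ω] [Fintype Ξ] [DecidableEq Ξ] [Fintype ι]
    [DecidableEq ι] (τ : Ω → Ξ) (w : Ω → ℝ) (Φ : (ι → Ξ) → ℝ) :
    ∑ ω : ι → Ω, (∏ i, w (ω i)) * Φ (fun i => τ (ω i)) =
      ∑ ξ : ι → Ξ, (∏ i, ∑ o with τ o = ξ i, w o) * Φ ξ := by
  have h1 : ∀ ξ : ι → Ξ, (∏ i, ∑ o with τ o = ξ i, w o) =
      ∑ ω : ι → Ω, if (fun i => τ (ω i)) = ξ then ∏ i, w (ω i) else 0 := by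
    intro ξ
    have e1 : ∀ i, (∑ o with τ o = ξ i, w o) = ∑ o, if τ o = ξ i then w o else 0 := by
      intro i
      rw [Finset.sum_filter]
    rw [Finset.prod_congr rfl fun i _ => e1 i, Finset.prod_univ_sum, Fintype.piFinset_univ]
    refine Finset.sum_congr rfl fun ω _ => ?_
    rw [Finset.prod_ite_zero]
    simp only [Finset.mem_univ, true_implies, funext_iff]
  simp only [h1, Finset.sum_mul]
  rw [Finset.sum_comm]
  refine Finset.sum_congr rfl fun ω _ => ?_
  simp only [ite_mul, zero_mul]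
  rw [Finset.sum_ite_eq]
  simp

end H24AP
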